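import Pool.Agent.WD.St

/-!
# WD / Bro: products and islands are broken at the cut
-/

namespace Pool.Agent.WD

open Finset
open scoped NNReal

section

variable {D V : Type} [Fintype D] [DecidableEq D] [Fintype V] [DecidableEq V]

/-- a marginal depends on the same variables -/
theorem bro_dep (g : (V → D) → ℝ≥0) (U R : Finset V) (hg : DepOn g U) (hR : R ⊆ U) :
    DepOn (marg R g) U := by
  intro x y hxy
  unfold marg
  refine Finset.sum_bij' (fun z _ => U.piecewise z y) (fun z _ => U.piecewise z x) ?_ ?_ ?_ ?_ ?_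
  · intro z hz
    rw [mem_filter] at hz ⊢
    refine ⟨mem_univ _, fun v hv => ?_⟩
    by_cases hvU : v ∈ U
    · rw [Finset.piecewise_eq_of_mem _ _ _ hvU, hz.2 v hv, hxy v hvU]
    · rw [Finset.piecewise_eq_of_notMem _ _ _ hvU]
  · intro z hz
    rw [mem_filter] at hz ⊢
    refine ⟨mem_univ _, fun v hv => ?_⟩
    by_cases hvU : v ∈ U
    · rw [Finset.piecewise_eq_of_mem _ _ _ hvU, hz.2 v hv, hxy v hvU]
    · rw [Finset.piecewise_eq_of_notMem _ _ _ hvU]
  · intro z hz
    rw [mem_filter] at hz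
    funext v
    by_cases hvU : v ∈ U
    · rw [Finset.piecewise_eq_of_mem _ _ _ hvU, Finset.piecewise_eq_of_mem _ _ _ hvU]
    · rw [Finset.piecewise_eq_of_notMem _ _ _ hvU, hz.2 v fun h => hvU (hR h)]
  · intro z hz
    rw [mem_filter] at hz
    funext v
    by_cases hvU : v ∈ U
    · rw [Finset.piecewise_eq_of_mem _ _ _ hvU, Finset.piecewise_eq_of_mem _ _ _ hvU]
    · rw [Finset.piecewise_eq_of_notMem _ _ _ hvU, hz.2 v fun h => hvU (hR h)]
  · intro z _
    exact hg _ _ fun v hv => (Finset.piecewise_eq_of_mem _ _ _ hv).symm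

/-- the marginal of a product of functions of disjoint sets of variables -/
theorem bro_mul (g h : (V → D) → ℝ≥0) (U R : Finset V) (hg : DepOn g U) (hh : DepOn h Uᶜ)
    (x : V → D) : marg R (fun z => g z * h z) x = marg (R ∩ U) g x * marg (R ∩ Uᶜ) h x := by
  unfold marg
  rw [Finset.sum_mul_sum, ← Finset.sum_product']
  refine Finset.sum_bij' (fun z _ => (U.piecewise z x, U.piecewise x z))
    (fun z _ => U.piecewise z.1 z.2) ?_ ?_ ?_ ?_ ?_
  · intro z hz
    rw [mem_filter] at hz
    rw [mem_product, mem_filter, mem_filter]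
    refine ⟨⟨mem_univ _, fun v hv => ?_⟩, ⟨mem_univ _, fun v hv => ?_⟩⟩
    · show U.piecewise z x v = x v
      by_cases hvU : v ∈ U
      · rw [Finset.piecewise_eq_of_mem _ _ _ hvU]
        exact hz.2 v fun h => hv (mem_inter.2 ⟨h, hvU⟩)
      · rw [Finset.piecewise_eq_of_notMem _ _ _ hvU]
    · show U.piecewise x z v = x v
      by_cases hvU : v ∈ U
      · rw [Finset.piecewise_eq_of_mem _ _ _ hvU]
      · rw [Finset.piecewise_eq_of_notMem _ _ _ hvU]
        exact hz.2 v fun h => hv (mem_inter.2 ⟨h, mem_compl.2 hvU⟩)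
  · rintro ⟨z1, z2⟩ hz
    rw [mem_product, mem_filter, mem_filter] at hz
    rw [mem_filter]
    refine ⟨mem_univ _, fun v hv => ?_⟩
    show U.piecewise z1 z2 v = x v
    by_cases hvU : v ∈ U
    · rw [Finset.piecewise_eq_of_mem _ _ _ hvU]
      exact hz.1.2 v fun h => hv (mem_inter.1 h).1
    · rw [Finset.piecewise_eq_of_notMem _ _ _ hvU]
      exact hz.2.2 v fun h => hv (mem_inter.1 h).1
  · intro z hz
    funext v
    show U.piecewise (U.piecewise z x) (U.piecewise x z) v = z v
    by_cases hvU : v ∈ U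
    · rw [Finset.piecewise_eq_of_mem _ _ _ hvU, Finset.piecewise_eq_of_mem _ _ _ hvU]
    · rw [Finset.piecewise_eq_of_notMem _ _ _ hvU, Finset.piecewise_eq_of_notMem _ _ _ hvU]
  · rintro ⟨z1, z2⟩ hz
    rw [mem_product, mem_filter, mem_filter] at hz
    have h1 : U.piecewise (U.piecewise z1 z2) x = z1 := by
      funext v
      by_cases hvU : v ∈ U
      · rw [Finset.piecewise_eq_of_mem _ _ _ hvU, Finset.piecewise_eq_of_mem _ _ _ hvU]
      · rw [Finset.piecewise_eq_of_notMem _ _ _ hvU]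
        exact (hz.1.2 v fun h => hvU (mem_inter.1 h).2).symm
    have h2 : U.piecewise x (U.piecewise z1 z2) = z2 := by
      funext v
      by_cases hvU : v ∈ U
      · rw [Finset.piecewise_eq_of_mem _ _ _ hvU]
        exact (hz.2.2 v fun h => mem_compl.1 (mem_inter.1 h).2 hvU).symm
      · rw [Finset.piecewise_eq_of_notMem _ _ _ hvU, Finset.piecewise_eq_of_notMem _ _ _ hvU]
    show (U.piecewise (U.piecewise z1 z2) x, U.piecewise x (U.piecewise z1 z2)) = (z1, z2)
    rw [h1, h2]
  · intro z _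
    show g z * h z = g (U.piecewise z x) * h (U.piecewise x z)
    rw [hg (U.piecewise z x) z fun v hv => Finset.piecewise_eq_of_mem _ _ _ hv,
      hh (U.piecewise x z) z fun v hv => Finset.piecewise_eq_of_notMem _ _ _ (mem_compl.1 hv)]

/-- a cut between `u` and `v` -/
theorem bro_cut (g h : (V → D) → ℝ≥0) (S : Finset V) (hg : DepOn g S) (hh : DepOn h Sᶜ) :
    Broken (fun x => g x * h x) S := by
  intro u hu v hv R x y hxy
  have hG : DepOn (marg (R ∩ S) g) S := bro_dep g S _ hg inter_subset_right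
  have hH : DepOn (marg (R ∩ Sᶜ) h) Sᶜ := bro_dep h Sᶜ _ hh inter_subset_right
  have e1 : ∀ w ∈ S, (({u} : Finset V).piecewise x y) w = x w := by
    intro w hw
    by_cases hwu : w = u
    · rw [Finset.piecewise_eq_of_mem _ _ _ (by simpa using hwu)]
    · rw [Finset.piecewise_eq_of_notMem _ _ _ (by simpa using hwu)]
      exact (hxy w hwu fun h => hv (h ▸ hw)).symm
  have e2 : ∀ w ∈ Sᶜ, (({u} : Finset V).piecewise x y) w = y w := by
    intro w hw
    rw [Finset.piecewise_eq_of_notMem]
    rw [mem_singleton]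
    rintro rfl
    exact mem_compl.1 hw hu
  have e3 : ∀ w ∈ S, (({u} : Finset V).piecewise y x) w = y w := by
    intro w hw
    by_cases hwu : w = u
    · rw [Finset.piecewise_eq_of_mem _ _ _ (by simpa using hwu)]
    · rw [Finset.piecewise_eq_of_notMem _ _ _ (by simpa using hwu)]
      exact hxy w hwu fun h => hv (h ▸ hw)
  have e4 : ∀ w ∈ Sᶜ, (({u} : Finset V).piecewise y x) w = x w := by
    intro w hw
    rw [Finset.piecewise_eq_of_notMem]
    rw [mem_singleton]
    rintro rfl
    exact mem_compl.1 hw hu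
  unfold Cross
  rw [bro_mul g h S R hg hh, bro_mul g h S R hg hh, bro_mul g h S R hg hh, bro_mul g h S R hg hh,
    hG _ _ e1, hH _ _ e2, hG _ _ e3, hH _ _ e4]
  exact Or.inl (by ring)

end

theorem thm_Bro : St_Bro := by
  intro D V _ _ _ _ g h S U
  refine ⟨bro_cut g h S, fun hT hg hh hSU u hu v hv => ?_⟩
  by_cases hvU : v ∈ U
  · intro R x y hxy
    have hH : DepOn (marg (R ∩ Uᶜ) h) Uᶜ := bro_dep h Uᶜ _ hh inter_subset_right
    have hc := hT (R ∩ U) u v x y hxy
    have hxy' : ∀ w ∈ Uᶜ, x w = y w := fun w hw => hxy w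
      (fun h => mem_compl.1 hw (h ▸ hSU hu)) (fun h => mem_compl.1 hw (h ▸ hvU))
    have e1 : ∀ w ∈ Uᶜ, (({u} : Finset V).piecewise x y) w = x w := by
      intro w hw
      by_cases hwu : w = u
      · rw [Finset.piecewise_eq_of_mem _ _ _ (by simpa using hwu)]
      · rw [Finset.piecewise_eq_of_notMem _ _ _ (by simpa using hwu)]
        exact (hxy' w hw).symm
    have e2 : ∀ w ∈ Uᶜ, (({u} : Finset V).piecewise y x) w = x w := by
      intro w hw
      by_cases hwu : w = u
      · rw [Finset.piecewise_eq_of_mem _ _ _ (by simpa using hwu)]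
        exact (hxy' w hw).symm
      · rw [Finset.piecewise_eq_of_notMem _ _ _ (by simpa using hwu)]
    unfold Cross at hc ⊢
    rw [bro_mul g h U R hg hh, bro_mul g h U R hg hh, bro_mul g h U R hg hh, bro_mul g h U R hg hh,
      hH _ _ e1, hH _ _ e2, ← hH _ _ hxy']
    rcases hc with hc | hc | hc
    · refine Or.inl ?_
      calc _ = (marg (R ∩ U) g x * marg (R ∩ U) g y) *
            (marg (R ∩ Uᶜ) h x * marg (R ∩ Uᶜ) h x) := by ring
        _ = _ := by rw [hc]; ring
    · refine Or.inr (Or.inl ?_)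
      rw [hc.1, hc.2, zero_mul]
      exact ⟨rfl, rfl⟩
    · refine Or.inr (Or.inr ?_)
      rw [hc.1, hc.2, zero_mul]
      exact ⟨rfl, rfl⟩
  · exact bro_cut g h U hg hh u (hSU hu) v hvU

end Pool.Agent.WD
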