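import Pool.Agent.WD.St
import Pool.Agent.Helper91.Dich.Expander3

/-!
# Weighted dichotomy: the expanders
-/

namespace Pool.Agent.WD

open Finset
open scoped NNReal
open Pool.Agent.Dichotomy (exists_expander Exp bd mem_bd)

/-- the edges which cross the boundary of `S` -/
theorem gra_cross {V : Type} [Fintype V] [DecidableEq V] (G : SimpleGraph V) (E : Finset (V × V))
    (h : ∀ u v, G.Adj u v → (u, v) ∈ E ∨ (v, u) ∈ E) (S : Finset V) :
    (bd G S).card ≤ (E.filter fun e => (e.1 ∈ S ∧ e.2 ∉ S) ∨ (e.1 ∉ S ∧ e.2 ∈ S)).card := by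
  classical
  refine (card_le_card (t := (E.filter fun e => (e.1 ∈ S ∧ e.2 ∉ S) ∨ (e.1 ∉ S ∧ e.2 ∈ S)).image
    fun e => if e.1 ∈ S then e.2 else e.1) ?_).trans card_image_le
  intro t ht
  obtain ⟨h1, s, hs, hadj⟩ := mem_bd.1 ht
  rw [mem_image]
  rcases h s t hadj with h2 | h2
  · exact ⟨(s, t), mem_filter.2 ⟨h2, Or.inl ⟨hs, h1⟩⟩, if_pos hs⟩
  · exact ⟨(t, s), mem_filter.2 ⟨h2, Or.inr ⟨h1, hs⟩⟩, if_neg h1⟩

theorem gra_compl {V : Type} [Fintype V] [DecidableEq V] (E : Finset (V × V)) (S : Finset V) :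
    (E.filter fun e => (e.1 ∈ Sᶜ ∧ e.2 ∉ Sᶜ) ∨ (e.1 ∉ Sᶜ ∧ e.2 ∈ Sᶜ)) =
      E.filter fun e => (e.1 ∈ S ∧ e.2 ∉ S) ∨ (e.1 ∉ S ∧ e.2 ∈ S) := by
  refine filter_congr fun e _ => ?_
  simp only [mem_compl, not_not]
  tauto

theorem gra_conn {V : Type} [Fintype V] [DecidableEq V] (G : SimpleGraph V) (E : Finset (V × V))
    (h : ∀ u v, G.Adj u v → (u, v) ∈ E ∨ (v, u) ∈ E) (hE : Exp G) (S : Finset V)
    (hS : S.Nonempty) (hS' : S ≠ univ) :
    0 < (E.filter fun e => (e.1 ∈ S ∧ e.2 ∉ S) ∨ (e.1 ∉ S ∧ e.2 ∈ S)).card := by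
  classical
  have hc := card_compl S
  have hle := card_le_univ S
  have h1 : 0 < S.card := card_pos.2 hS
  have h2 : 0 < Sᶜ.card := by
    rw [card_pos]
    rw [nonempty_iff_ne_empty]
    intro h3
    exact hS' (compl_eq_empty_iff S |>.1 h3)
  rcases le_total (2 * S.card) (Fintype.card V) with h3 | h3
  · have h4 := hE S h3
    have h5 := gra_cross G E h S
    omega
  · have h4 := hE Sᶜ (by omega)
    have h5 := gra_cross G E h Sᶜ
    rw [gra_compl] at h5
    omega

theorem thm_Gra : St_Gra := by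
  classical
  refine ⟨96 * 12768, 48, fun m hm => ?_⟩
  obtain ⟨V, i1, i2, G, E, col, hEG, hGE, hcol, hEc, hdeg, hexp, hV, hV', -⟩ :=
    exists_expander rfl m hm
  have hconn : ∀ S : Finset V, S.Nonempty → S ≠ univ →
      ∃ e ∈ E, (e.1 ∈ S ∧ e.2 ∉ S) ∨ (e.1 ∉ S ∧ e.2 ∈ S) := by
    intro S hS hS'
    obtain ⟨e, he⟩ := card_pos.1 (gra_conn G E hGE hexp S hS hS')
    rw [mem_filter] at he
    exact ⟨e, he.1, he.2⟩
  have hcardV : 94 ≤ Fintype.card V := by omega
  refine ⟨V, i1, i2, E, col, ⟨hcol, ?_, hconn⟩, ?_, hV, by omega, by omega, ?_⟩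
  · intro v
    refine le_trans ?_ (hdeg v)
    have hinj : Set.InjOn (fun e : V × V => if e.1 = v then e.2 else e.1)
        ((E.filter fun e => e.1 = v ∨ e.2 = v : Finset (V × V)) : Set (V × V)) := by
      intro e he e' he' hee
      rw [mem_coe, mem_filter] at he he'
      obtain ⟨h1, h2⟩ := he
      obtain ⟨h3, h4⟩ := he'
      have c1 := hcol e h1
      have c2 := hcol e' h3
      simp only at hee
      by_cases h5 : e.1 = v
      · by_cases h6 : e'.1 = v
        · rw [if_pos h5, if_pos h6] at hee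
          exact Prod.ext (h5.trans h6.symm) hee
        · have h7 : e'.2 = v := h4.resolve_left h6
          rw [h5] at c1
          rw [h7] at c2
          rw [c1.1] at c2
          exact absurd c2.2 (by simp)
      · have h7 : e.2 = v := h2.resolve_left h5
        by_cases h6 : e'.1 = v
        · rw [h7] at c1
          rw [h6] at c2
          rw [c1.2] at c2
          exact absurd c2.1 (by simp)
        · rw [if_neg h5, if_neg h6] at hee
          exact Prod.ext hee (h7.trans (h4.resolve_left h6).symm)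
    rw [← card_image_of_injOn hinj, ← Set.ncard_coe_finset]
    refine Set.ncard_le_ncard ?_ (Set.toFinite _)
    intro t ht
    rw [mem_coe, mem_image] at ht
    obtain ⟨e, he, rfl⟩ := ht
    rw [mem_filter] at he
    have h5 := hEG e he.1
    show G.Adj v _
    by_cases h6 : e.1 = v
    · rw [if_pos h6, ← h6]
      exact h5
    · rw [if_neg h6, ← he.2.resolve_left h6]
      exact h5.symm
  · obtain ⟨v⟩ : Nonempty V := Fintype.card_pos_iff.1 (by omega)
    obtain ⟨e, he, -⟩ := hconn {v} (singleton_nonempty v) (by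
      intro h
      have h1 := congrArg card h
      rw [card_singleton, card_univ] at h1
      omega)
    exact ⟨e.1, (hcol e he).1⟩
  · intro S h1 h2
    have hc := card_compl S
    have hle := card_le_univ S
    rcases le_total (2 * S.card) (Fintype.card V) with h3 | h3
    · have h4 := hexp S h3
      have h5 := gra_cross G E hGE S
      omega
    · have h4 := hexp Sᶜ (by omega)
      have h5 := gra_cross G E hGE Sᶜ
      rw [gra_compl] at h5
      omega

end Pool.Agent.WD
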