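import Pool.Agent.WD.St

/-!
# WD / IndM: greedy choice of an induced matching
-/

namespace Pool.Agent.WD

open Finset
open scoped NNReal

section

variable {K : Type} [DecidableEq K]

/-- the other ends of the edges at `u` -/
def indm_nb (E : Finset (K × K)) (u : K) : Finset K :=
  (E.filter fun e => e.1 = u ∨ e.2 = u).image fun e => if e.1 = u then e.2 else e.1

theorem indm_nb_left {E : Finset (K × K)} {u v : K} (h : (u, v) ∈ E) : v ∈ indm_nb E u := by
  unfold indm_nb
  rw [mem_image]
  exact ⟨(u, v), mem_filter.2 ⟨h, Or.inl rfl⟩, if_pos rfl⟩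

theorem indm_nb_right {E : Finset (K × K)} {u v : K} (h : (v, u) ∈ E) : v ∈ indm_nb E u := by
  unfold indm_nb
  rw [mem_image]
  refine ⟨(v, u), mem_filter.2 ⟨h, Or.inr rfl⟩, ?_⟩
  by_cases hvu : v = u
  · rw [if_pos hvu]
    exact hvu.symm
  · rw [if_neg hvu]

/-- the closed neighbourhood of an edge -/
def indm_N (E : Finset (K × K)) (e : K × K) : Finset K :=
  {e.1, e.2} ∪ (indm_nb E e.1 ∪ indm_nb E e.2)

theorem indm_N_card {E : Finset (K × K)} {Δ : ℕ}
    (hΔ : ∀ v, (E.filter fun e => e.1 = v ∨ e.2 = v).card ≤ Δ) (e : K × K) :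
    (indm_N E e).card ≤ 2 * Δ + 2 := by
  have h1 : ∀ u, (indm_nb E u).card ≤ Δ := fun u => card_image_le.trans (hΔ u)
  have h2 : (indm_N E e).card ≤ _ := card_union_le _ _
  have h3 := card_union_le (indm_nb E e.1) (indm_nb E e.2)
  have h4 : ({e.1, e.2} : Finset K).card ≤ 2 := card_le_two
  have h5 := h1 e.1
  have h6 := h1 e.2
  omega

theorem indm_N_mem {E : Finset (K × K)} {e : K × K} {u v : K} (hu : u = e.1 ∨ u = e.2)
    (h : u = v ∨ (u, v) ∈ E ∨ (v, u) ∈ E) : v ∈ indm_N E e := by
  unfold indm_N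
  rw [mem_union, mem_union, mem_insert, mem_singleton]
  rcases h with h | h | h
  · subst h
    exact Or.inl hu
  · refine Or.inr ?_
    rcases hu with hu | hu
    · exact Or.inl (hu ▸ indm_nb_left h)
    · exact Or.inr (hu ▸ indm_nb_left h)
  · refine Or.inr ?_
    rcases hu with hu | hu
    · exact Or.inl (hu ▸ indm_nb_right h)
    · exact Or.inr (hu ▸ indm_nb_right h)

end

theorem thm_IndM : St_IndM := by
  classical
  intro K _ _ E col Δ hE X hX
  have hne : (X.powerset.filter fun J => Ind E J).Nonempty := by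
    refine ⟨∅, mem_filter.2 ⟨empty_mem_powerset _, empty_subset _, ?_⟩⟩
    intro e he
    exact absurd he (notMem_empty _)
  obtain ⟨J, hJ, hmax⟩ := Finset.exists_max_image _ (fun J => J.card) hne
  rw [mem_filter, mem_powerset] at hJ
  refine ⟨J, hJ.1, hJ.2, ?_⟩
  have hcov : X ⊆ J.biUnion fun e => (indm_N E e).biUnion fun v =>
      E.filter fun e' => e'.1 = v ∨ e'.2 = v := by
    intro e' he'
    by_contra hcon
    have hno : ∀ e ∈ J, ∀ u v, (u = e.1 ∨ u = e.2) → (v = e'.1 ∨ v = e'.2) →
        u ≠ v ∧ (u, v) ∉ E ∧ (v, u) ∉ E := by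
      intro e he u v hu hv
      by_contra hc
      refine hcon (mem_biUnion.2 ⟨e, he, mem_biUnion.2 ⟨v, ?_, ?_⟩⟩)
      · refine indm_N_mem hu ?_
        by_contra hd
        rw [not_or, not_or] at hd
        exact hc hd
      · refine mem_filter.2 ⟨hX he', ?_⟩
        rcases hv with hv | hv
        · exact Or.inl hv.symm
        · exact Or.inr hv.symm
    have hnot : e' ∉ J := fun h => (hno e' h e'.1 e'.1 (Or.inl rfl) (Or.inl rfl)).1 rfl
    have hins : insert e' J ∈ X.powerset.filter fun J => Ind E J := by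
      refine mem_filter.2 ⟨mem_powerset.2 (insert_subset he' hJ.1),
        insert_subset (hX he') hJ.2.1, ?_⟩
      intro e1 he1 e2 he2 hne' u v hu hv
      rw [mem_insert] at he1 he2
      rcases he1 with rfl | he1
      · rcases he2 with rfl | he2
        · exact absurd rfl hne'
        · obtain ⟨h1, h2, h3⟩ := hno e2 he2 v u hv hu
          exact ⟨fun h => h1 h.symm, h3, h2⟩
      · rcases he2 with rfl | he2
        · exact hno e1 he1 u v hu hv
        · exact hJ.2.2 e1 he1 e2 he2 hne' u v hu hv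
    have := hmax _ hins
    rw [card_insert_of_notMem hnot] at this
    omega
  calc X.card ≤ _ := card_le_card hcov
    _ ≤ J.card * ((2 * Δ + 2) * Δ) := by
        refine card_biUnion_le_card_mul _ _ _ fun e _ => ?_
        refine (card_biUnion_le_card_mul _ _ Δ fun v _ => hE.deg v).trans ?_
        exact Nat.mul_le_mul_right _ (indm_N_card hE.deg e)
    _ = (2 * Δ + 2) * Δ * J.card := Nat.mul_comm _ _

end Pool.Agent.WD
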