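import Pool.Agent.WD.St

/-!
# WD, module Alg: tame and rectangular functions are balanced
-/

set_option autoImplicit false

namespace Pool.Agent.WD

open Finset
open scoped NNReal

section

variable {D V : Type} [Fintype D] [DecidableEq D] [Fintype V] [DecidableEq V]

/-- the positions outside of `R` where `x` and `y` differ -/
private def alg_D (R : Finset V) (x y : V → D) : Finset V :=
  univ.filter fun w => w ∉ R ∧ x w ≠ y w

private theorem alg_mem {R : Finset V} {x y : V → D} {w : V} :
    w ∈ alg_D R x y ↔ w ∉ R ∧ x w ≠ y w := by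
  rw [alg_D, mem_filter]
  exact ⟨fun h => h.2, fun h => ⟨mem_univ _, h⟩⟩

/-- marginals do not depend on the variables which are summed out -/
theorem alg_marg_congr (R : Finset V) (g : (V → D) → ℝ≥0) {x y : V → D}
    (h : ∀ w, w ∉ R → x w = y w) : marg R g x = marg R g y := by
  unfold marg
  refine Finset.sum_congr ?_ fun _ _ => rfl
  ext z
  rw [mem_filter, mem_filter]
  constructor
  · rintro ⟨h1, h2⟩
    exact ⟨h1, fun w hw => (h2 w hw).trans (h w hw)⟩
  · rintro ⟨h1, h2⟩
    exact ⟨h1, fun w hw => (h2 w hw).trans (h w hw).symm⟩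

theorem alg_marg_union (R T : Finset V) (hTR : ∀ w ∈ T, w ∉ R) (g : (V → D) → ℝ≥0)
    (x : V → D) : marg (R ∪ T) g x =
      ∑ z ∈ univ.filter (fun z : V → D => ∀ w, w ∉ T → z w = x w), marg R g z := by
  have hmap : ∀ y ∈ univ.filter (fun y : V → D => ∀ v, v ∉ R ∪ T → y v = x v),
      T.piecewise y x ∈ univ.filter (fun z : V → D => ∀ w, w ∉ T → z w = x w) := by
    intro y _
    rw [mem_filter]
    exact ⟨mem_univ _, fun w hw => piecewise_eq_of_notMem _ _ _ hw⟩
  unfold marg
  rw [← Finset.sum_fiberwise_of_maps_to hmap]
  refine Finset.sum_congr rfl fun z hz => ?_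
  rw [mem_filter] at hz
  refine Finset.sum_congr ?_ fun _ _ => rfl
  ext y
  rw [mem_filter, mem_filter, mem_filter]
  constructor
  · rintro ⟨⟨h1, h2⟩, h3⟩
    refine ⟨h1, fun w hw => ?_⟩
    by_cases hwT : w ∈ T
    · have h4 := congrFun h3 w
      rw [piecewise_eq_of_mem _ _ _ hwT] at h4
      exact h4
    · rw [hz.2 w hwT]
      refine h2 w ?_
      rw [mem_union]
      rintro (h5 | h5)
      · exact hw h5
      · exact hwT h5
  · rintro ⟨h1, h2⟩
    refine ⟨⟨h1, fun w hw => ?_⟩, ?_⟩
    · rw [mem_union, not_or] at hw
      rw [h2 w hw.1, hz.2 w hw.2]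
    · funext w
      by_cases hwT : w ∈ T
      · rw [piecewise_eq_of_mem _ _ _ hwT]
        exact h2 w (hTR w hwT)
      · rw [piecewise_eq_of_notMem _ _ _ hwT]
        exact (hz.2 w hwT).symm

theorem alg_le_union (R T : Finset V) (hTR : ∀ w ∈ T, w ∉ R) (g : (V → D) → ℝ≥0)
    (x : V → D) (h : marg R g x ≠ 0) : marg (R ∪ T) g x ≠ 0 := by
  rw [alg_marg_union R T hTR]
  intro h0
  rw [Finset.sum_eq_zero_iff] at h0
  exact h (h0 x (by rw [mem_filter]; exact ⟨mem_univ _, fun _ _ => rfl⟩))

/-- `Four` if both entries of the first row are not zero -/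
theorem alg_four {p q r s : ℝ≥0} (h : Four p q r s) (hp : p ≠ 0) (hq : q ≠ 0) : p * s = q * r := by
  rcases h with h | h | h
  · exact h
  · exact absurd h.1 hp
  · exact absurd h.1 hq

private theorem alg_half (g : (V → D) → ℝ≥0) (R A T : Finset V) (x y : V → D) (hTA : T ⊆ A)
    (hTR : ∀ w ∈ T, w ∉ R)
    (IH : ∀ z : V → D, (∀ w, w ∉ T → z w = x w) → Cross (marg R g) A x (A.piecewise z y))
    (hx : marg R g x ≠ 0) (hq : marg R g (A.piecewise x y) ≠ 0) :
    marg R g x * marg (R ∪ T) g (A.piecewise x y) =
      marg R g (A.piecewise x y) * marg (R ∪ T) g x := by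
  rw [alg_marg_union R T hTR g x, alg_marg_union R T hTR g (A.piecewise x y)]
  have h1 : ∑ z ∈ univ.filter (fun z : V → D => ∀ w, w ∉ T → z w = (A.piecewise x y) w),
      marg R g z = ∑ z ∈ univ.filter (fun z : V → D => ∀ w, w ∉ T → z w = x w),
        marg R g (A.piecewise z y) := by
    refine Finset.sum_nbij' (fun z => A.piecewise z x) (fun z => A.piecewise z y) ?_ ?_ ?_ ?_ ?_
    · intro z hz
      rw [mem_filter] at hz ⊢
      refine ⟨mem_univ _, fun w hw => ?_⟩
      by_cases hwA : w ∈ A
      · rw [piecewise_eq_of_mem _ _ _ hwA, hz.2 w hw, piecewise_eq_of_mem _ _ _ hwA]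
      · rw [piecewise_eq_of_notMem _ _ _ hwA]
    · intro z hz
      rw [mem_filter] at hz ⊢
      refine ⟨mem_univ _, fun w hw => ?_⟩
      by_cases hwA : w ∈ A
      · rw [piecewise_eq_of_mem _ _ _ hwA, piecewise_eq_of_mem _ _ _ hwA, hz.2 w hw]
      · rw [piecewise_eq_of_notMem _ _ _ hwA, piecewise_eq_of_notMem _ _ _ hwA]
    · intro z hz
      rw [mem_filter] at hz
      funext w
      by_cases hwA : w ∈ A
      · rw [piecewise_eq_of_mem _ _ _ hwA, piecewise_eq_of_mem _ _ _ hwA]
      · rw [piecewise_eq_of_notMem _ _ _ hwA, hz.2 w (fun h => hwA (hTA h)),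
          piecewise_eq_of_notMem _ _ _ hwA]
    · intro z hz
      rw [mem_filter] at hz
      funext w
      by_cases hwA : w ∈ A
      · rw [piecewise_eq_of_mem _ _ _ hwA, piecewise_eq_of_mem _ _ _ hwA]
      · rw [piecewise_eq_of_notMem _ _ _ hwA, hz.2 w (fun h => hwA (hTA h))]
    · intro z hz
      rw [mem_filter] at hz
      congr 1
      funext w
      by_cases hwA : w ∈ A
      · rw [piecewise_eq_of_mem _ _ _ hwA, piecewise_eq_of_mem _ _ _ hwA]
      · rw [piecewise_eq_of_notMem _ _ _ hwA, hz.2 w (fun h => hwA (hTA h)),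
          piecewise_eq_of_notMem _ _ _ hwA]
  rw [h1, Finset.mul_sum, Finset.mul_sum]
  refine Finset.sum_congr rfl fun z hz => ?_
  rw [mem_filter] at hz
  have h2 := IH z hz.2
  unfold Cross at h2
  have e1 : A.piecewise x (A.piecewise z y) = A.piecewise x y := by
    funext w
    by_cases hwA : w ∈ A
    · rw [piecewise_eq_of_mem _ _ _ hwA, piecewise_eq_of_mem _ _ _ hwA]
    · rw [piecewise_eq_of_notMem _ _ _ hwA, piecewise_eq_of_notMem _ _ _ hwA,
        piecewise_eq_of_notMem _ _ _ hwA]
  have e2 : A.piecewise (A.piecewise z y) x = z := by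
    funext w
    by_cases hwA : w ∈ A
    · rw [piecewise_eq_of_mem _ _ _ hwA, piecewise_eq_of_mem _ _ _ hwA]
    · rw [piecewise_eq_of_notMem _ _ _ hwA, hz.2 w (fun h => hwA (hTA h))]
  rw [e1, e2] at h2
  exact alg_four h2 hx hq

private theorem alg_step (g : (V → D) → ℝ≥0) (R A T : Finset V) (x y : V → D) (hTA : T ⊆ A)
    (hTR : ∀ w ∈ T, w ∉ R)
    (IH : ∀ (R' A' : Finset V) (x' y' : V → D), (alg_D R' x' y').card < (alg_D R x y).card →
      Cross (marg R' g) A' x' y')
    (hT : T.Nonempty) (hTD : ∀ w ∈ T, x w ≠ y w) (u : V) (hu : u ∈ alg_D R x y) (hu' : u ∉ T)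
    (huA : u ∈ A) (hp : marg R g x ≠ 0) (hq : marg R g (A.piecewise x y) ≠ 0)
    (hr : marg R g (A.piecewise y x) ≠ 0) (hs : marg R g y ≠ 0) :
    marg R g x * marg R g y = marg R g (A.piecewise x y) * marg R g (A.piecewise y x) := by
  have hTD' : ∀ w ∈ T, w ∈ alg_D R x y := fun w hw => alg_mem.mpr ⟨hTR w hw, hTD w hw⟩
  have a1 : marg R g x * marg (R ∪ T) g (A.piecewise x y) =
      marg R g (A.piecewise x y) * marg (R ∪ T) g x := by
    refine alg_half g R A T x y hTA hTR (fun z hz => IH _ _ _ _ ?_) hp hq
    refine (Finset.card_le_card (t := (alg_D R x y).erase u) ?_).trans_lt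
      (Finset.card_erase_lt_of_mem hu)
    intro w hw
    rw [alg_mem] at hw
    rw [mem_erase]
    by_cases hwA : w ∈ A
    · rw [piecewise_eq_of_mem _ _ _ hwA] at hw
      have hwT : w ∈ T := by
        by_contra h
        exact hw.2 (hz w h).symm
      exact ⟨fun h => hu' (h ▸ hwT), hTD' w hwT⟩
    · rw [piecewise_eq_of_notMem _ _ _ hwA] at hw
      exact ⟨fun h => hwA (h ▸ huA), alg_mem.mpr hw⟩
  have a2 : marg R g y * marg (R ∪ T) g (A.piecewise y x) =
      marg R g (A.piecewise y x) * marg (R ∪ T) g y := by
    refine alg_half g R A T y x hTA hTR (fun z hz => IH _ _ _ _ ?_) hs hr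
    refine (Finset.card_le_card (t := (alg_D R x y).erase u) ?_).trans_lt
      (Finset.card_erase_lt_of_mem hu)
    intro w hw
    rw [alg_mem] at hw
    rw [mem_erase]
    by_cases hwA : w ∈ A
    · rw [piecewise_eq_of_mem _ _ _ hwA] at hw
      have hwT : w ∈ T := by
        by_contra h
        exact hw.2 (hz w h).symm
      exact ⟨fun h => hu' (h ▸ hwT), hTD' w hwT⟩
    · rw [piecewise_eq_of_notMem _ _ _ hwA] at hw
      exact ⟨fun h => hwA (h ▸ huA), alg_mem.mpr ⟨hw.1, hw.2.symm⟩⟩
  have a3 : marg (R ∪ T) g x * marg (R ∪ T) g y =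
      marg (R ∪ T) g (A.piecewise x y) * marg (R ∪ T) g (A.piecewise y x) := by
    have h1 : Cross (marg (R ∪ T) g) A x y := by
      refine IH _ _ _ _ ?_
      obtain ⟨t, ht⟩ := hT
      refine (Finset.card_le_card (t := (alg_D R x y).erase t) ?_).trans_lt
        (Finset.card_erase_lt_of_mem (hTD' t ht))
      intro w hw
      rw [alg_mem, mem_union, not_or] at hw
      rw [mem_erase]
      exact ⟨fun h => hw.1.2 (h ▸ ht), alg_mem.mpr ⟨hw.1.1, hw.2⟩⟩
    exact alg_four h1 (alg_le_union R T hTR g _ hp) (alg_le_union R T hTR g _ hq)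
  have n1 := alg_le_union R T hTR g _ hq
  have n2 := alg_le_union R T hTR g _ hr
  have a4 : (marg R g x * marg R g y) *
      (marg (R ∪ T) g (A.piecewise x y) * marg (R ∪ T) g (A.piecewise y x)) =
      (marg R g (A.piecewise x y) * marg R g (A.piecewise y x)) *
      (marg (R ∪ T) g (A.piecewise x y) * marg (R ∪ T) g (A.piecewise y x)) := by
    calc (marg R g x * marg R g y) *
        (marg (R ∪ T) g (A.piecewise x y) * marg (R ∪ T) g (A.piecewise y x))
        = (marg R g x * marg (R ∪ T) g (A.piecewise x y)) *
          (marg R g y * marg (R ∪ T) g (A.piecewise y x)) := by ring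
      _ = (marg R g (A.piecewise x y) * marg (R ∪ T) g x) *
          (marg R g (A.piecewise y x) * marg (R ∪ T) g y) := by rw [a1, a2]
      _ = (marg R g (A.piecewise x y) * marg R g (A.piecewise y x)) *
          (marg (R ∪ T) g x * marg (R ∪ T) g y) := by ring
      _ = _ := by rw [a3]
  exact mul_right_cancel₀ (mul_ne_zero n1 n2) a4

private theorem alg_compl (A : Finset V) (x y : V → D) :
    Aᶜ.piecewise x y = A.piecewise y x := by
  funext w
  by_cases hwA : w ∈ A
  · rw [piecewise_eq_of_mem _ _ _ hwA, piecewise_eq_of_notMem _ _ _ (by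
      rw [mem_compl]
      exact fun h => h hwA)]
  · rw [piecewise_eq_of_notMem _ _ _ hwA, piecewise_eq_of_mem _ _ _ (mem_compl.mpr hwA)]

private theorem alg_pp (A : Finset V) (x y : V → D) :
    A.piecewise (A.piecewise x y) (A.piecewise y x) = x := by
  funext w
  by_cases hwA : w ∈ A
  · rw [piecewise_eq_of_mem _ _ _ hwA, piecewise_eq_of_mem _ _ _ hwA]
  · rw [piecewise_eq_of_notMem _ _ _ hwA, piecewise_eq_of_notMem _ _ _ hwA]

/-- if one of the four values is zero there is nothing to prove -/
private theorem alg_zero (g : (V → D) → ℝ≥0) (hR : Rect g) (R A : Finset V) (x y : V → D)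
    (h : ¬ (marg R g x ≠ 0 ∧ marg R g (A.piecewise x y) ≠ 0 ∧
      marg R g (A.piecewise y x) ≠ 0 ∧ marg R g y ≠ 0)) : Cross (marg R g) A x y := by
  unfold Cross
  by_cases hp : marg R g x = 0
  · by_cases hs : marg R g y = 0
    · exact Or.inr (Or.inl ⟨hp, hs⟩)
    · by_cases hq : marg R g (A.piecewise x y) = 0
      · left
        rw [hp, hq, zero_mul, zero_mul]
      · by_cases hr : marg R g (A.piecewise y x) = 0
        · left
          rw [hp, hr, zero_mul, mul_zero]
        · exfalso
          refine hR R A y x hs ?_ ?_ hp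
          · exact hr
          · exact hq
  · by_cases hq : marg R g (A.piecewise x y) = 0
    · by_cases hr : marg R g (A.piecewise y x) = 0
      · exact Or.inr (Or.inr ⟨hq, hr⟩)
      · by_cases hs : marg R g y = 0
        · left
          rw [hs, hq, mul_zero, zero_mul]
        · exfalso
          refine hR R A (A.piecewise y x) (A.piecewise x y) hr ?_ ?_ hq
          · rw [alg_pp]
            exact hs
          · rw [alg_pp]
            exact hp
    · by_cases hr : marg R g (A.piecewise y x) = 0
      · by_cases hs : marg R g y = 0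
        · left
          rw [hs, hr, mul_zero, mul_zero]
        · exfalso
          refine hR R A (A.piecewise x y) (A.piecewise y x) hq ?_ ?_ hr
          · rw [alg_pp]
            exact hp
          · rw [alg_pp]
            exact hs
      · by_cases hs : marg R g y = 0
        · exact absurd hs (hR R A x y hp hq hr)
        · exact absurd ⟨hp, hq, hr, hs⟩ h

/-- [Alg] tame and rectangular implies balanced -/
theorem thm_Alg : St_Alg := by
  intro D V _ _ _ _ g hT hR
  suffices H : ∀ (n : ℕ) (R A : Finset V) (x y : V → D), (alg_D R x y).card = n →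
      Cross (marg R g) A x y from fun R A x y => H _ R A x y rfl
  intro n
  induction n using Nat.strong_induction_on with
  | _ n ih =>
    intro R A x y hn
    have IH : ∀ (R' A' : Finset V) (x' y' : V → D),
        (alg_D R' x' y').card < (alg_D R x y).card → Cross (marg R' g) A' x' y' :=
      fun R' A' x' y' h => ih _ (hn ▸ h) R' A' x' y' rfl
    by_cases hz : marg R g x ≠ 0 ∧ marg R g (A.piecewise x y) ≠ 0 ∧
      marg R g (A.piecewise y x) ≠ 0 ∧ marg R g y ≠ 0
    · obtain ⟨hp, hq, hr, hs⟩ := hz
      by_cases hA : ∃ u, u ∈ alg_D R x y ∧ u ∈ A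
      · by_cases hB : ∃ v, v ∈ alg_D R x y ∧ v ∉ A
        · obtain ⟨u, hu, huA⟩ := hA
          obtain ⟨v, hv, hvA⟩ := hB
          by_cases hA2 : ((alg_D R x y ∩ A).erase u).Nonempty
          · left
            refine alg_step g R A ((alg_D R x y ∩ A).erase u) x y ?_ ?_ IH hA2 ?_ u hu ?_ huA
              hp hq hr hs
            · exact fun w hw => (mem_inter.mp (mem_of_mem_erase hw)).2
            · exact fun w hw => (alg_mem.mp (mem_inter.mp (mem_of_mem_erase hw)).1).1
            · exact fun w hw => (alg_mem.mp (mem_inter.mp (mem_of_mem_erase hw)).1).2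
            · exact fun h => (mem_erase.mp h).1 rfl
          · by_cases hB2 : ((alg_D R x y ∩ Aᶜ).erase v).Nonempty
            · left
              have h1 := alg_step g R Aᶜ ((alg_D R x y ∩ Aᶜ).erase v) x y ?_ ?_ IH hB2 ?_ v hv ?_
                (mem_compl.mpr hvA) hp (by rw [alg_compl]; exact hr) (by rw [alg_compl]; exact hq)
                hs
              · rw [alg_compl, alg_compl] at h1
                rw [h1, mul_comm]
              · exact fun w hw => (mem_inter.mp (mem_of_mem_erase hw)).2
              · exact fun w hw => (alg_mem.mp (mem_inter.mp (mem_of_mem_erase hw)).1).1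
              · exact fun w hw => (alg_mem.mp (mem_inter.mp (mem_of_mem_erase hw)).1).2
              · exact fun h => (mem_erase.mp h).1 rfl
            · -- exactly one difference on both sides
              have hDA : ∀ w, w ∉ R → w ∈ A → w ≠ u → x w = y w := by
                intro w hwR hwA hwu
                by_contra h
                exact hA2 ⟨w, mem_erase.mpr ⟨hwu, mem_inter.mpr ⟨alg_mem.mpr ⟨hwR, h⟩, hwA⟩⟩⟩
              have hDB : ∀ w, w ∉ R → w ∉ A → w ≠ v → x w = y w := by
                intro w hwR hwA hwv
                by_contra h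
                exact hB2 ⟨w, mem_erase.mpr ⟨hwv, mem_inter.mpr ⟨alg_mem.mpr ⟨hwR, h⟩,
                  mem_compl.mpr hwA⟩⟩⟩
              have huv : u ≠ v := fun h => hvA (h ▸ huA)
              set y' : V → D := ({u, v} : Finset V).piecewise y x with hy'
              have hyo : ∀ w, w ≠ u → w ≠ v → y' w = x w := by
                intro w h1 h2
                refine piecewise_eq_of_notMem _ _ _ ?_
                rw [mem_insert, mem_singleton, not_or]
                exact ⟨h1, h2⟩
              have hyu : y' u = y u := piecewise_eq_of_mem _ _ _ (mem_insert_self _ _)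
              have hyv : y' v = y v :=
                piecewise_eq_of_mem _ _ _ (mem_insert_of_mem (mem_singleton_self _))
              have hyR : ∀ w, w ∉ R → y' w = y w := by
                intro w hwR
                by_cases h1 : w = u
                · rw [h1, hyu]
                · by_cases h2 : w = v
                  · rw [h2, hyv]
                  · rw [hyo w h1 h2]
                    by_cases hwA : w ∈ A
                    · exact hDA w hwR hwA h1
                    · exact hDB w hwR hwA h2
              have h1 := hT R u v x y' (fun w h1 h2 => (hyo w h1 h2).symm)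
              unfold Cross at h1 ⊢
              have e1 : marg R g y' = marg R g y := alg_marg_congr R g hyR
              have e2 : marg R g (({u} : Finset V).piecewise x y') =
                  marg R g (A.piecewise x y) := by
                refine alg_marg_congr R g (fun w hwR => ?_)
                by_cases h2 : w = u
                · rw [h2, piecewise_eq_of_mem _ _ _ (mem_singleton_self _),
                    piecewise_eq_of_mem _ _ _ huA]
                · rw [piecewise_eq_of_notMem _ _ _ (by rw [mem_singleton]; exact h2), hyR w hwR]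
                  by_cases hwA : w ∈ A
                  · rw [piecewise_eq_of_mem _ _ _ hwA]
                    exact (hDA w hwR hwA h2).symm
                  · rw [piecewise_eq_of_notMem _ _ _ hwA]
              have e3 : marg R g (({u} : Finset V).piecewise y' x) =
                  marg R g (A.piecewise y x) := by
                refine alg_marg_congr R g (fun w hwR => ?_)
                by_cases h2 : w = u
                · rw [h2, piecewise_eq_of_mem _ _ _ (mem_singleton_self _),
                    piecewise_eq_of_mem _ _ _ huA, hyu]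
                · rw [piecewise_eq_of_notMem _ _ _ (by rw [mem_singleton]; exact h2)]
                  by_cases hwA : w ∈ A
                  · rw [piecewise_eq_of_mem _ _ _ hwA]
                    exact hDA w hwR hwA h2
                  · rw [piecewise_eq_of_notMem _ _ _ hwA]
              rw [e1, e2, e3] at h1
              exact h1
        · -- no difference outside of A
          have h1 : ∀ w, w ∉ R → w ∉ A → x w = y w := by
            intro w hwR hwA
            by_contra h
            exact hB ⟨w, alg_mem.mpr ⟨hwR, h⟩, hwA⟩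
          have e1 : marg R g (A.piecewise x y) = marg R g x := by
            refine alg_marg_congr R g (fun w hwR => ?_)
            by_cases hwA : w ∈ A
            · rw [piecewise_eq_of_mem _ _ _ hwA]
            · rw [piecewise_eq_of_notMem _ _ _ hwA]
              exact (h1 w hwR hwA).symm
          have e2 : marg R g (A.piecewise y x) = marg R g y := by
            refine alg_marg_congr R g (fun w hwR => ?_)
            by_cases hwA : w ∈ A
            · rw [piecewise_eq_of_mem _ _ _ hwA]
            · rw [piecewise_eq_of_notMem _ _ _ hwA]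
              exact h1 w hwR hwA
          left
          rw [e1, e2]
      · -- no difference in A
        have h1 : ∀ w, w ∉ R → w ∈ A → x w = y w := by
          intro w hwR hwA
          by_contra h
          exact hA ⟨w, alg_mem.mpr ⟨hwR, h⟩, hwA⟩
        have e1 : marg R g (A.piecewise x y) = marg R g y := by
          refine alg_marg_congr R g (fun w hwR => ?_)
          by_cases hwA : w ∈ A
          · rw [piecewise_eq_of_mem _ _ _ hwA]
            exact h1 w hwR hwA
          · rw [piecewise_eq_of_notMem _ _ _ hwA]
        have e2 : marg R g (A.piecewise y x) = marg R g x := by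
          refine alg_marg_congr R g (fun w hwR => ?_)
          by_cases hwA : w ∈ A
          · rw [piecewise_eq_of_mem _ _ _ hwA]
            exact (h1 w hwR hwA).symm
          · rw [piecewise_eq_of_notMem _ _ _ hwA]
        left
        rw [e1, e2, mul_comm]
    · exact alg_zero g hR R A x y hz

end

end Pool.Agent.WD
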