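import Pool.Agent.WD.St

/-!
# Basic lemmas on marginals and the pair condition
-/

namespace Pool.Agent.WD

open Finset
open scoped NNReal

variable {D V : Type} [Fintype D] [DecidableEq D] [Fintype V] [DecidableEq V]

theorem marg_sum {ι : Type} [Fintype ι] (R : Finset V) (T : ι → (V → D) → ℝ≥0) (x : V → D) :
    marg R (fun y => ∑ t, T t y) x = ∑ t, marg R (T t) x := by
  unfold marg
  rw [Finset.sum_comm]

theorem marg_smul (R : Finset V) (c : ℝ≥0) (g : (V → D) → ℝ≥0) (x : V → D) :
    marg R (fun y => c * g y) x = c * marg R g x := by
  unfold marg
  rw [Finset.mul_sum]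

theorem marg_mono {R : Finset V} {g h : (V → D) → ℝ≥0} (H : ∀ x, g x ≤ h x) (x : V → D) :
    marg R g x ≤ marg R h x :=
  Finset.sum_le_sum fun y _ => H y

theorem marg_congr {R : Finset V} {g : (V → D) → ℝ≥0} {x y : V → D}
    (h : ∀ v, v ∉ R → x v = y v) : marg R g x = marg R g y := by
  unfold marg
  apply Finset.sum_congr _ (fun _ _ => rfl)
  ext z
  simp only [mem_filter, mem_univ, true_and]
  constructor
  · intro hz v hv; rw [hz v hv, h v hv]
  · intro hz v hv; rw [hz v hv, h v hv]

theorem four_smul {p q r s : ℝ≥0} (c : ℝ≥0) (h : Four p q r s) :
    Four (c * p) (c * q) (c * r) (c * s) := by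
  rcases h with h | ⟨h1, h2⟩ | ⟨h1, h2⟩
  · left
    calc c * p * (c * s) = c * c * (p * s) := by ring
      _ = c * c * (q * r) := by rw [h]
      _ = _ := by ring
  · right; left; rw [h1, h2]; simp
  · right; right; rw [h1, h2]; simp

theorem four_symm {p q r s : ℝ≥0} (h : Four p q r s) : Four p r q s := by
  rcases h with h | ⟨h1, h2⟩ | ⟨h1, h2⟩
  · left; rw [h, mul_comm]
  · right; left; exact ⟨h1, h2⟩
  · right; right; exact ⟨h2, h1⟩

theorem pairB_symm {T : (V → D) → ℝ≥0} {u v : V} (huv : u ≠ v) (h : PairB T u v) :
    PairB T v u := by
  intro R x y hxy
  have h1 := h R x y (fun w hw hw' => hxy w hw' hw)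
  unfold Cross at h1 ⊢
  have e1 : ({u} : Finset V).piecewise x y = ({v} : Finset V).piecewise y x := by
    funext w
    by_cases hu : w = u
    · subst hu
      rw [Finset.piecewise_eq_of_mem _ _ _ (mem_singleton_self _),
        Finset.piecewise_eq_of_notMem _ _ _ (by simpa using huv)]
    · rw [Finset.piecewise_eq_of_notMem _ _ _ (by simpa using hu)]
      by_cases hv : w = v
      · subst hv
        rw [Finset.piecewise_eq_of_mem _ _ _ (mem_singleton_self _)]
      · rw [Finset.piecewise_eq_of_notMem _ _ _ (by simpa using hv)]
        exact (hxy w hv hu).symm
  have e2 : ({u} : Finset V).piecewise y x = ({v} : Finset V).piecewise x y := by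
    funext w
    by_cases hu : w = u
    · subst hu
      rw [Finset.piecewise_eq_of_mem _ _ _ (mem_singleton_self _),
        Finset.piecewise_eq_of_notMem _ _ _ (by simpa using huv)]
    · rw [Finset.piecewise_eq_of_notMem _ _ _ (by simpa using hu)]
      by_cases hv : w = v
      · subst hv
        rw [Finset.piecewise_eq_of_mem _ _ _ (mem_singleton_self _)]
      · rw [Finset.piecewise_eq_of_notMem _ _ _ (by simpa using hv)]
        exact hxy w hv hu
  rw [e1, e2] at h1
  exact four_symm h1

theorem pairB_smul {T : (V → D) → ℝ≥0} {u v : V} (c : ℝ≥0) (h : PairB T u v) :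
    PairB (fun x => c * T x) u v := by
  intro R x y hxy
  have h1 := h R x y hxy
  unfold Cross at h1 ⊢
  simp only [marg_smul]
  exact four_smul c h1

/-- a function which is not tame has an essential pair of different variables -/
theorem not_tame {g : (V → D) → ℝ≥0} (h : ¬ Tame g) :
    ∃ (R : Finset V) (u v : V) (x : V → D) (a a' b b' : D), u ≠ v ∧ u ∉ R ∧ v ∉ R ∧
      ¬ Four (marg R g (Function.update (Function.update x u a) v b))
        (marg R g (Function.update (Function.update x u a) v b'))
        (marg R g (Function.update (Function.update x u a') v b))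
        (marg R g (Function.update (Function.update x u a') v b')) := by
  unfold Tame at h
  push Not at h
  obtain ⟨R, u, v, x, y, hxy, hC⟩ := h
  have huv : u ≠ v := by
    rintro rfl
    apply hC
    have e1 : ({u} : Finset V).piecewise x y = x := by
      funext w
      by_cases hu : w = u
      · subst hu; rw [Finset.piecewise_eq_of_mem _ _ _ (mem_singleton_self _)]
      · rw [Finset.piecewise_eq_of_notMem _ _ _ (by simpa using hu)]
        exact (hxy w hu hu).symm
    have e2 : ({u} : Finset V).piecewise y x = y := by
      funext w
      by_cases hu : w = u
      · subst hu; rw [Finset.piecewise_eq_of_mem _ _ _ (mem_singleton_self _)]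
      · rw [Finset.piecewise_eq_of_notMem _ _ _ (by simpa using hu)]
        exact hxy w hu hu
    unfold Cross
    rw [e1, e2]
    left; rfl
  have e1 : ({u} : Finset V).piecewise x y = Function.update (Function.update x u (x u)) v (y v) := by
    funext w
    by_cases hv : w = v
    · subst hv
      rw [Function.update_self, Finset.piecewise_eq_of_notMem _ _ _ (by simpa using huv.symm)]
    · rw [Function.update_of_ne hv]
      by_cases hu : w = u
      · subst hu
        rw [Finset.piecewise_eq_of_mem _ _ _ (mem_singleton_self _), Function.update_self]
      · rw [Finset.piecewise_eq_of_notMem _ _ _ (by simpa using hu), Function.update_of_ne hu]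
        exact (hxy w hu hv).symm
  have e2 : ({u} : Finset V).piecewise y x = Function.update (Function.update x u (y u)) v (x v) := by
    funext w
    by_cases hv : w = v
    · subst hv
      rw [Function.update_self, Finset.piecewise_eq_of_notMem _ _ _ (by simpa using huv.symm)]
    · rw [Function.update_of_ne hv]
      by_cases hu : w = u
      · subst hu
        rw [Finset.piecewise_eq_of_mem _ _ _ (mem_singleton_self _), Function.update_self]
      · rw [Finset.piecewise_eq_of_notMem _ _ _ (by simpa using hu), Function.update_of_ne hu]
  have e0 : x = Function.update (Function.update x u (x u)) v (x v) := by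
    simp
  have e3 : y = Function.update (Function.update x u (y u)) v (y v) := by
    funext w
    by_cases hv : w = v
    · subst hv; rw [Function.update_self]
    · rw [Function.update_of_ne hv]
      by_cases hu : w = u
      · subst hu; rw [Function.update_self]
      · rw [Function.update_of_ne hu]; exact (hxy w hu hv).symm
  have hC' : ¬ Four (marg R g (Function.update (Function.update x u (x u)) v (x v)))
        (marg R g (Function.update (Function.update x u (x u)) v (y v)))
        (marg R g (Function.update (Function.update x u (y u)) v (x v)))
        (marg R g (Function.update (Function.update x u (y u)) v (y v))) := by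
    intro hF
    apply hC
    unfold Cross
    rw [e1, e2]
    rw [← e0, ← e3] at hF
    exact hF
  refine ⟨R, u, v, x, x u, y u, x v, y v, huv, ?_, ?_, hC'⟩
  · intro huR
    apply hC'
    have f : ∀ b, marg R g (Function.update (Function.update x u (x u)) v b) =
        marg R g (Function.update (Function.update x u (y u)) v b) := by
      intro b
      apply marg_congr
      intro w hw
      have hwu : w ≠ u := by rintro rfl; exact hw huR
      by_cases hv : w = v
      · subst hv; simp
      · rw [Function.update_of_ne hv, Function.update_of_ne hv, Function.update_of_ne hwu,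
          Function.update_of_ne hwu]
    rw [f, f]
    left; ring
  · intro hvR
    apply hC'
    have f : ∀ a, marg R g (Function.update (Function.update x u a) v (x v)) =
        marg R g (Function.update (Function.update x u a) v (y v)) := by
      intro a
      apply marg_congr
      intro w hw
      have hwv : w ≠ v := by rintro rfl; exact hw hvR
      rw [Function.update_of_ne hwv, Function.update_of_ne hwv]
    rw [f, f]
    left; ring

end Pool.Agent.WD
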