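import Mathlib

/-!
# Weighted constraint satisfaction: instances, weights, marginals, balanced and tame functions
-/

namespace Pool.Agent.WD

open Finset
open scoped NNReal

/-- A constraint function with values in the non-negative reals, of any arity. -/
abbrev WFun (D : Type) := Σ r : ℕ, ((Fin r → D) → ℝ≥0)

/-- A constraint on the variables `V`: a constraint function applied to a tuple of variables. -/
structure Con (D V : Type) where
  /-- the constraint function -/
  f : WFun D
  /-- the tuple of variables -/
  sc : Fin f.1 → V

/-- All constraint functions of the instance `I` are in `F`. -/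
def Over {D V : Type} (F : Set (WFun D)) (I : List (Con D V)) : Prop := ∀ c ∈ I, c.f ∈ F

/-- The weight of an assignment: the product of the values of all constraints of the instance. -/
def wt {D V : Type} (I : List (Con D V)) (x : V → D) : ℝ≥0 :=
  (I.map fun c => c.f.2 fun i => x (c.sc i)).prod

variable {D V : Type} [Fintype D] [DecidableEq D] [Fintype V] [DecidableEq V]

/-- The marginal of `g` in which the variables in `R` are summed out. -/
def marg (R : Finset V) (g : (V → D) → ℝ≥0) (x : V → D) : ℝ≥0 :=
  ∑ y ∈ univ.filter (fun y : V → D => ∀ v, v ∉ R → y v = x v), g y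

/-- The matrix with rows `p q` and `r s` is block-rank-one: its determinant is `0`, or it is
diagonal, or it is antidiagonal. (A matrix is block-rank-one if and only if any two of its rows are
orthogonal or proportional, if and only if all its `2 × 2` submatrices are block-rank-one.) -/
def Four (p q r s : ℝ≥0) : Prop := p * s = q * r ∨ (p = 0 ∧ s = 0) ∨ (q = 0 ∧ r = 0)

/-- The `2 × 2` matrix with rows `x|A, y|A` and columns `x|Aᶜ, y|Aᶜ` of values of `g` is
block-rank-one. -/
def Cross (g : (V → D) → ℝ≥0) (A : Finset V) (x y : V → D) : Prop :=
  Four (g x) (g (A.piecewise x y)) (g (A.piecewise y x)) (g y)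

/-- `g` is balanced (Dyer-Richerby, Cai-Chen-Lu): for all disjoint sets `A`, `B` of variables the
matrix `M(a, b)`, the sum of `g` over all assignments with `a` on `A` and `b` on `B`, is
block-rank-one. -/
def Balanced (g : (V → D) → ℝ≥0) : Prop :=
  ∀ (R A : Finset V) (x y : V → D), Cross (marg R g) A x y

/-- `g` is tame: for any two variables `u`, `v`, any set of values of any of the other variables,
summing over the remaining variables, the `D × D` matrix of `g` is block-rank-one. -/
def Tame (g : (V → D) → ℝ≥0) : Prop :=
  ∀ (R : Finset V) (u v : V) (x y : V → D), (∀ w, w ≠ u → w ≠ v → x w = y w) →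
    Cross (marg R g) {u} x y

end Pool.Agent.WD
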