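import Pool.Agent.WD.Bas

/-!
# The size bound for one network
-/

namespace Pool.Agent.WD

open Finset
open scoped NNReal

variable {D V K : Type} [Fintype D] [DecidableEq D] [Fintype V] [DecidableEq V]
  [Fintype K] [DecidableEq K]

/-- the pair condition passes to the core -/
theorem core_pair (hLift : St_Lift) (κ : K ↪ V) (base : V → D) (R : Finset V)
    (hR : ∀ k, κ k ∉ R) {T : (V → D) → ℝ≥0} {u v : K} (h : PairB T (κ u) (κ v)) :
    PairB (fun z => marg R T (Function.extend κ z base)) u v := by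
  intro R' x y hxy
  unfold Cross
  rw [hLift D V K κ base R hR T R' x, hLift D V K κ base R hR T R' _,
    hLift D V K κ base R hR T R' _, hLift D V K κ base R hR T R' y]
  have key : ∀ x y : K → D, Function.extend κ (({u} : Finset K).piecewise x y) base =
      ({κ u} : Finset V).piecewise (Function.extend κ x base) (Function.extend κ y base) := by
    intro x y
    funext w
    by_cases hw : ∃ k, κ k = w
    · obtain ⟨k, rfl⟩ := hw
      rw [κ.injective.extend_apply]
      by_cases hk : k = u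
      · subst hk
        rw [Finset.piecewise_eq_of_mem _ _ _ (mem_singleton_self _),
          Finset.piecewise_eq_of_mem _ _ _ (mem_singleton_self _), κ.injective.extend_apply]
      · rw [Finset.piecewise_eq_of_notMem _ _ _ (by simpa using hk),
          Finset.piecewise_eq_of_notMem _ _ _ (by
            simp only [mem_singleton]
            intro h; exact hk (κ.injective h)), κ.injective.extend_apply]
    · rw [Function.extend_apply' _ _ _ hw]
      by_cases h1 : w ∈ ({κ u} : Finset V)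
      · rw [Finset.piecewise_eq_of_mem _ _ _ h1, Function.extend_apply' _ _ _ hw]
      · rw [Finset.piecewise_eq_of_notMem _ _ _ h1, Function.extend_apply' _ _ _ hw]
  rw [key, key]
  refine h _ (Function.extend κ x base) (Function.extend κ y base) ?_
  intro w hwu hwv
  by_cases hw : ∃ k, κ k = w
  · obtain ⟨k, rfl⟩ := hw
    rw [κ.injective.extend_apply, κ.injective.extend_apply]
    exact hxy k (fun h => hwu (by rw [h])) (fun h => hwv (by rw [h]))
  · rw [Function.extend_apply' _ _ _ hw, Function.extend_apply' _ _ _ hw]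

theorem core_bound (hDec : St_Dec) (hLift : St_Lift) {E : Finset (K × K)} {M : D → D → ℝ≥0}
    {col : K → Bool} {Δ : ℕ} (hE : Bip E col Δ) {v₀ : K} {η : ℝ}
    (hη1 : η < 1) {Q : Finset (K → D)} (hQ : 0 < ∑ x ∈ Q, net E M x)
    (hN : ∀ J, Ind E J → (∀ e ∈ J, e.1 ≠ v₀ ∧ e.2 ≠ v₀) → ∀ T : (K → D) → ℝ≥0,
        (∀ x, T x ≤ net E M x) → (∀ e ∈ J, PairB T e.1 e.2) →
        ((∑ x ∈ Q, T x : ℝ≥0) : ℝ) ≤ (1 - η) ^ J.card * ((∑ x ∈ Q, net E M x : ℝ≥0) : ℝ))
    (hη0 : 0 < η)
    {k : ℕ} (hJ : ∀ S : Finset K, Fintype.card K ≤ 3 * S.card → 3 * S.card ≤ 2 * Fintype.card K →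
      ∃ J, Ind E J ∧ (∀ e ∈ J, e.1 ≠ v₀ ∧ e.2 ≠ v₀) ∧ k ≤ J.card ∧
        ∀ e ∈ J, (e.1 ∈ S ∧ e.2 ∉ S) ∨ (e.1 ∉ S ∧ e.2 ∈ S))
    (h2 : 2 ≤ Fintype.card K) (κ : K ↪ V) (base : V → D) (R : Finset V)
    (hR : ∀ k, κ k ∉ R) {w : (V → D) → ℝ≥0}
    (hw : ∀ x : K → D, marg R w (Function.extend κ x base) = net E M x)
    {s : ℕ} (P : Prog D V s) (i : Fin s) {q : ℝ≥0} (hq : 1 ≤ q)
    (h1 : ∀ x, w x ≤ q * P.val i x) (h3 : ∀ x, P.val i x ≤ q * w x) :
    (1 : ℝ) ≤ 2 * q ^ 2 * s ^ 3 * (1 - η) ^ k := by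
  classical
  obtain ⟨ι, _, T, S, hcard, hsum, hT⟩ := hDec D V s P i (univ.map κ) (by rw [card_map, card_univ]; exact h2)
  have hq0 : q ≠ 0 := by
    intro h; rw [h] at hq; exact absurd hq (by norm_num)
  set f : (K → D) → ℝ≥0 := fun z => marg R (P.val i) (Function.extend κ z base) with hf
  set Tb : ι → (K → D) → ℝ≥0 := fun t z => marg R (T t) (Function.extend κ z base) with hTb
  have hfs : ∀ z, f z ≤ ∑ t, Tb t z := by
    intro z
    simp only [hf, hTb]
    rw [← marg_sum]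
    exact marg_mono hsum _
  have hf1 : ∀ z, net E M z ≤ q * f z := by
    intro z
    rw [← hw z]
    simp only [hf]
    rw [← marg_smul]
    exact marg_mono h1 _
  have hf2 : ∀ z, f z ≤ q * net E M z := by
    intro z
    rw [← hw z]
    simp only [hf]
    rw [← marg_smul]
    exact marg_mono h3 _
  -- one term
  have hterm : ∀ t, ((∑ x ∈ Q, q⁻¹ * Tb t x : ℝ≥0) : ℝ) ≤
      (1 - η) ^ k * ((∑ x ∈ Q, net E M x : ℝ≥0) : ℝ) := by
    intro t
    obtain ⟨hTle, hS1, hS2, hbr⟩ := hT t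
    set Sb : Finset K := univ.filter fun k => κ k ∈ S t with hSb
    have hSc : (S t ∩ univ.map κ).card = Sb.card := by
      rw [← card_map κ (s := Sb)]
      congr 1
      ext v
      simp only [mem_inter, mem_map, mem_univ, true_and, hSb, mem_filter]
      constructor
      · rintro ⟨hv, k, rfl⟩; exact ⟨k, hv, rfl⟩
      · rintro ⟨k, hk, rfl⟩; exact ⟨hk, k, rfl⟩
    rw [hSc, card_map, card_univ] at hS1 hS2
    obtain ⟨J, hJ1, hJ2, hJ3, hJ4⟩ := hJ Sb hS1 hS2
    have hle : ∀ x, q⁻¹ * Tb t x ≤ net E M x := by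
      intro x
      have h4 : Tb t x ≤ f x := by
        simp only [hf, hTb]
        exact marg_mono hTle _
      calc q⁻¹ * Tb t x ≤ q⁻¹ * (q * net E M x) := by
            gcongr
            exact h4.trans (hf2 x)
        _ = net E M x := by rw [← mul_assoc, inv_mul_cancel₀ hq0, one_mul]
    have hpair : ∀ e ∈ J, PairB (fun x => q⁻¹ * Tb t x) e.1 e.2 := by
      intro e he
      apply pairB_smul
      have hne : e.1 ≠ e.2 := by
        intro h
        obtain ⟨c1, c2⟩ := hE.bip e (hJ1.1 he)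
        rw [h, c2] at c1
        exact absurd c1 (by simp)
      rcases hJ4 e he with ⟨ha, hb⟩ | ⟨ha, hb⟩
      · have ha' : κ e.1 ∈ S t := by simpa [hSb] using ha
        have hb' : κ e.2 ∉ S t := by simpa [hSb] using hb
        exact core_pair hLift κ base R hR (hbr _ ha' _ hb')
      · have ha' : κ e.1 ∉ S t := by simpa [hSb] using ha
        have hb' : κ e.2 ∈ S t := by simpa [hSb] using hb
        exact core_pair hLift κ base R hR
          (pairB_symm (fun h => hne (κ.injective h.symm)) (hbr _ hb' _ ha'))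
    have h5 := hN J hJ1 hJ2 _ hle hpair
    refine h5.trans ?_
    apply mul_le_mul_of_nonneg_right _ (NNReal.coe_nonneg _)
    exact pow_le_pow_of_le_one (by linarith) (by linarith) hJ3
  -- sum over the terms
  have hQr : (0 : ℝ) < ((∑ x ∈ Q, net E M x : ℝ≥0) : ℝ) := by exact_mod_cast hQ
  set A : ℝ := ((∑ x ∈ Q, net E M x : ℝ≥0) : ℝ) with hA
  have hqr : (0 : ℝ) < q := by
    have : (0 : ℝ≥0) < q := pos_iff_ne_zero.2 hq0
    exact_mod_cast this
  have h6 : A ≤ q * ((∑ x ∈ Q, f x : ℝ≥0) : ℝ) := by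
    rw [hA]
    have : ∑ x ∈ Q, net E M x ≤ q * ∑ x ∈ Q, f x := by
      rw [Finset.mul_sum]
      exact Finset.sum_le_sum fun x _ => hf1 x
    exact_mod_cast this
  have h7 : ((∑ x ∈ Q, f x : ℝ≥0) : ℝ) ≤ q * ∑ t, ((∑ x ∈ Q, q⁻¹ * Tb t x : ℝ≥0) : ℝ) := by
    have h70 : ∑ x ∈ Q, f x ≤ q * ∑ t, ∑ x ∈ Q, q⁻¹ * Tb t x := by
      refine (Finset.sum_le_sum fun x _ => hfs x).trans (le_of_eq ?_)
      rw [Finset.mul_sum, Finset.sum_comm]
      apply Finset.sum_congr rfl
      intro t _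
      rw [Finset.mul_sum]
      apply Finset.sum_congr rfl
      intro x _
      rw [← mul_assoc, mul_inv_cancel₀ hq0, one_mul]
    exact_mod_cast h70
  have h8 : ∑ t, ((∑ x ∈ Q, q⁻¹ * Tb t x : ℝ≥0) : ℝ) ≤ (2 * s ^ 3 : ℝ) * ((1 - η) ^ k * A) := by
    calc ∑ t, ((∑ x ∈ Q, q⁻¹ * Tb t x : ℝ≥0) : ℝ) ≤ ∑ _t : ι, (1 - η) ^ k * A :=
          Finset.sum_le_sum fun t _ => hterm t
      _ = (Fintype.card ι : ℝ) * ((1 - η) ^ k * A) := by
          rw [Finset.sum_const, card_univ, nsmul_eq_mul]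
      _ ≤ (2 * s ^ 3 : ℝ) * ((1 - η) ^ k * A) := by
          apply mul_le_mul_of_nonneg_right
          · exact_mod_cast hcard
          · apply mul_nonneg
            · apply pow_nonneg; linarith
            · exact hQr.le
  have h9 : A ≤ 2 * q ^ 2 * s ^ 3 * (1 - η) ^ k * A := by
    calc A ≤ q * (q * ∑ t, ((∑ x ∈ Q, q⁻¹ * Tb t x : ℝ≥0) : ℝ)) :=
          h6.trans (mul_le_mul_of_nonneg_left h7 hqr.le)
      _ ≤ q * (q * ((2 * s ^ 3 : ℝ) * ((1 - η) ^ k * A))) := by gcongr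
      _ = _ := by ring
  by_contra hcon
  push Not at hcon
  have : 2 * q ^ 2 * s ^ 3 * (1 - η) ^ k * A < 1 * A := mul_lt_mul_of_pos_right hcon hQr
  linarith

end Pool.Agent.WD
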