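import Pool.Agent.WD.Bsc

/-!
# Monotone programs with tame islands
-/

namespace Pool.Agent.WD

open Finset
open scoped NNReal

/-- A program with `s` gates: gate `i` computes the function `val i ≥ 0`, which depends only on the
variables in `scope i`; it is a tame function, or a combination with coefficients `≥ 0` of products
of two earlier gates with disjoint scopes contained in `scope i`, or, more generally, a pointwise
maximum of such combinations: at every `x` it is equal to a combination which is `≤` it everywhere.
So sums, maxima, `p`-norms and all other monotone sublinear functions of earlier gates and of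
products of two earlier gates with disjoint scopes are gates. -/
structure Prog (D V : Type) [Fintype D] [DecidableEq D] [Fintype V] [DecidableEq V] (s : ℕ) where
  /-- the function computed by a gate -/
  val : Fin s → (V → D) → ℝ≥0
  /-- the variables a gate depends on -/
  scope : Fin s → Finset V
  dep : ∀ i x y, (∀ v ∈ scope i, x v = y v) → val i x = val i y
  gate : ∀ i, Tame (val i) ∨ ∀ x, ∃ a : Fin s → Fin s → ℝ≥0,
    (∀ j k, a j k ≠ 0 → j < i ∧ k < i ∧ Disjoint (scope j) (scope k) ∧
      scope j ∪ scope k ⊆ scope i) ∧
    val i x = ∑ j, ∑ k, a j k * (val j x * val k x) ∧
    ∀ y, ∑ j, ∑ k, a j k * (val j y * val k y) ≤ val i y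

end Pool.Agent.WD
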