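import Pool.Agent.WD.St

/-!
# WD / Glob: from local to global Mal'tsev polymorphisms
-/

set_option autoImplicit false

namespace Pool.Agent.WD

open Finset
open scoped NNReal

theorem glob_p1 {D : Type} (F : Set (WFun D)) : Pol F (fun x _ _ => x) :=
  ⟨fun _ => rfl, fun _ _ _ _ _ h1 _ _ => h1⟩

theorem glob_p3 {D : Type} (F : Set (WFun D)) : Pol F (fun _ _ z => z) :=
  ⟨fun _ => rfl, fun _ _ _ _ _ _ _ h3 => h3⟩

theorem glob_yyz {D : Type} {F : Set (WFun D)} {t : D → D → D → D} (h : Pol F t) :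
    Pol F (fun _ y z => t y y z) :=
  ⟨fun x => h.1 x, fun f hf _ t2 t3 _ h2 h3 => h.2 f hf t2 t2 t3 h2 h2 h3⟩

theorem glob_xyy {D : Type} {F : Set (WFun D)} {t : D → D → D → D} (h : Pol F t) :
    Pol F (fun x y _ => t x y y) :=
  ⟨fun x => h.1 x, fun f hf t1 t2 _ h1 h2 _ => h.2 f hf t1 t2 t2 h1 h2 h2⟩

theorem glob_comp {D : Type} {F : Set (WFun D)} {s p1 p2 p3 : D → D → D → D} (hs : Pol F s)
    (h1 : Pol F p1) (h2 : Pol F p2) (h3 : Pol F p3) :
    Pol F (fun x y z => s (p1 x y z) (p2 x y z) (p3 x y z)) := by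
  refine ⟨fun x => ?_, fun f hf t1 t2 t3 g1 g2 g3 => ?_⟩
  · show s (p1 x x x) (p2 x x x) (p3 x x x) = x
    rw [h1.1, h2.1, h3.1, hs.1]
  · exact hs.2 f hf _ _ _ (h1.2 f hf t1 t2 t3 g1 g2 g3) (h2.2 f hf t1 t2 t3 g1 g2 g3)
      (h3.2 f hf t1 t2 t3 g1 g2 g3)

theorem glob_step1 {D : Type} {F : Set (WFun D)}
    (H : ∀ a b c d : D, ∃ p, Pol F p ∧ p a b b = a ∧ p c c d = d) (a b : D)
    (Q : Finset (D × D)) :
    ∃ t, Pol F t ∧ t a b b = a ∧ ∀ q ∈ Q, t q.1 q.1 q.2 = q.2 := by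
  classical
  induction Q using Finset.induction_on with
  | empty =>
    obtain ⟨p, hp, h1, -⟩ := H a b a b
    exact ⟨p, hp, h1, fun q hq => absurd hq (Finset.notMem_empty q)⟩
  | insert q Q hq ih =>
    obtain ⟨t, ht, h1, h2⟩ := ih
    obtain ⟨s, hs, h3, h4⟩ := H a b (t q.1 q.1 q.2) q.2
    refine ⟨fun x y z => s (t x y z) (t y y z) z, glob_comp hs ht (glob_yyz ht) (glob_p3 F),
      ?_, ?_⟩
    · show s (t a b b) (t b b b) b = a
      rw [h1, ht.1, h3]
    · intro r hr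
      show s (t r.1 r.1 r.2) (t r.1 r.1 r.2) r.2 = r.2
      rcases Finset.mem_insert.1 hr with h | h
      · rw [h]
        exact h4
      · rw [h2 r h, hs.1]

theorem glob_step2 {D : Type} [Fintype D] {F : Set (WFun D)} [Nonempty D]
    (H : ∀ a b c d : D, ∃ p, Pol F p ∧ p a b b = a ∧ p c c d = d) (P : Finset (D × D)) :
    ∃ t, Pol F t ∧ (∀ q ∈ P, t q.1 q.2 q.2 = q.1) ∧ ∀ c d, t c c d = d := by
  classical
  induction P using Finset.induction_on with
  | empty =>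
    obtain ⟨a⟩ := ‹Nonempty D›
    obtain ⟨t, ht, -, h2⟩ := glob_step1 H a a univ
    exact ⟨t, ht, fun q hq => absurd hq (Finset.notMem_empty q),
      fun c d => h2 (c, d) (Finset.mem_univ _)⟩
  | insert q P hq ih =>
    obtain ⟨t, ht, h1, h2⟩ := ih
    obtain ⟨s, hs, h3, h4⟩ := glob_step1 H q.1 (t q.1 q.2 q.2) univ
    refine ⟨fun x y z => s x (t x y y) (t x y z), glob_comp hs (glob_p1 F) (glob_xyy ht) ht,
      ?_, ?_⟩
    · intro r hr
      show s r.1 (t r.1 r.2 r.2) (t r.1 r.2 r.2) = r.1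
      rcases Finset.mem_insert.1 hr with h | h
      · rw [h]
        exact h3
      · rw [h1 r h, hs.1]
    · intro c d
      show s c (t c c c) (t c c d) = d
      rw [ht.1, h2]
      exact h4 (c, d) (Finset.mem_univ _)

theorem thm_Glob : St_Glob := by
  intro D _ _ F H
  rcases isEmpty_or_nonempty D with h | h
  · exact ⟨fun x _ _ => x, glob_p1 F, fun a => (h.false a).elim⟩
  · obtain ⟨t, ht, h1, h2⟩ := glob_step2 H univ
    exact ⟨t, ht, fun a b => ⟨h1 (a, b) (Finset.mem_univ _), h2 a b⟩⟩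

end Pool.Agent.WD
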