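import Pool.Agent.WD.St

/-!
# Weighted dichotomy, module Ins: the instance with a copy of a gadget for each edge
-/

namespace Pool.Agent.WD

open Finset
open scoped NNReal

theorem ins_wt_flatMap {D V ε : Type} (L : List ε) (f : ε → List (Con D V)) (x : V → D) :
    wt (L.flatMap f) x = (L.map fun e => wt (f e) x).prod := by
  induction L with
  | nil => simp [wt]
  | cons a L ih =>
    rw [List.flatMap_cons, List.map_cons, List.prod_cons, ← ih]
    simp [wt, List.map_append, List.prod_append]

theorem ins_filter_length {ε α : Type} (L : List ε) (f : ε → List α) (p : α → Bool) :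
    ((L.flatMap f).filter p).length = (L.map fun e => ((f e).filter p).length).sum := by
  induction L with
  | nil => simp
  | cons a L ih =>
    rw [List.flatMap_cons, List.map_cons, List.sum_cons, ← ih]
    simp [List.filter_append]

/-- the variables of the copy of the gadget for the edge `e` -/
def ins_w {K N : Type} {n₀ : ℕ} {E : Finset (K × K)} (ι : K ⊕ (E × Fin n₀) ↪ N)
    (u₀ v₀ : Fin n₀) (e : E) (j : Fin n₀) : N :=
  if j = u₀ then ι (Sum.inl e.1.1) else if j = v₀ then ι (Sum.inl e.1.2) else ι (Sum.inr (e, j))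

theorem ins_card {K N : Type} [DecidableEq K] [DecidableEq N] {n₀ : ℕ} {E : Finset (K × K)}
    (ι : K ⊕ (E × Fin n₀) ↪ N) (u₀ v₀ : Fin n₀) (Δ : ℕ)
    (hΔ : ∀ v, (E.filter fun e => e.1 = v ∨ e.2 = v).card ≤ Δ) (v : N)
    (P : E → Prop) [DecidablePred P] (hP : ∀ e, P e → ∃ j, ins_w ι u₀ v₀ e j = v) :
    ((univ : Finset E).filter P).card ≤ Δ + 1 := by
  classical
  have h1 : ((univ : Finset E).filter fun e => ι (Sum.inl e.1.1) = v ∨
      ι (Sum.inl e.1.2) = v).card ≤ Δ := by
    by_cases hk : ∃ k : K, ι (Sum.inl k) = v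
    · obtain ⟨k, rfl⟩ := hk
      refine le_trans ?_ (hΔ k)
      refine Finset.card_le_card_of_injOn (fun e => e.1) ?_ ?_
      · intro e he
        have he' := (Finset.mem_filter.1 (Finset.mem_coe.1 he)).2
        refine Finset.mem_coe.2 (Finset.mem_filter.2 ⟨e.2, ?_⟩)
        rcases he' with h | h
        · exact Or.inl (Sum.inl_injective (ι.injective h))
        · exact Or.inr (Sum.inl_injective (ι.injective h))
      · intro e _ e' _ h
        exact Subtype.ext h
    · have : ((univ : Finset E).filter fun e => ι (Sum.inl e.1.1) = v ∨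
        ι (Sum.inl e.1.2) = v) = ∅ := by
        refine Finset.filter_eq_empty_iff.2 fun e _ => ?_
        rintro (h | h)
        · exact hk ⟨_, h⟩
        · exact hk ⟨_, h⟩
      rw [this]
      simp
  have h2 : ((univ : Finset E).filter fun e => ∃ j, ι (Sum.inr (e, j)) = v).card ≤ 1 := by
    refine Finset.card_le_one.2 ?_
    intro e he e' he'
    obtain ⟨j, hj⟩ := (Finset.mem_filter.1 he).2
    obtain ⟨j', hj'⟩ := (Finset.mem_filter.1 he').2
    have := Sum.inr_injective (ι.injective (hj.trans hj'.symm))
    exact congrArg Prod.fst this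
  refine le_trans (Finset.card_le_card ?_) ((Finset.card_union_le
    ((univ : Finset E).filter fun e => ι (Sum.inl e.1.1) = v ∨ ι (Sum.inl e.1.2) = v)
    ((univ : Finset E).filter fun e => ∃ j, ι (Sum.inr (e, j)) = v)).trans (Nat.add_le_add h1 h2))
  intro e he
  obtain ⟨j, hj⟩ := hP e (Finset.mem_filter.1 he).2
  rw [Finset.mem_union, Finset.mem_filter, Finset.mem_filter]
  unfold ins_w at hj
  split_ifs at hj with h h'
  · exact Or.inl ⟨Finset.mem_univ _, Or.inl hj⟩
  · exact Or.inl ⟨Finset.mem_univ _, Or.inr hj⟩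
  · exact Or.inr ⟨Finset.mem_univ _, j, hj⟩

theorem ins_marg {D V : Type} [Fintype D] [DecidableEq D] [Fintype V] [DecidableEq V]
    (R : Finset V) (g : (V → D) → ℝ≥0) (x : V → D) (S : Finset (V → D))
    (hS : ∀ y, y ∈ S ↔ ∀ v, v ∉ R → y v = x v) : marg R g x = ∑ y ∈ S, g y := by
  unfold marg
  refine Finset.sum_congr ?_ fun _ _ => rfl
  ext y
  rw [hS, Finset.mem_filter]
  exact ⟨fun h => h.2, fun h => ⟨Finset.mem_univ _, h⟩⟩

theorem ins_ex {D V : Type} [Fintype D] [Fintype V] (R : Finset V) (x : V → D) :
    ∃ S : Finset (V → D), ∀ y, y ∈ S ↔ ∀ v, v ∉ R → y v = x v := by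
  classical
  exact ⟨univ.filter fun y => ∀ v, v ∉ R → y v = x v, fun y => by simp⟩

theorem thm_Ins : St_Ins := by
  classical
  intro D _ _ F n₀ I₀ hF R₀ u₀ v₀ π huv hu hv K _ _ E Δ hΔ hE n hn
  have hcard : Fintype.card (K ⊕ (E × Fin n₀)) ≤ Fintype.card (Fin n) := by
    rw [Fintype.card_sum, Fintype.card_prod, Fintype.card_coe, Fintype.card_fin, Fintype.card_fin]
    exact hn
  obtain ⟨ι⟩ := Function.Embedding.nonempty_of_card_le hcard
  let w : E → Fin n₀ → Fin n := ins_w ι u₀ v₀
  have hwu : ∀ e, w e u₀ = ι (Sum.inl e.1.1) := fun e => by simp [w, ins_w]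
  have hwv : ∀ e, w e v₀ = ι (Sum.inl e.1.2) := fun e => by simp [w, ins_w, huv.symm]
  have hwj : ∀ e j, j ≠ u₀ → j ≠ v₀ → w e j = ι (Sum.inr (e, j)) := fun e j h h' => by
    simp [w, ins_w, h, h']
  let cp : E → List (Con D (Fin n)) := fun e => I₀.map fun c => ⟨c.f, fun i => w e (c.sc i)⟩
  let I : List (Con D (Fin n)) := (univ : Finset E).toList.flatMap cp
  let κ : K ↪ Fin n := ⟨fun k => ι (Sum.inl k), fun a b h => Sum.inl_injective (ι.injective h)⟩
  let κ' : (E × Fin n₀) ↪ Fin n :=
    ⟨fun k => ι (Sum.inr k), fun a b h => Sum.inr_injective (ι.injective h)⟩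
  let base : Fin n → D := Function.extend κ' (fun p => π p.2) (fun _ => π u₀)
  let R : Finset (Fin n) := ((univ : Finset E) ×ˢ R₀).map κ'
  have hRmem : ∀ e j, κ' (e, j) ∈ R ↔ j ∈ R₀ := by
    intro e j
    simp [R]
  have hκR : ∀ k, κ k ∉ R := by
    intro k hk
    obtain ⟨p, -, hp⟩ := Finset.mem_map.1 hk
    exact Sum.inr_ne_inl (ι.injective hp)
  refine ⟨I, ?_, ?_, ?_, κ, base, R, hκR, ?_⟩
  · intro c hc
    obtain ⟨e, -, he⟩ := List.mem_flatMap.1 hc
    obtain ⟨c', hc', rfl⟩ := List.mem_map.1 he
    exact hF c' hc'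
  · rw [List.length_flatMap]
    simp [cp]
  · intro v
    rw [ins_filter_length]
    have hle : ∀ e ∈ (univ : Finset E).toList,
        ((cp e).filter fun c => decide (∃ i, c.sc i = v)).length ≤
          if ∃ j, w e j = v then I₀.length else 0 := by
      intro e _
      split_ifs with h
      · refine (List.length_filter_le _ _).trans ?_
        simp [cp]
      · have : ((cp e).filter fun c => decide (∃ i, c.sc i = v)) = [] := by
          rw [List.filter_eq_nil_iff]
          intro c hc
          obtain ⟨c', hc', rfl⟩ := List.mem_map.1 hc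
          rw [decide_eq_true_eq]
          rintro ⟨i, hi⟩
          exact h ⟨_, hi⟩
        rw [this]
        simp
    refine (List.sum_le_sum hle).trans ?_
    rw [Finset.sum_map_toList, Finset.sum_ite, Finset.sum_const, Finset.sum_const_zero, add_zero,
      smul_eq_mul]
    exact Nat.mul_le_mul_right _ (ins_card ι u₀ v₀ Δ hΔ v _ fun e h => h)
  · intro x
    have hX : ∀ e, (fun j => Function.extend κ x base (w e j)) =
        Function.update (Function.update π u₀ (x e.1.1)) v₀ (x e.1.2) := by
      intro e
      funext j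
      by_cases h1 : j = v₀
      · subst h1
        rw [Function.update_self, hwv]
        exact κ.injective.extend_apply x base e.1.2
      · rw [Function.update_of_ne h1]
        by_cases h2 : j = u₀
        · subst h2
          rw [Function.update_self, hwu]
          exact κ.injective.extend_apply x base e.1.1
        · rw [Function.update_of_ne h2, hwj e j h2 h1, Function.extend_apply']
          · exact κ'.injective.extend_apply (fun p => π p.2) (fun _ => π u₀) (e, j)
          · rintro ⟨k, hk⟩
            exact Sum.inl_ne_inr (ι.injective hk)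
    have hwt : ∀ y : Fin n → D, wt I y = ∏ e : E, wt I₀ (fun j => y (w e j)) := by
      intro y
      rw [ins_wt_flatMap, Finset.prod_map_toList]
      refine Finset.prod_congr rfl fun e _ => ?_
      simp [wt, cp, List.map_map, Function.comp_def]
    have hnet : net E (fun c d => marg R₀ (wt I₀)
        (Function.update (Function.update π u₀ c) v₀ d)) x =
        ∏ e : E, marg R₀ (wt I₀)
          (Function.update (Function.update π u₀ (x e.1.1)) v₀ (x e.1.2)) := by
      rw [net, ← Finset.prod_coe_sort]
    rw [hnet]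
    obtain ⟨S, hS⟩ := ins_ex R (Function.extend κ x base)
    have hex : ∀ e : E, ∃ S : Finset (Fin n₀ → D), ∀ y, y ∈ S ↔ ∀ v, v ∉ R₀ →
        y v = Function.update (Function.update π u₀ (x e.1.1)) v₀ (x e.1.2) v :=
      fun e => ins_ex R₀ _
    choose S0 hS0 using hex
    rw [ins_marg R (wt I) _ S hS, Finset.prod_congr rfl fun e _ => ins_marg R₀ (wt I₀) _ (S0 e)
      (hS0 e), Finset.prod_univ_sum]
    refine Finset.sum_bij (fun y _ => fun e j => y (w e j)) ?_ ?_ ?_ ?_
    · intro y hy
      rw [Fintype.mem_piFinset]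
      intro e
      refine (hS0 e _).2 fun j hj => ?_
      rw [← hX e]
      refine (hS y).1 hy _ ?_
      by_cases h1 : j = u₀
      · subst h1
        rw [hwu]
        exact hκR _
      · by_cases h2 : j = v₀
        · subst h2
          rw [hwv]
          exact hκR _
        · rw [hwj e j h1 h2]
          exact fun h => hj ((hRmem e j).1 h)
    · intro y hy y' hy' h
      funext v
      by_cases hvR : v ∈ R
      · obtain ⟨⟨e, j⟩, hp, rfl⟩ := Finset.mem_map.1 hvR
        have hj : j ∈ R₀ := (hRmem e j).1 hvR
        have hju : j ≠ u₀ := fun h => hu (h ▸ hj)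
        have hjv : j ≠ v₀ := fun h => hv (h ▸ hj)
        have := congrFun (congrFun h e) j
        simp only [hwj e j hju hjv] at this
        exact this
      · rw [(hS y).1 hy v hvR, (hS y').1 hy' v hvR]
    · intro z hz
      rw [Fintype.mem_piFinset] at hz
      have hz' : ∀ e j, j ∉ R₀ → z e j = Function.extend κ x base (w e j) := by
        intro e j hj
        rw [(hS0 e _).1 (hz e) j hj, ← hX e]
      refine ⟨fun v => if h : ∃ p : E × Fin n₀, p.2 ∈ R₀ ∧ κ' p = v then z h.choose.1 h.choose.2
        else Function.extend κ x base v, ?_, ?_⟩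
      · refine (hS _).2 fun v hvR => ?_
        have : ¬ ∃ p : E × Fin n₀, p.2 ∈ R₀ ∧ κ' p = v := by
          rintro ⟨⟨e, j⟩, h1, rfl⟩
          exact hvR ((hRmem e j).2 h1)
        simp only [this, dif_neg, not_false_iff]
      · funext e j
        by_cases hj : j ∈ R₀
        · have hju : j ≠ u₀ := fun h => hu (h ▸ hj)
          have hjv : j ≠ v₀ := fun h => hv (h ▸ hj)
          have hex : ∃ p : E × Fin n₀, p.2 ∈ R₀ ∧ κ' p = w e j :=
            ⟨(e, j), hj, (hwj e j hju hjv).symm⟩
          have hch : hex.choose = (e, j) := by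
            refine κ'.injective ?_
            rw [hex.choose_spec.2, hwj e j hju hjv]
            rfl
          simp only [hex, dif_pos]
          rw [hch]
        · have : ¬ ∃ p : E × Fin n₀, p.2 ∈ R₀ ∧ κ' p = w e j := by
            rintro ⟨⟨e', j'⟩, h1, h2⟩
            by_cases h3 : j = u₀
            · subst h3
              rw [hwu] at h2
              exact Sum.inr_ne_inl (ι.injective h2)
            · by_cases h4 : j = v₀
              · subst h4
                rw [hwv] at h2
                exact Sum.inr_ne_inl (ι.injective h2)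
              · rw [hwj e j h3 h4] at h2
                have := Sum.inr_injective (ι.injective h2)
                rw [Prod.mk.injEq] at this
                exact hj (this.2 ▸ h1)
          simp only [this, dif_neg, not_false_iff]
          exact (hz' e j hj).symm
    · intro y hy
      exact hwt y

end Pool.Agent.WD
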