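import Pool.Agent.WD.St

/-!
# WD / Lift: marginals of the restriction to the core
-/

namespace Pool.Agent.WD

open Finset
open scoped NNReal

theorem thm_Lift : St_Lift := by
  intro D V K _ _ _ _ _ _ κ base R hR T R' x
  have hinj : Function.Injective κ := κ.injective
  have hext : ∀ (z : K → D) (k : K), Function.extend κ z base (κ k) = z k :=
    fun z k => hinj.extend_apply z base k
  have hext' : ∀ (z : K → D) (v : V), (¬ ∃ k, κ k = v) → Function.extend κ z base v = base v :=
    fun z v hv => Function.extend_apply' z base v hv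
  unfold marg
  rw [← Finset.sum_fiberwise_of_maps_to (s := univ.filter (fun y : V → D => ∀ v, v ∉ R'.map κ ∪ R →
      y v = Function.extend κ x base v)) (t := univ.filter (fun z : K → D => ∀ k, k ∉ R' → z k = x k))
      (g := fun y k => y (κ k))]
  · refine sum_congr rfl fun z hz => ?_
    rw [mem_filter] at hz
    refine sum_congr ?_ fun _ _ => rfl
    ext y
    simp only [mem_filter, mem_univ, true_and]
    constructor
    · intro hy
      have hyk : ∀ k, y (κ k) = z k := fun k => by rw [hy (κ k) (hR k), hext]
      refine ⟨fun v hv => ?_, funext hyk⟩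
      rw [mem_union, not_or] at hv
      by_cases hvk : ∃ k, κ k = v
      · obtain ⟨k, rfl⟩ := hvk
        rw [hyk, hext]
        refine hz.2 k fun hk => hv.1 (mem_map_of_mem κ hk)
      · rw [hy v hv.2, hext' _ _ hvk, hext' _ _ hvk]
    · rintro ⟨hy, hyz⟩ v hv
      by_cases hvk : ∃ k, κ k = v
      · obtain ⟨k, rfl⟩ := hvk
        rw [hext]
        exact congrFun hyz k
      · rw [hy v, hext' _ _ hvk, hext' _ _ hvk]
        rw [mem_union, not_or]
        refine ⟨fun h => ?_, hv⟩
        obtain ⟨k, -, hk⟩ := mem_map.1 h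
        exact hvk ⟨k, hk⟩
  · intro y hy
    rw [mem_filter] at hy ⊢
    refine ⟨mem_univ _, fun k hk => ?_⟩
    show y (κ k) = x k
    rw [hy.2 (κ k), hext]
    rw [mem_union, not_or]
    exact ⟨fun h => hk ((mem_map' κ).1 h), hR k⟩

end Pool.Agent.WD
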