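import Pool.Agent.WD.St

/-!
# Local Mal'tsev polymorphisms from the indicator instance
-/

set_option autoImplicit false

namespace Pool.Agent.WD

open Finset
open scoped NNReal

private theorem loc_marg {D V : Type} [Fintype D] [DecidableEq D] [Fintype V] [DecidableEq V]
    {R : Finset V} {g : (V → D) → ℝ≥0} {x : V → D} :
    marg R g x ≠ 0 ↔ ∃ y : V → D, (∀ v, v ∉ R → y v = x v) ∧ g y ≠ 0 := by
  unfold marg
  rw [Ne, Finset.sum_eq_zero_iff]
  push Not
  constructor
  · rintro ⟨y, hy, h⟩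
    exact ⟨y, (mem_filter.1 hy).2, h⟩
  · rintro ⟨y, hy, h⟩
    exact ⟨y, mem_filter.2 ⟨mem_univ _, hy⟩, h⟩

private theorem loc_wt {D V : Type} {I : List (Con D V)} {x : V → D} :
    wt I x ≠ 0 ↔ ∀ c ∈ I, c.f.2 (fun i => x (c.sc i)) ≠ 0 := by
  unfold wt
  rw [Ne, List.prod_eq_zero_iff, List.mem_map]
  push Not
  rfl

theorem thm_Loc : St_Loc := by
  classical
  intro D _ _ F hF a b c d
  by_cases hab : a = b
  · exact ⟨fun _ _ z => z, ⟨fun x => rfl, fun f hf t1 t2 t3 h1 h2 h3 => h3⟩, hab.symm, rfl⟩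
  by_cases hcd : c = d
  · exact ⟨fun x _ _ => x, ⟨fun x => rfl, fun f hf t1 t2 t3 h1 h2 h3 => h1⟩, rfl, hcd⟩
  by_contra hno
  push Not at hno
  have hviol : ∀ p : {p : D × D × D → D // (∀ x, p (x, x, x) = x) ∧ p (a, b, b) = a ∧
      p (c, c, d) = d}, ∃ f ∈ F, ∃ t1 t2 t3 : Fin f.1 → D, f.2 t1 ≠ 0 ∧ f.2 t2 ≠ 0 ∧
        f.2 t3 ≠ 0 ∧ f.2 (fun i => p.1 (t1 i, t2 i, t3 i)) = 0 := by
    rintro ⟨p, hp1, hp2, hp3⟩
    by_contra hcon
    push Not at hcon
    exact hno (fun x y z => p (x, y, z)) ⟨hp1, fun f hf t1 t2 t3 h1 h2 h3 =>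
      hcon f hf t1 t2 t3 h1 h2 h3⟩ hp2 hp3
  choose f hf t1 t2 t3 h1 h2 h3 h0 using hviol
  let e := Fintype.equivFin (D × D × D)
  let con : {p : D × D × D → D // (∀ x, p (x, x, x) = x) ∧ p (a, b, b) = a ∧ p (c, c, d) = d} →
      Con D (Fin (Fintype.card (D × D × D))) :=
    fun p => ⟨f p, fun i => e (t1 p i, t2 p i, t3 p i)⟩
  let I : List (Con D (Fin (Fintype.card (D × D × D)))) := (univ : Finset _).toList.map con
  have hI : ∀ k, k ∈ I ↔ ∃ p, con p = k := by
    intro k
    simp only [I, List.mem_map, Finset.mem_toList, mem_univ, true_and]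
  have hover : Over F I := by
    intro k hk
    obtain ⟨p, rfl⟩ := (hI k).1 hk
    exact hf p
  have ht := hF _ I hover
  let u := e (a, b, b)
  let v := e (c, c, d)
  have huv : u ≠ v := by
    intro h
    have h4 := e.injective h
    simp only [Prod.mk.injEq] at h4
    exact hab (h4.1.trans h4.2.1.symm)
  let R : Finset (Fin (Fintype.card (D × D × D))) :=
    univ.filter fun w => w ≠ u ∧ w ≠ v ∧ ∀ z, w ≠ e (z, z, z)
  have hR : ∀ w, w ∉ R → w = u ∨ w = v ∨ ∃ z, w = e (z, z, z) := by
    intro w hw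
    simp only [R, mem_filter, mem_univ, true_and, not_and_or, not_not, not_forall] at hw
    exact hw
  have hud : ∀ z, u ≠ e (z, z, z) := by
    intro z h
    have h4 := e.injective h
    simp only [Prod.mk.injEq] at h4
    exact hab (h4.1.trans h4.2.1.symm)
  have hvd : ∀ z, v ≠ e (z, z, z) := by
    intro z h
    have h4 := e.injective h
    simp only [Prod.mk.injEq] at h4
    exact hcd (h4.1.trans h4.2.2.symm)
  let A : D → D → Fin (Fintype.card (D × D × D)) → D := fun s t w =>
    if w = u then s else if w = v then t else (e.symm w).1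
  have hAu : ∀ s t, A s t u = s := fun s t => if_pos rfl
  have hAv : ∀ s t, A s t v = t := fun s t => by
    show (if v = u then s else if v = v then t else (e.symm v).1) = t
    rw [if_neg huv.symm, if_pos rfl]
  have hAd : ∀ s t z, A s t (e (z, z, z)) = z := fun s t z => by
    show (if e (z, z, z) = u then s else if e (z, z, z) = v then t else
      (e.symm (e (z, z, z))).1) = z
    rw [if_neg (hud z).symm, if_neg (hvd z).symm, Equiv.symm_apply_apply]
  -- a vector which agrees outside of `R`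
  have hagree : ∀ (s t : D) (y : Fin (Fintype.card (D × D × D)) → D), y u = s → y v = t →
      (∀ z, y (e (z, z, z)) = z) → ∀ w, w ∉ R → y w = A s t w := by
    intro s t y hu hv hd w hw
    rcases hR w hw with rfl | rfl | ⟨z, rfl⟩
    · rw [hu, hAu]
    · rw [hv, hAv]
    · rw [hd, hAd]
  have hpw1 : ({u} : Finset _).piecewise (A b c) (A a d) = A b d := by
    funext w
    by_cases hw : w = u
    · rw [hw, Finset.piecewise_eq_of_mem _ _ _ (mem_singleton_self u), hAu, hAu]
    · rw [Finset.piecewise_eq_of_notMem _ _ _ (by simpa using hw)]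
      simp only [A, if_neg hw]
  have hpw2 : ({u} : Finset _).piecewise (A a d) (A b c) = A a c := by
    funext w
    by_cases hw : w = u
    · rw [hw, Finset.piecewise_eq_of_mem _ _ _ (mem_singleton_self u), hAu, hAu]
    · rw [Finset.piecewise_eq_of_notMem _ _ _ (by simpa using hw)]
      simp only [A, if_neg hw]
  have hcr := ht R u v (A b c) (A a d) (by
    intro w hwu hwv
    simp only [A, if_neg hwu, if_neg hwv])
  unfold Cross at hcr
  rw [hpw1, hpw2] at hcr
  have m1 : marg R (wt I) (A b c) ≠ 0 := by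
    refine loc_marg.2 ⟨fun w => (e.symm w).2.1, hagree b c _ ?_ ?_ ?_, loc_wt.2 ?_⟩
    · simp only [u, Equiv.symm_apply_apply]
    · simp only [v, Equiv.symm_apply_apply]
    · intro z
      simp only [Equiv.symm_apply_apply]
    · intro k hk
      obtain ⟨p, rfl⟩ := (hI k).1 hk
      simp only [con, Equiv.symm_apply_apply]
      exact h2 p
  have m2 : marg R (wt I) (A b d) ≠ 0 := by
    refine loc_marg.2 ⟨fun w => (e.symm w).2.2, hagree b d _ ?_ ?_ ?_, loc_wt.2 ?_⟩
    · simp only [u, Equiv.symm_apply_apply]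
    · simp only [v, Equiv.symm_apply_apply]
    · intro z
      simp only [Equiv.symm_apply_apply]
    · intro k hk
      obtain ⟨p, rfl⟩ := (hI k).1 hk
      simp only [con, Equiv.symm_apply_apply]
      exact h3 p
  have m3 : marg R (wt I) (A a c) ≠ 0 := by
    refine loc_marg.2 ⟨fun w => (e.symm w).1, hagree a c _ ?_ ?_ ?_, loc_wt.2 ?_⟩
    · simp only [u, Equiv.symm_apply_apply]
    · simp only [v, Equiv.symm_apply_apply]
    · intro z
      simp only [Equiv.symm_apply_apply]
    · intro k hk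
      obtain ⟨p, rfl⟩ := (hI k).1 hk
      simp only [con, Equiv.symm_apply_apply]
      exact h1 p
  have m4 : marg R (wt I) (A a d) ≠ 0 := by
    rcases hcr with h | ⟨h, _⟩ | ⟨h, _⟩
    · intro h4
      rw [h4, mul_zero] at h
      exact mul_ne_zero m2 m3 h.symm
    · exact absurd h m1
    · exact absurd h m2
  obtain ⟨z, hz, hz0⟩ := loc_marg.1 m4
  have hzd : ∀ t, z (e (t, t, t)) = t := by
    intro t
    rw [hz _ ?_, hAd]
    simp only [R, mem_filter, mem_univ, true_and, not_and_or, not_not, not_forall]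
    exact Or.inr (Or.inr ⟨t, rfl⟩)
  have hzu : z u = a := by
    rw [hz _ ?_, hAu]
    simp [R]
  have hzv : z v = d := by
    rw [hz _ ?_, hAv]
    simp [R]
  let p : {p : D × D × D → D // (∀ x, p (x, x, x) = x) ∧ p (a, b, b) = a ∧ p (c, c, d) = d} :=
    ⟨fun t => z (e t), hzd, hzu, hzv⟩
  exact loc_wt.1 hz0 (con p) ((hI _).2 ⟨p, rfl⟩) (h0 p)

end Pool.Agent.WD
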