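import Pool.Agent.WD.St

/-!
# [LossA] the loss in the case of a non-rectangular support
-/

namespace Pool.Agent.WD

open Finset
open scoped NNReal

section

variable {D K : Type} [Fintype D] [DecidableEq D] [Fintype K] [DecidableEq K]

/-- the patch of the edge `u v` -/
def lossa_W (E : Finset (K × K)) (u v : K) : Finset K :=
  univ.filter fun w => (u, w) ∈ E ∨ (w, v) ∈ E

lemma lossa_card_W (E : Finset (K × K)) (Δ : ℕ)
    (hdeg : ∀ v, (E.filter fun e => e.1 = v ∨ e.2 = v).card ≤ Δ) (u v : K) :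
    (lossa_W E u v).card ≤ 2 * Δ := by
  classical
  have h1 : (univ.filter fun w => (u, w) ∈ E).card ≤ Δ := by
    refine le_trans ?_ (hdeg u)
    refine card_le_card_of_injOn (fun w => (u, w)) ?_ ?_
    · intro w hw
      have hw' := (mem_filter.1 (mem_coe.1 hw)).2
      exact mem_coe.2 (mem_filter.2 ⟨hw', Or.inl rfl⟩)
    · intro w _ w' _ h
      exact (Prod.ext_iff.1 h).2
  have h2 : (univ.filter fun w => (w, v) ∈ E).card ≤ Δ := by
    refine le_trans ?_ (hdeg v)
    refine card_le_card_of_injOn (fun w => (w, v)) ?_ ?_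
    · intro w hw
      have hw' := (mem_filter.1 (mem_coe.1 hw)).2
      exact mem_coe.2 (mem_filter.2 ⟨hw', Or.inr rfl⟩)
    · intro w _ w' _ h
      exact (Prod.ext_iff.1 h).1
  have h3 : lossa_W E u v = (univ.filter fun w => (u, w) ∈ E) ∪ (univ.filter fun w => (w, v) ∈ E) := by
    unfold lossa_W
    rw [filter_or]
  rw [h3]
  exact le_trans (card_union_le _ _) (by omega)

/-- the affected edges -/
def lossa_A (E : Finset (K × K)) (u v : K) : Finset (K × K) :=
  E.filter fun e => e.1 ∈ lossa_W E u v ∨ e.2 ∈ lossa_W E u v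

lemma lossa_card_A (E : Finset (K × K)) (Δ : ℕ)
    (hdeg : ∀ v, (E.filter fun e => e.1 = v ∨ e.2 = v).card ≤ Δ) (u v : K) :
    (lossa_A E u v).card ≤ 2 * Δ * Δ := by
  classical
  have h1 : lossa_A E u v ⊆ (lossa_W E u v).biUnion fun w => E.filter fun e => e.1 = w ∨ e.2 = w := by
    intro e he
    rcases (mem_filter.1 he) with ⟨h2, h3 | h3⟩
    · exact mem_biUnion.2 ⟨e.1, h3, mem_filter.2 ⟨h2, Or.inl rfl⟩⟩
    · exact mem_biUnion.2 ⟨e.2, h3, mem_filter.2 ⟨h2, Or.inr rfl⟩⟩
  refine le_trans (card_le_card h1) (le_trans card_biUnion_le ?_)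
  refine le_trans (sum_le_sum fun w _ => hdeg w) ?_
  rw [sum_const, smul_eq_mul]
  exact Nat.mul_le_mul_right _ (lossa_card_W E Δ hdeg u v)

/-- the box -/
def lossa_Q (col : K → Bool) (a a' b b' : D) : Finset (K → D) :=
  univ.filter fun x : K → D => ∀ v,
    (col v = true → x v = a ∨ x v = a') ∧ (col v = false → x v = b ∨ x v = b')

/-- the changed assignment -/
def lossa_st (E : Finset (K × K)) (u v : K) (a b c d : D) (x : K → D) : K → D := fun w =>
  if w = u then c else if w = v then d else if (u, w) ∈ E then b else if (w, v) ∈ E then a else x w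

omit [Fintype D] [DecidableEq D] in
lemma lossa_st_off (E : Finset (K × K)) {u v : K} (huv : (u, v) ∈ E) (a b c d : D) (x : K → D)
    (w : K) (hw : w ∉ lossa_W E u v) : lossa_st E u v a b c d x w = x w := by
  have h : ¬ ((u, w) ∈ E ∨ (w, v) ∈ E) := fun h => hw (mem_filter.2 ⟨mem_univ _, h⟩)
  have h1 : w ≠ u := by
    rintro rfl
    exact h (Or.inr huv)
  have h2 : w ≠ v := by
    rintro rfl
    exact h (Or.inl huv)
  unfold lossa_st
  rw [if_neg h1, if_neg h2, if_neg (fun h3 => h (Or.inl h3)), if_neg (fun h3 => h (Or.inr h3))]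

lemma lossa_st_mem {E : Finset (K × K)} {col : K → Bool}
    (hbip : ∀ e ∈ E, col e.1 = true ∧ col e.2 = false) {u v : K} (huv : (u, v) ∈ E)
    {a a' b b' c d : D} (hc : c = a ∨ c = a') (hd : d = b ∨ d = b') {x : K → D}
    (hx : x ∈ lossa_Q col a a' b b') : lossa_st E u v a b c d x ∈ lossa_Q col a a' b b' := by
  have hx' := (mem_filter.1 hx).2
  refine mem_filter.2 ⟨mem_univ _, fun w => ?_⟩
  have hu := (hbip _ huv).1
  have hv := (hbip _ huv).2
  unfold lossa_st
  by_cases h1 : w = u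
  · rw [if_pos h1, h1]
    refine ⟨fun _ => hc, fun h => ?_⟩
    simp only at hu
    rw [hu] at h
    exact absurd h (by simp)
  rw [if_neg h1]
  by_cases h2 : w = v
  · rw [if_pos h2, h2]
    refine ⟨fun h => ?_, fun _ => hd⟩
    simp only at hv
    rw [hv] at h
    exact absurd h (by simp)
  rw [if_neg h2]
  by_cases h3 : (u, w) ∈ E
  · rw [if_pos h3]
    have := (hbip _ h3).2
    simp only at this
    refine ⟨fun h => ?_, fun _ => Or.inl rfl⟩
    rw [this] at h
    exact absurd h (by simp)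
  rw [if_neg h3]
  by_cases h4 : (w, v) ∈ E
  · rw [if_pos h4]
    have := (hbip _ h4).1
    simp only at this
    refine ⟨fun _ => Or.inl rfl, fun h => ?_⟩
    rw [this] at h
    exact absurd h (by simp)
  rw [if_neg h4]
  exact hx' w

/-- the values at the affected edges after the change are large -/
lemma lossa_low {M : D → D → ℝ≥0} {a a' b b' : D} {m0 : ℝ≥0} (h1 : m0 ≤ M a b) (h2 : m0 ≤ M a b')
    (h3 : m0 ≤ M a' b) {E : Finset (K × K)} {col : K → Bool}
    (hbip : ∀ e ∈ E, col e.1 = true ∧ col e.2 = false) {u v : K} (huv : (u, v) ∈ E)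
    {c d : D} (hcd : (c = a ∧ d = b) ∨ (c = a ∧ d = b') ∨ (c = a' ∧ d = b)) {x : K → D}
    (hx : x ∈ lossa_Q col a a' b b') (e : K × K) (he : e ∈ lossa_A E u v) :
    m0 ≤ M (lossa_st E u v a b c d x e.1) (lossa_st E u v a b c d x e.2) := by
  have hc : c = a ∨ c = a' := by tauto
  have hd : d = b ∨ d = b' := by tauto
  have hst := (mem_filter.1 (lossa_st_mem hbip huv hc hd hx)).2
  obtain ⟨heE, heW⟩ := mem_filter.1 he
  have he1 := (hbip e heE).1
  have he2 := (hbip e heE).2
  have hu := (hbip _ huv).1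
  have hv := (hbip _ huv).2
  simp only at hu hv
  have hs1 := (hst e.1).1 he1
  have hs2 := (hst e.2).2 he2
  have hu2 : e.2 ≠ u := by
    intro h
    rw [h, hu] at he2
    exact absurd he2 (by simp)
  have hv1 : e.1 ≠ v := by
    intro h
    rw [h, hv] at he1
    exact absurd he1 (by simp)
  -- if the left value is a or the right value is b we are done
  have key1 : ∀ p q : D, p = a → (q = b ∨ q = b') → m0 ≤ M p q := by
    rintro p q rfl (rfl | rfl)
    · exact h1
    · exact h2
  have key2 : ∀ p q : D, (p = a ∨ p = a') → q = b → m0 ≤ M p q := by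
    rintro p q (rfl | rfl) rfl
    · exact h1
    · exact h3
  by_cases hE1 : e.1 = u
  · by_cases hE2 : e.2 = v
    · have e1 : lossa_st E u v a b c d x e.1 = c := by
        unfold lossa_st
        rw [if_pos hE1]
      have e2 : lossa_st E u v a b c d x e.2 = d := by
        unfold lossa_st
        rw [if_neg hu2, if_pos hE2]
      rw [e1, e2]
      rcases hcd with ⟨rfl, rfl⟩ | ⟨rfl, rfl⟩ | ⟨rfl, rfl⟩
      · exact h1
      · exact h2
      · exact h3
    · refine key2 _ _ hs1 ?_
      unfold lossa_st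
      rw [if_neg hu2, if_neg hE2, if_pos]
      rw [← hE1]
      exact heE
  · by_cases hE2 : e.2 = v
    · refine key1 _ _ ?_ hs2
      unfold lossa_st
      rw [if_neg hE1, if_neg hv1, if_neg, if_pos]
      · rw [← hE2]
        exact heE
      · intro h
        have := (hbip _ h).2
        simp only at this
        rw [this] at he1
        exact absurd he1 (by simp)
    · rcases heW with heW | heW
      · have h4 := (mem_filter.1 heW).2
        have h5 : ¬ (u, e.1) ∈ E := by
          intro h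
          have := (hbip _ h).2
          simp only at this
          rw [this] at he1
          exact absurd he1 (by simp)
        refine key1 _ _ ?_ hs2
        unfold lossa_st
        rw [if_neg hE1, if_neg hv1, if_neg h5, if_pos (h4.resolve_left h5)]
      · have h4 := (mem_filter.1 heW).2
        have h5 : ¬ (e.2, v) ∈ E := by
          intro h
          have := (hbip _ h).1
          simp only at this
          rw [this] at he2
          exact absurd he2 (by simp)
        refine key2 _ _ hs1 ?_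
        unfold lossa_st
        rw [if_neg hu2, if_neg hE2, if_pos (h4.resolve_right h5)]

/-- comparison of the weights -/
lemma lossa_net {M : D → D → ℝ≥0} {a a' b b' : D} {m0 m1 : ℝ≥0} (h1 : m0 ≤ M a b)
    (h2 : m0 ≤ M a b') (h3 : m0 ≤ M a' b) (k1 : M a b ≤ m1) (k2 : M a b' ≤ m1) (k3 : M a' b ≤ m1)
    (k4 : M a' b' ≤ m1) {E : Finset (K × K)} {col : K → Bool}
    (hbip : ∀ e ∈ E, col e.1 = true ∧ col e.2 = false) (Δ : ℕ)
    (hdeg : ∀ v, (E.filter fun e => e.1 = v ∨ e.2 = v).card ≤ Δ) {u v : K} (huv : (u, v) ∈ E)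
    {c d : D} (hcd : (c = a ∧ d = b) ∨ (c = a ∧ d = b') ∨ (c = a' ∧ d = b)) {x : K → D}
    (hx : x ∈ lossa_Q col a a' b b') :
    net E M x * m0 ^ (2 * Δ * Δ) ≤ net E M (lossa_st E u v a b c d x) * m1 ^ (2 * Δ * Δ) := by
  set A := lossa_A E u v with hA
  have hAE : A ⊆ E := filter_subset _ _
  set y := lossa_st E u v a b c d x with hy
  have hm : m0 ≤ m1 := le_trans h1 k1
  have hsplit : ∀ z : K → D, net E M z = (∏ e ∈ E \ A, M (z e.1) (z e.2)) * ∏ e ∈ A, M (z e.1) (z e.2) := by
    intro z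
    unfold net
    rw [prod_sdiff hAE]
  have hoff : ∏ e ∈ E \ A, M (x e.1) (x e.2) = ∏ e ∈ E \ A, M (y e.1) (y e.2) := by
    refine prod_congr rfl fun e he => ?_
    obtain ⟨heE, heA⟩ := mem_sdiff.1 he
    have h4 : ¬ (e.1 ∈ lossa_W E u v ∨ e.2 ∈ lossa_W E u v) := fun h => heA (mem_filter.2 ⟨heE, h⟩)
    rw [hy, lossa_st_off E huv a b c d x e.1 fun h => h4 (Or.inl h),
      lossa_st_off E huv a b c d x e.2 fun h => h4 (Or.inr h)]
  have hx' := (mem_filter.1 hx).2
  have hup : ∏ e ∈ A, M (x e.1) (x e.2) ≤ m1 ^ A.card := by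
    refine prod_le_pow_card _ _ _ fun e he => ?_
    have hb := hbip e (hAE he)
    rcases (hx' e.1).1 hb.1 with h | h <;> rcases (hx' e.2).2 hb.2 with h' | h' <;> rw [h, h'] <;>
      assumption
  have hlo : m0 ^ A.card ≤ ∏ e ∈ A, M (y e.1) (y e.2) := by
    refine pow_card_le_prod _ _ _ fun e he => ?_
    exact lossa_low h1 h2 h3 hbip huv hcd hx e he
  have hcard : A.card ≤ 2 * Δ * Δ := lossa_card_A E Δ hdeg u v
  obtain ⟨t, ht⟩ := Nat.exists_eq_add_of_le hcard
  rw [hsplit x, hsplit y, hoff, ht, pow_add, pow_add]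
  set P := ∏ e ∈ E \ A, M (y e.1) (y e.2)
  calc P * (∏ e ∈ A, M (x e.1) (x e.2)) * (m0 ^ A.card * m0 ^ t)
      ≤ P * m1 ^ A.card * ((∏ e ∈ A, M (y e.1) (y e.2)) * m1 ^ t) := by
        gcongr
    _ = P * (∏ e ∈ A, M (y e.1) (y e.2)) * (m1 ^ A.card * m1 ^ t) := by ring

/-- the number of preimages -/
lemma lossa_fib {a a' b b' : D} (ha : a ≠ a') (hb : b ≠ b') {E : Finset (K × K)} {col : K → Bool}
    (Δ : ℕ) (hdeg : ∀ v, (E.filter fun e => e.1 = v ∨ e.2 = v).card ≤ Δ) {u v : K}
    (huv : (u, v) ∈ E) (c d : D) (X : Finset (K → D)) (hX : X ⊆ lossa_Q col a a' b b')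
    (z : K → D) : (X.filter fun x => lossa_st E u v a b c d x = z).card ≤ 2 ^ (2 * Δ) := by
  classical
  have h1 : (X.filter fun x => lossa_st E u v a b c d x = z).card ≤
      ((lossa_W E u v).powerset).card := by
    refine card_le_card_of_injOn (fun x => (lossa_W E u v).filter fun w =>
      x w = if col w = true then a else b) ?_ ?_
    · intro x _
      exact mem_coe.2 (mem_powerset.2 (filter_subset _ _))
    · intro x hx y hy hxy
      obtain ⟨hx1, hx2⟩ := mem_filter.1 (mem_coe.1 hx)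
      obtain ⟨hy1, hy2⟩ := mem_filter.1 (mem_coe.1 hy)
      have hx3 := (mem_filter.1 (hX hx1)).2
      have hy3 := (mem_filter.1 (hX hy1)).2
      funext w
      by_cases hw : w ∈ lossa_W E u v
      · have h2 : x w = (if col w = true then a else b) ↔ y w = (if col w = true then a else b) := by
          have h3 := Finset.ext_iff.1 hxy w
          simp only [mem_filter, hw, true_and] at h3
          exact h3
        cases hcol : col w with
        | true =>
          rw [if_pos hcol] at h2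
          rcases (hx3 w).1 hcol with h4 | h4 <;> rcases (hy3 w).1 hcol with h5 | h5
          · rw [h4, h5]
          · exact absurd ((h5.symm.trans (h2.1 h4)).symm) ha
          · exact absurd ((h4.symm.trans (h2.2 h5)).symm) ha
          · rw [h4, h5]
        | false =>
          rw [if_neg (by rw [hcol]; simp)] at h2
          rcases (hx3 w).2 hcol with h4 | h4 <;> rcases (hy3 w).2 hcol with h5 | h5
          · rw [h4, h5]
          · exact absurd ((h5.symm.trans (h2.1 h4)).symm) hb
          · exact absurd ((h4.symm.trans (h2.2 h5)).symm) hb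
          · rw [h4, h5]
      · have h6 := congrFun (hx2.trans hy2.symm) w
        rw [lossa_st_off E huv a b c d x w hw, lossa_st_off E huv a b c d y w hw] at h6
        exact h6
  refine le_trans h1 ?_
  rw [card_powerset]
  exact Nat.pow_le_pow_right (by norm_num) (lossa_card_W E Δ hdeg u v)

/-- each edge of `J` has a forbidden value -/
lemma lossa_tau {M : D → D → ℝ≥0} {a a' b b' : D} (hz : M a' b' = 0)
    {E : Finset (K × K)} {u v : K} (huv : (u, v) ∈ E) (hne : u ≠ v) {T : (K → D) → ℝ≥0}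
    (hT : ∀ x, T x ≤ net E M x) (hP : PairB T u v) :
    ∃ c d : D, ((c = a ∧ d = b) ∨ (c = a ∧ d = b') ∨ (c = a' ∧ d = b)) ∧
      ∀ x : K → D, x u = c → x v = d → T x = 0 := by
  classical
  set R : Finset K := univ.filter fun w => w ≠ u ∧ w ≠ v with hR
  have hu : u ∉ R := fun h => (mem_filter.1 h).2.1 rfl
  have hv : v ∉ R := fun h => (mem_filter.1 h).2.2 rfl
  let base : K → D := fun _ => a
  let f : D → D → K → D := fun c d => Function.update (Function.update base u c) v d
  have fu : ∀ c d, f c d u = c := by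
    intro c d
    simp only [f]
    rw [Function.update_of_ne hne, Function.update_self]
  have fv : ∀ c d, f c d v = d := by
    intro c d
    simp only [f]
    rw [Function.update_self]
  have fo : ∀ c d w, w ≠ u → w ≠ v → f c d w = a := by
    intro c d w h1 h2
    simp only [f]
    rw [Function.update_of_ne h2, Function.update_of_ne h1]
  have hzero : ∀ c d, marg R T (f c d) = 0 → ∀ x : K → D, x u = c → x v = d → T x = 0 := by
    intro c d h x h1 h2
    unfold marg at h
    rw [sum_eq_zero_iff] at h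
    refine h x (mem_filter.2 ⟨mem_univ _, fun w hw => ?_⟩)
    have h3 : w = u ∨ w = v := by
      by_contra h4
      push Not at h4
      exact hw (mem_filter.2 ⟨mem_univ _, h4⟩)
    rcases h3 with rfl | rfl
    · rw [h1, fu]
    · rw [h2, fv]
  have h0 : marg R T (f a' b') = 0 := by
    unfold marg
    refine sum_eq_zero fun x hx => ?_
    have hx' := (mem_filter.1 hx).2
    have h1 : x u = a' := by rw [hx' u hu, fu]
    have h2 : x v = b' := by rw [hx' v hv, fv]
    have h3 : net E M x = 0 := by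
      unfold net
      refine prod_eq_zero huv ?_
      simp only
      rw [h1, h2, hz]
    exact le_antisymm (h3 ▸ hT x) bot_le
  have hcross := hP R (f a b) (f a' b') (fun w h1 h2 => by rw [fo _ _ w h1 h2, fo _ _ w h1 h2])
  have p1 : ({u} : Finset K).piecewise (f a b) (f a' b') = f a b' := by
    funext w
    by_cases h1 : w = u
    · subst h1
      rw [piecewise_eq_of_mem _ _ _ (mem_singleton_self _), fu, fu]
    · rw [piecewise_eq_of_notMem _ _ _ (fun h => h1 (mem_singleton.1 h))]
      by_cases h2 : w = v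
      · subst h2
        rw [fv, fv]
      · rw [fo _ _ w h1 h2, fo _ _ w h1 h2]
  have p2 : ({u} : Finset K).piecewise (f a' b') (f a b) = f a' b := by
    funext w
    by_cases h1 : w = u
    · subst h1
      rw [piecewise_eq_of_mem _ _ _ (mem_singleton_self _), fu, fu]
    · rw [piecewise_eq_of_notMem _ _ _ (fun h => h1 (mem_singleton.1 h))]
      by_cases h2 : w = v
      · subst h2
        rw [fv, fv]
      · rw [fo _ _ w h1 h2, fo _ _ w h1 h2]
  unfold Cross at hcross
  rw [p1, p2, h0] at hcross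
  unfold Four at hcross
  rcases hcross with h | h | h
  · rw [mul_zero] at h
    rcases mul_eq_zero.1 h.symm with h | h
    · exact ⟨a, b', Or.inr (Or.inl ⟨rfl, rfl⟩), hzero _ _ h⟩
    · exact ⟨a', b, Or.inr (Or.inr ⟨rfl, rfl⟩), hzero _ _ h⟩
  · exact ⟨a, b, Or.inl ⟨rfl, rfl⟩, hzero _ _ h.1⟩
  · exact ⟨a, b', Or.inr (Or.inl ⟨rfl, rfl⟩), hzero _ _ h.1⟩

lemma lossa_step {M : D → D → ℝ≥0} {a a' b b' : D} (ha : a ≠ a') (hb : b ≠ b') {m0 m1 : ℝ≥0}
    (h1 : m0 ≤ M a b) (h2 : m0 ≤ M a b') (h3 : m0 ≤ M a' b) (k1 : M a b ≤ m1) (k2 : M a b' ≤ m1)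
    (k3 : M a' b ≤ m1) (k4 : M a' b' ≤ m1) {E : Finset (K × K)} {col : K → Bool}
    (hbip : ∀ e ∈ E, col e.1 = true ∧ col e.2 = false) (Δ : ℕ)
    (hdeg : ∀ v, (E.filter fun e => e.1 = v ∨ e.2 = v).card ≤ Δ) {u v : K} (huv : (u, v) ∈ E)
    {c d : D} (hcd : (c = a ∧ d = b) ∨ (c = a ∧ d = b') ∨ (c = a' ∧ d = b)) (X : Finset (K → D))
    (hX : X ⊆ lossa_Q col a a' b b') (hst : ∀ x ∈ X, lossa_st E u v a b c d x ∈ X) :
    (∑ x ∈ X, net E M x) * m0 ^ (2 * Δ * Δ) ≤
      2 ^ (2 * Δ) * m1 ^ (2 * Δ * Δ) * ∑ x ∈ X.filter (fun x => x u = c ∧ x v = d), net E M x := by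
  classical
  have hne : u ≠ v := by
    rintro rfl
    have := hbip _ huv
    simp only at this
    rw [this.1] at this
    exact absurd this.2 (by simp)
  calc (∑ x ∈ X, net E M x) * m0 ^ (2 * Δ * Δ)
      = ∑ x ∈ X, net E M x * m0 ^ (2 * Δ * Δ) := sum_mul _ _ _
    _ ≤ ∑ x ∈ X, net E M (lossa_st E u v a b c d x) * m1 ^ (2 * Δ * Δ) :=
        sum_le_sum fun x hx => lossa_net h1 h2 h3 k1 k2 k3 k4 hbip Δ hdeg huv hcd (hX hx)
    _ = (∑ x ∈ X, net E M (lossa_st E u v a b c d x)) * m1 ^ (2 * Δ * Δ) := (sum_mul _ _ _).symm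
    _ ≤ (2 ^ (2 * Δ) * ∑ x ∈ X.filter (fun x => x u = c ∧ x v = d), net E M x) *
          m1 ^ (2 * Δ * Δ) := by
        gcongr
        rw [sum_comp (net E M) (lossa_st E u v a b c d), mul_sum]
        refine le_trans (sum_le_sum (g := fun z => 2 ^ (2 * Δ) * net E M z) fun z _ => ?_)
          (sum_le_sum_of_subset ?_)
        · rw [nsmul_eq_mul]
          refine mul_le_mul_left (le_trans (Nat.cast_le.2
            (lossa_fib ha hb Δ hdeg huv c d X hX z)) ?_) _
          push_cast
          exact le_rfl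
        · intro z hz
          obtain ⟨x, hx, rfl⟩ := mem_image.1 hz
          refine mem_filter.2 ⟨hst x hx, ?_, ?_⟩
          · unfold lossa_st
            rw [if_pos rfl]
          · unfold lossa_st
            rw [if_neg hne.symm, if_pos rfl]
    _ = _ := by ring

end

theorem thm_LossA : St_LossA := by
  intro D _ _ M a a' b b' hab hab' ha'b hz Δ
  classical
  have ha : a ≠ a' := by
    rintro rfl
    exact hab' hz
  have hb : b ≠ b' := by
    rintro rfl
    exact ha'b hz
  set m0 : ℝ≥0 := min (M a b) (min (M a b') (M a' b)) with hm0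
  set m1 : ℝ≥0 := max (M a b) (max (M a b') (M a' b)) with hm1
  have h1 : m0 ≤ M a b := min_le_left _ _
  have h2 : m0 ≤ M a b' := le_trans (min_le_right _ _) (min_le_left _ _)
  have h3 : m0 ≤ M a' b := le_trans (min_le_right _ _) (min_le_right _ _)
  have k1 : M a b ≤ m1 := le_max_left _ _
  have k2 : M a b' ≤ m1 := le_trans (le_max_left _ _) (le_max_right _ _)
  have k3 : M a' b ≤ m1 := le_trans (le_max_right _ _) (le_max_right _ _)
  have k4 : M a' b' ≤ m1 := by
    rw [hz]
    exact bot_le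
  have p0 : 0 < m0 := lt_min (pos_iff_ne_zero.2 hab) (lt_min (pos_iff_ne_zero.2 hab')
    (pos_iff_ne_zero.2 ha'b))
  have p01 : m0 ≤ m1 := le_trans h1 k1
  have p1 : 0 < m1 := lt_of_lt_of_le p0 p01
  set c0 : ℝ := (m0 : ℝ) ^ (2 * Δ * Δ) with hc0
  set c1 : ℝ := 2 ^ (2 * Δ) * (m1 : ℝ) ^ (2 * Δ * Δ) with hc1
  have q0 : 0 < c0 := pow_pos (NNReal.coe_pos.2 p0) _
  have q1 : 0 < c1 := mul_pos (pow_pos (by norm_num) _) (pow_pos (NNReal.coe_pos.2 p1) _)
  have q01 : c0 ≤ c1 := by
    have e1 : c0 ≤ (m1 : ℝ) ^ (2 * Δ * Δ) := by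
      rw [hc0]
      gcongr
    have e2 : (1 : ℝ) ≤ 2 ^ (2 * Δ) := one_le_pow₀ (by norm_num)
    have e3 : 0 ≤ (m1 : ℝ) ^ (2 * Δ * Δ) := le_trans q0.le e1
    rw [hc1]
    nlinarith
  refine ⟨c0 / c1 / 2, by positivity, ?_, ?_⟩
  · have : c0 / c1 ≤ 1 := (div_le_one q1).2 q01
    linarith
  intro K _ _ E col hB J hJ T hT hP
  obtain ⟨hJE, hJI⟩ := hJ
  change ((∑ x ∈ lossa_Q col a a' b b', T x : ℝ≥0) : ℝ) ≤ _ *
    ((∑ x ∈ lossa_Q col a a' b b', net E M x : ℝ≥0) : ℝ)
  have hne : ∀ e ∈ E, e.1 ≠ e.2 := by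
    intro e he h
    have := hB.bip e he
    rw [h] at this
    rw [this.1] at this
    exact absurd this.2 (by simp)
  have htau : ∀ e : K × K, ∃ cd : D × D, e ∈ J →
      (((cd.1 = a ∧ cd.2 = b) ∨ (cd.1 = a ∧ cd.2 = b') ∨ (cd.1 = a' ∧ cd.2 = b)) ∧
        ∀ x : K → D, x e.1 = cd.1 → x e.2 = cd.2 → T x = 0) := by
    intro e
    by_cases he : e ∈ J
    · obtain ⟨c, d, h, h'⟩ := lossa_tau hz (E := E) (u := e.1) (v := e.2) (hJE he)
        (hne e (hJE he)) hT (hP e he)
      exact ⟨(c, d), fun _ => ⟨h, h'⟩⟩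
    · exact ⟨(a, b), fun h => absurd h he⟩
  choose τ hτ using htau
  set Y : Finset (K × K) → Finset (K → D) := fun J' =>
    (lossa_Q col a a' b b').filter fun x => ∀ e ∈ J', ¬ (x e.1 = (τ e).1 ∧ x e.2 = (τ e).2) with hY
  -- the sum of `T` lives on `Y J`
  have hT1 : ∑ x ∈ lossa_Q col a a' b b', T x ≤ ∑ x ∈ Y J, net E M x := by
    have e1 : ∑ x ∈ Y J, T x = ∑ x ∈ lossa_Q col a a' b b', T x := by
      refine sum_subset (filter_subset _ _) fun x hx hx' => ?_
      have h4 : ¬ ∀ e ∈ J, ¬ (x e.1 = (τ e).1 ∧ x e.2 = (τ e).2) := fun h =>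
        hx' (mem_filter.2 ⟨hx, h⟩)
      push Not at h4
      obtain ⟨e, he, h5, h6⟩ := h4
      exact (hτ e he).2 x h5 h6
    rw [← e1]
    exact sum_le_sum fun x _ => hT x
  have key : ∀ J' ⊆ J, ((∑ x ∈ Y J', net E M x : ℝ≥0) : ℝ) ≤ (1 - c0 / c1 / 2) ^ J'.card *
      ((∑ x ∈ lossa_Q col a a' b b', net E M x : ℝ≥0) : ℝ) := by
    intro J'
    induction J' using Finset.induction_on with
    | empty =>
      intro _
      rw [card_empty, pow_zero, one_mul]
      exact NNReal.coe_le_coe.2 (sum_le_sum_of_subset (filter_subset _ _))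
    | insert e J' heJ' ih =>
      intro hsub
      have heJ : e ∈ J := hsub (mem_insert_self _ _)
      have hJ'J : J' ⊆ J := fun f hf => hsub (mem_insert_of_mem hf)
      have ih' := ih hJ'J
      obtain ⟨u, v⟩ := e
      have huv : (u, v) ∈ E := hJE heJ
      have hstep := lossa_step ha hb h1 h2 h3 k1 k2 k3 k4 hB.bip Δ hB.deg huv (hτ _ heJ).1 (Y J')
        (filter_subset _ _) (fun x hx => by
          obtain ⟨hx1, hx2⟩ := mem_filter.1 hx
          have hc : (τ (u, v)).1 = a ∨ (τ (u, v)).1 = a' := by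
            have := (hτ _ heJ).1
            tauto
          have hd : (τ (u, v)).2 = b ∨ (τ (u, v)).2 = b' := by
            have := (hτ _ heJ).1
            tauto
          refine mem_filter.2 ⟨lossa_st_mem hB.bip huv hc hd hx1, fun f hf => ?_⟩
          have hfne : (u, v) ≠ f := fun h => heJ' (h ▸ hf)
          have hI := hJI (u, v) heJ f (hJ'J hf) hfne
          have hI1 := hI u f.1 (Or.inl rfl) (Or.inl rfl)
          have hI2 := hI u f.2 (Or.inl rfl) (Or.inr rfl)
          have hI3 := hI v f.1 (Or.inr rfl) (Or.inl rfl)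
          have hI4 := hI v f.2 (Or.inr rfl) (Or.inr rfl)
          have hW1 : f.1 ∉ lossa_W E u v := by
            intro h
            rcases (mem_filter.1 h).2 with h | h
            · exact hI1.2.1 h
            · exact hI3.2.2 h
          have hW2 : f.2 ∉ lossa_W E u v := by
            intro h
            rcases (mem_filter.1 h).2 with h | h
            · exact hI2.2.1 h
            · exact hI4.2.2 h
          rw [lossa_st_off E huv _ _ _ _ x f.1 hW1, lossa_st_off E huv _ _ _ _ x f.2 hW2]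
          exact hx2 f hf)
      have hsum : ∑ x ∈ Y (insert (u, v) J'), net E M x +
          ∑ x ∈ (Y J').filter (fun x => x u = (τ (u, v)).1 ∧ x v = (τ (u, v)).2), net E M x =
          ∑ x ∈ Y J', net E M x := by
        have e1 : Y (insert (u, v) J') =
            (Y J').filter (fun x => ¬ (x u = (τ (u, v)).1 ∧ x v = (τ (u, v)).2)) := by
          ext x
          simp only [hY, mem_filter, mem_insert, forall_eq_or_imp]
          tauto
        rw [e1, add_comm]
        exact sum_filter_add_sum_filter_not _ _ _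
      have hstep' := NNReal.coe_le_coe.2 hstep
      have hsum' := congrArg (fun t : ℝ≥0 => (t : ℝ)) hsum
      rw [NNReal.coe_add] at hsum'
      push_cast at hstep'
      set S0 : ℝ := ((∑ x ∈ lossa_Q col a a' b b', net E M x : ℝ≥0) : ℝ)
      set S1 : ℝ := ((∑ x ∈ Y J', net E M x : ℝ≥0) : ℝ) with hS1
      set S2 : ℝ := ((∑ x ∈ (Y J').filter (fun x => x u = (τ (u, v)).1 ∧ x v = (τ (u, v)).2),
        net E M x : ℝ≥0) : ℝ) with hS2
      have hstep2 : S1 * c0 ≤ c1 * S2 := by
        rw [hS1, hS2, hc0, hc1]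
        push_cast
        exact hstep'
      have hS1n : 0 ≤ S1 := NNReal.coe_nonneg _
      rw [card_insert_of_notMem heJ', pow_succ]
      have e2 : S1 * (c0 / c1) ≤ S2 := by
        rw [mul_div_assoc', div_le_iff₀ q1]
        linarith
      have e3 : 0 ≤ c0 / c1 := by positivity
      have e4 : ((∑ x ∈ Y (insert (u, v) J'), net E M x : ℝ≥0) : ℝ) = S1 - S2 := by linarith
      rw [e4]
      have e5 : c0 / c1 ≤ 1 := (div_le_one q1).2 q01
      have e6 : 0 ≤ 1 - c0 / c1 / 2 := by linarith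
      calc S1 - S2 ≤ S1 * (1 - c0 / c1 / 2) := by nlinarith [mul_nonneg hS1n e3]
        _ ≤ ((1 - c0 / c1 / 2) ^ J'.card * S0) * (1 - c0 / c1 / 2) :=
            mul_le_mul_of_nonneg_right ih' e6
        _ = _ := by ring
  exact le_trans (NNReal.coe_le_coe.2 hT1) (key J subset_rfl)

end Pool.Agent.WD
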