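import Pool.Agent.WD.LossB1

/-!
# [LossB] the loss in the case of a rectangular support
-/

set_option autoImplicit false

namespace Pool.Agent.WD

open Finset
open scoped NNReal

/-- the form of the core lemma (`WD/LossB1.lean`) -/
def lossb_Core : Prop :=
  ∀ (J Om : Type) [Fintype J] [DecidableEq J] [Fintype Om] [DecidableEq Om] (φ : J → Om → ℝ≥0),
    (∀ j, 0 < ∑ o, φ j o) → ∀ (T : (J → Om) → ℝ≥0) (C : ℝ≥0), (∀ w, T w ≤ C * ∏ j, φ j (w j)) →
    ∀ ε : ℝ, 0 < ε → ε ≤ 1 → ∀ A : J → Finset Om,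
    (∀ j, (((∑ o ∈ A j, φ j o : ℝ≥0) : ℝ) / ((∑ o, φ j o : ℝ≥0) : ℝ) + ε) *
      ((∑ w, T w : ℝ≥0) : ℝ) ≤
        ((∑ w ∈ univ.filter (fun w : J → Om => w j ∈ A j), T w : ℝ≥0) : ℝ)) →
    ((∑ w, T w : ℝ≥0) : ℝ) ≤ Real.exp (-ε ^ 2 / 4) ^ Fintype.card J *
      ((C * ∏ j, ∑ o, φ j o : ℝ≥0) : ℝ)

theorem lossb_mul {x y x' y' ε : ℝ} (h1 : |x' - x| < ε) (h2 : |y' - y| < ε) (hy0 : 0 ≤ y)
    (hy : y ≤ 1) (hx0 : 0 ≤ x') (hx : x' ≤ 1) : |x * y - x' * y'| ≤ 2 * ε := by
  have e : x * y - x' * y' = -((x' - x) * y) - x' * (y' - y) := by ring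
  rw [e]
  calc |-((x' - x) * y) - x' * (y' - y)| ≤ |-((x' - x) * y)| + |x' * (y' - y)| := abs_sub _ _
    _ = |x' - x| * y + x' * |y' - y| := by
        rw [abs_neg, abs_mul, abs_mul, abs_of_nonneg hy0, abs_of_nonneg hx0]
    _ ≤ ε * 1 + 1 * ε :=
        add_le_add (mul_le_mul h1.le hy hy0 ((abs_nonneg _).trans h1.le))
          (mul_le_mul hx h2.le (abs_nonneg _) zero_le_one)
    _ = 2 * ε := by ring

theorem lossb_four {m1 m2 m3 m4 n1 n2 n3 n4 θ κ ε : ℝ} (hε : 0 < ε) (h1 : ε ≤ κ / 5)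
    (h2 : ε ≤ θ / 2) (a1 : θ ≤ m1) (a2 : θ ≤ m2) (a3 : θ ≤ m3) (a4 : θ ≤ m4)
    (b3 : m3 ≤ 1) (b4 : m4 ≤ 1) (c1 : n1 ≤ 1) (c2 : n2 ≤ 1)
    (hm : κ ≤ |m1 * m4 - m2 * m3|)
    (hn : n1 * n4 = n2 * n3 ∨ (n1 = 0 ∧ n4 = 0) ∨ (n2 = 0 ∧ n3 = 0)) :
    ε ≤ |n1 - m1| ∨ ε ≤ |n2 - m2| ∨ ε ≤ |n3 - m3| ∨ ε ≤ |n4 - m4| := by
  by_contra hcon
  push Not at hcon
  obtain ⟨d1, d2, d3, d4⟩ := hcon
  have e1 := abs_lt.mp d1
  have e2 := abs_lt.mp d2
  rcases hn with hn | hn | hn
  · have k1 := lossb_mul d1 d4 (by linarith) b4 (by linarith) c1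
    have k2 := lossb_mul d2 d3 (by linarith) b3 (by linarith) c2
    have k3 : m1 * m4 - m2 * m3 = (m1 * m4 - n1 * n4) - (m2 * m3 - n2 * n3) := by
      rw [hn]; ring
    rw [k3] at hm
    have k4 := abs_sub (m1 * m4 - n1 * n4) (m2 * m3 - n2 * n3)
    linarith
  · linarith [hn.1]
  · linarith [hn.1]

/-- choice of the set `A` -/
theorem lossb_set {D : Type} [Fintype D] [DecidableEq D] (φ N : D × D → ℝ≥0) (a a' b b' : D)
    {θ κ ε : ℝ} (hε : 0 < ε) (h1 : ε ≤ κ / 5) (h2 : ε ≤ θ / 2) (hφ : 0 < ∑ o, φ o)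
    (hN : 0 < ∑ o, N o) (hF : Four (N (a, b)) (N (a, b')) (N (a', b)) (N (a', b')))
    (hθ : ∀ c d, (c = a ∨ c = a') → (d = b ∨ d = b') →
      θ * ((∑ o, φ o : ℝ≥0) : ℝ) ≤ (φ (c, d) : ℝ))
    (hκ : κ * ((∑ o, φ o : ℝ≥0) : ℝ) ^ 2 ≤
      |(φ (a, b) : ℝ) * φ (a', b') - φ (a, b') * φ (a', b)|) :
    ∃ A : Finset (D × D), (((∑ o ∈ A, φ o : ℝ≥0) : ℝ) / ((∑ o, φ o : ℝ≥0) : ℝ) + ε) *
      ((∑ o, N o : ℝ≥0) : ℝ) ≤ ((∑ o ∈ A, N o : ℝ≥0) : ℝ) := by
  have hS : (0 : ℝ) < ((∑ o, φ o : ℝ≥0) : ℝ) := by exact_mod_cast hφ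
  have hT : (0 : ℝ) < ((∑ o, N o : ℝ≥0) : ℝ) := by exact_mod_cast hN
  have le1 : ∀ (f : D × D → ℝ≥0) (o : D × D), ((f o : ℝ≥0) : ℝ) ≤ ((∑ o, f o : ℝ≥0) : ℝ) := by
    intro f o
    have : f o ≤ ∑ o, f o := Finset.single_le_sum (fun _ _ => zero_le) (Finset.mem_univ o)
    exact_mod_cast this
  have key : ∃ o : D × D, ε ≤ |(N o : ℝ) / ((∑ o, N o : ℝ≥0) : ℝ) -
      (φ o : ℝ) / ((∑ o, φ o : ℝ≥0) : ℝ)| := by
    have hm : κ ≤ |(φ (a, b) : ℝ) / ((∑ o, φ o : ℝ≥0) : ℝ) * ((φ (a', b') : ℝ) /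
        ((∑ o, φ o : ℝ≥0) : ℝ)) - (φ (a, b') : ℝ) / ((∑ o, φ o : ℝ≥0) : ℝ) * ((φ (a', b) : ℝ) /
        ((∑ o, φ o : ℝ≥0) : ℝ))| := by
      rw [div_mul_div_comm, div_mul_div_comm, ← sub_div, abs_div, ← sq, abs_of_pos (pow_pos hS 2),
        le_div_iff₀ (pow_pos hS 2)]
      exact hκ
    have hn : (N (a, b) : ℝ) / ((∑ o, N o : ℝ≥0) : ℝ) * ((N (a', b') : ℝ) /
        ((∑ o, N o : ℝ≥0) : ℝ)) = (N (a, b') : ℝ) / ((∑ o, N o : ℝ≥0) : ℝ) * ((N (a', b) : ℝ) /
        ((∑ o, N o : ℝ≥0) : ℝ)) ∨ ((N (a, b) : ℝ) / ((∑ o, N o : ℝ≥0) : ℝ) = 0 ∧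
        (N (a', b') : ℝ) / ((∑ o, N o : ℝ≥0) : ℝ) = 0) ∨
        ((N (a, b') : ℝ) / ((∑ o, N o : ℝ≥0) : ℝ) = 0 ∧
        (N (a', b) : ℝ) / ((∑ o, N o : ℝ≥0) : ℝ) = 0) := by
      rcases hF with hF | hF | hF
      · left
        rw [div_mul_div_comm, div_mul_div_comm]
        have : (N (a, b) : ℝ) * N (a', b') = N (a, b') * N (a', b) := by exact_mod_cast hF
        rw [this]
      · right; left
        rw [hF.1, hF.2]; simp
      · right; right
        rw [hF.1, hF.2]; simp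
    have hθ' : ∀ c d, (c = a ∨ c = a') → (d = b ∨ d = b') →
        θ ≤ (φ (c, d) : ℝ) / ((∑ o, φ o : ℝ≥0) : ℝ) := by
      intro c d hc hd
      rw [le_div_iff₀ hS]
      exact hθ c d hc hd
    rcases lossb_four hε h1 h2 (hθ' a b (Or.inl rfl) (Or.inl rfl))
      (hθ' a b' (Or.inl rfl) (Or.inr rfl)) (hθ' a' b (Or.inr rfl) (Or.inl rfl))
      (hθ' a' b' (Or.inr rfl) (Or.inr rfl)) ((div_le_one hS).2 (le1 φ _))
      ((div_le_one hS).2 (le1 φ _)) ((div_le_one hT).2 (le1 N _)) ((div_le_one hT).2 (le1 N _))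
      hm hn with h | h | h | h
    · exact ⟨_, h⟩
    · exact ⟨_, h⟩
    · exact ⟨_, h⟩
    · exact ⟨_, h⟩
  obtain ⟨o, ho⟩ := key
  rcases le_abs.mp ho with ho | ho
  · refine ⟨{o}, ?_⟩
    rw [Finset.sum_singleton, Finset.sum_singleton, ← le_div_iff₀ hT]
    linarith
  · refine ⟨{o}ᶜ, ?_⟩
    have c1 : ∀ f : D × D → ℝ≥0, ((∑ o ∈ ({o} : Finset (D × D))ᶜ, f o : ℝ≥0) : ℝ) =
        ((∑ o, f o : ℝ≥0) : ℝ) - f o := by
      intro f
      have := Finset.sum_compl_add_sum ({o} : Finset (D × D)) f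
      rw [Finset.sum_singleton] at this
      rw [← this]
      push_cast
      ring
    rw [c1, c1, ← le_div_iff₀ hT, sub_div, sub_div, div_self hS.ne', div_self hT.ne']
    linarith

/-! ### gluing -/

section glue

variable {D K : Type} [DecidableEq K]

/-- the ends of the edges of `J` -/
def lossb_P (J : Finset (K × K)) : Finset K := J.image Prod.fst ∪ J.image Prod.snd

/-- the three properties of the matching `J` -/
structure lossb_Mat (J : Finset (K × K)) : Prop where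
  inj1 : ∀ f g : J, f.1.1 = g.1.1 → f = g
  inj2 : ∀ f g : J, f.1.2 = g.1.2 → f = g
  ne : ∀ f g : J, f.1.1 ≠ g.1.2

theorem lossb_mem (J : Finset (K × K)) (k : K) :
    k ∈ lossb_P J ↔ ∃ f : J, f.1.1 = k ∨ f.1.2 = k := by
  unfold lossb_P
  rw [Finset.mem_union, Finset.mem_image, Finset.mem_image]
  constructor
  · rintro (⟨f, hf, h⟩ | ⟨f, hf, h⟩)
    · exact ⟨⟨f, hf⟩, Or.inl h⟩
    · exact ⟨⟨f, hf⟩, Or.inr h⟩
  · rintro ⟨f, h | h⟩
    · exact Or.inl ⟨f.1, f.2, h⟩
    · exact Or.inr ⟨f.1, f.2, h⟩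

open Classical in
/-- the assignment with the values `w` on the ends of `J` and `z` elsewhere -/
noncomputable def lossb_comb (J : Finset (K × K)) (z : K → D) (w : J → D × D) (k : K) : D :=
  if h : ∃ f : J, f.1.1 = k then (w h.choose).1 else
    if h : ∃ f : J, f.1.2 = k then (w h.choose).2 else z k

/-- the assignment with the values `o` on the ends of `f` and `z` elsewhere -/
def lossb_upd {J : Finset (K × K)} (z : K → D) (f : J) (o : D × D) : K → D :=
  Function.update (Function.update z f.1.1 o.1) f.1.2 o.2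

variable {J : Finset (K × K)} (hJ : lossb_Mat J)

include hJ in
theorem lossb_comb1 (z : K → D) (w : J → D × D) (f : J) : lossb_comb J z w f.1.1 = (w f).1 := by
  unfold lossb_comb
  have h : ∃ g : J, g.1.1 = f.1.1 := ⟨f, rfl⟩
  rw [dif_pos h, hJ.inj1 _ _ h.choose_spec]

include hJ in
theorem lossb_comb2 (z : K → D) (w : J → D × D) (f : J) : lossb_comb J z w f.1.2 = (w f).2 := by
  unfold lossb_comb
  have h1 : ¬ ∃ g : J, g.1.1 = f.1.2 := by
    rintro ⟨g, hg⟩
    exact hJ.ne g f hg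
  have h : ∃ g : J, g.1.2 = f.1.2 := ⟨f, rfl⟩
  rw [dif_neg h1, dif_pos h, hJ.inj2 _ _ h.choose_spec]

theorem lossb_comb0 (z : K → D) (w : J → D × D) (k : K) (hk : k ∉ lossb_P J) :
    lossb_comb J z w k = z k := by
  rw [lossb_mem] at hk
  push Not at hk
  unfold lossb_comb
  rw [dif_neg (fun ⟨f, hf⟩ => (hk f).1 hf), dif_neg (fun ⟨f, hf⟩ => (hk f).2 hf)]

include hJ in
theorem lossb_upd1 (z : K → D) (f : J) (o : D × D) : lossb_upd z f o f.1.1 = o.1 := by
  unfold lossb_upd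
  rw [Function.update_of_ne (hJ.ne f f), Function.update_self]

theorem lossb_upd2 (z : K → D) (f : J) (o : D × D) : lossb_upd z f o f.1.2 = o.2 := by
  unfold lossb_upd
  rw [Function.update_self]

theorem lossb_upd0 (z : K → D) (f : J) (o : D × D) (k : K) (h1 : k ≠ f.1.1) (h2 : k ≠ f.1.2) :
    lossb_upd z f o k = z k := by
  unfold lossb_upd
  rw [Function.update_of_ne h2, Function.update_of_ne h1]

include hJ in
theorem lossb_comb_upd (z : K → D) (w : J → D × D) (f : J) (k : K)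
    (hk : k ∉ lossb_P J \ {f.1.1, f.1.2}) : lossb_comb J z w k = lossb_upd z f (w f) k := by
  rw [Finset.mem_sdiff, Finset.mem_insert, Finset.mem_singleton] at hk
  by_cases h1 : k = f.1.1
  · rw [h1, lossb_comb1 hJ, lossb_upd1 hJ]
  by_cases h2 : k = f.1.2
  · rw [h2, lossb_comb2 hJ, lossb_upd2]
  have h3 : k ∉ lossb_P J := by
    intro h
    apply hk
    refine ⟨h, ?_⟩
    rintro (h | h)
    · exact h1 h
    · exact h2 h
  rw [lossb_comb0 z w k h3, lossb_upd0 z f (w f) k h1 h2]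

include hJ in
theorem lossb_comb_self (z y : K → D) (h : ∀ k, k ∉ lossb_P J → y k = z k) :
    lossb_comb J z (fun f : J => (y f.1.1, y f.1.2)) = y := by
  funext k
  by_cases hk : k ∈ lossb_P J
  · rw [lossb_mem] at hk
    obtain ⟨f, hf | hf⟩ := hk
    · rw [← hf, lossb_comb1 hJ]
    · rw [← hf, lossb_comb2 hJ]
  · rw [lossb_comb0 z _ k hk, h k hk]

variable [Fintype D] [DecidableEq D] [Fintype K]

include hJ in
theorem lossb_marg (g : (K → D) → ℝ≥0) (z : K → D) :
    marg (lossb_P J) g z = ∑ w : J → D × D, g (lossb_comb J z w) := by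
  unfold marg
  refine Finset.sum_nbij' (fun y => fun f : J => (y f.1.1, y f.1.2)) (fun w => lossb_comb J z w)
    (fun _ _ => Finset.mem_univ _) ?_ ?_ ?_ ?_
  · intro w _
    rw [Finset.mem_filter]
    exact ⟨Finset.mem_univ _, fun v hv => lossb_comb0 z w v hv⟩
  · intro y hy
    rw [Finset.mem_filter] at hy
    exact lossb_comb_self hJ z y hy.2
  · intro w _
    funext f
    rw [lossb_comb1 hJ, lossb_comb2 hJ]
  · intro y hy
    rw [Finset.mem_filter] at hy
    rw [lossb_comb_self hJ z y hy.2]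

include hJ in
theorem lossb_margf (g : (K → D) → ℝ≥0) (z : K → D) (f : J) (o : D × D) :
    marg (lossb_P J \ {f.1.1, f.1.2}) g (lossb_upd z f o) =
      ∑ w ∈ univ.filter (fun w : J → D × D => w f = o), g (lossb_comb J z w) := by
  unfold marg
  have hoff : ∀ y : K → D, (∀ v, v ∉ lossb_P J \ {f.1.1, f.1.2} → y v = lossb_upd z f o v) →
      ∀ k, k ∉ lossb_P J → y k = z k := by
    intro y hy k hk
    have h1 : k ∉ lossb_P J \ {f.1.1, f.1.2} := fun h => hk (Finset.mem_sdiff.1 h).1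
    rw [hy k h1]
    rw [lossb_mem] at hk
    push Not at hk
    exact lossb_upd0 z f o k (fun h => (hk f).1 h.symm) (fun h => (hk f).2 h.symm)
  refine Finset.sum_nbij' (fun y => fun f : J => (y f.1.1, y f.1.2)) (fun w => lossb_comb J z w)
    ?_ ?_ ?_ ?_ ?_
  · intro y hy
    rw [Finset.mem_filter] at hy ⊢
    refine ⟨Finset.mem_univ _, ?_⟩
    simp only
    rw [hy.2 f.1.1 (fun h => (Finset.mem_sdiff.1 h).2 (Finset.mem_insert_self _ _)),
      hy.2 f.1.2 (fun h => (Finset.mem_sdiff.1 h).2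
        (Finset.mem_insert_of_mem (Finset.mem_singleton_self _))), lossb_upd1 hJ, lossb_upd2]
  · intro w hw
    rw [Finset.mem_filter] at hw ⊢
    refine ⟨Finset.mem_univ _, fun v hv => ?_⟩
    rw [lossb_comb_upd hJ z w f v hv, hw.2]
  · intro y hy
    rw [Finset.mem_filter] at hy
    exact lossb_comb_self hJ z y (hoff y hy.2)
  · intro w _
    funext f
    rw [lossb_comb1 hJ, lossb_comb2 hJ]
  · intro y hy
    rw [Finset.mem_filter] at hy
    rw [lossb_comb_self hJ z y (hoff y hy.2)]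

end glue

/-! ### products -/

section prods

variable {D K : Type} [DecidableEq K]

/-- the edges touching `f` -/
def lossb_tch (E : Finset (K × K)) {J : Finset (K × K)} (f : J) : Finset (K × K) :=
  E.filter fun e => e.1 = f.1.1 ∨ e.2 = f.1.2

/-- the function of the two values on the ends of `f` -/
def lossb_phi (E : Finset (K × K)) (M : D → D → ℝ≥0) {J : Finset (K × K)} (z : K → D) (f : J)
    (o : D × D) : ℝ≥0 :=
  ∏ e ∈ lossb_tch E f, M (lossb_upd z f o e.1) (lossb_upd z f o e.2)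

/-- the remaining constant -/
def lossb_C (E : Finset (K × K)) (M : D → D → ℝ≥0) (J : Finset (K × K)) (z : K → D) : ℝ≥0 :=
  ∏ e ∈ E \ univ.biUnion (fun f : J => lossb_tch E f), M (z e.1) (z e.2)

/-- the properties of `J` in `E` -/
structure lossb_Geo (E : Finset (K × K)) (col : K → Bool) (J : Finset (K × K)) : Prop where
  mat : lossb_Mat J
  sub : J ⊆ E
  bip : ∀ e ∈ E, col e.1 = true ∧ col e.2 = false
  ind : ∀ f g : J, (f.1.1, g.1.2) ∈ E → f = g

variable {E : Finset (K × K)} {col : K → Bool} {J : Finset (K × K)}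

theorem lossb_geo [Fintype K] {Δ : ℕ} (hE : Bip E col Δ) (hJ : Ind E J) :
    lossb_Geo E col J := by
  have hb : ∀ f : J, col f.1.1 = true ∧ col f.1.2 = false := fun f => hE.bip _ (hJ.1 f.2)
  refine ⟨⟨?_, ?_, ?_⟩, hJ.1, hE.bip, ?_⟩
  · intro f g h
    by_contra hne
    exact (hJ.2 f.1 f.2 g.1 g.2 (fun h' => hne (Subtype.ext h')) f.1.1 g.1.1 (Or.inl rfl)
      (Or.inl rfl)).1 h
  · intro f g h
    by_contra hne
    exact (hJ.2 f.1 f.2 g.1 g.2 (fun h' => hne (Subtype.ext h')) f.1.2 g.1.2 (Or.inr rfl)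
      (Or.inr rfl)).1 h
  · intro f g h
    have h1 := (hb f).1
    rw [h, (hb g).2] at h1
    exact Bool.false_ne_true h1
  · intro f g h
    by_contra hne
    exact (hJ.2 f.1 f.2 g.1 g.2 (fun h' => hne (Subtype.ext h')) f.1.1 g.1.2 (Or.inl rfl)
      (Or.inr rfl)).2.1 h

variable (G : lossb_Geo E col J)

include G in
theorem lossb_disj (f g : J) (h : f ≠ g) : Disjoint (lossb_tch E f) (lossb_tch E g) := by
  rw [Finset.disjoint_left]
  intro e h1 h2
  unfold lossb_tch at h1 h2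
  rw [Finset.mem_filter] at h1 h2
  apply h
  rcases h1.2 with a | a <;> rcases h2.2 with b | b
  · exact G.mat.inj1 f g (a.symm.trans b)
  · apply G.ind f g
    rw [← a, ← b]
    exact h1.1
  · apply (G.ind g f _).symm
    rw [← a, ← b]
    exact h1.1
  · exact G.mat.inj2 f g (a.symm.trans b)

omit [DecidableEq K] in
include G in
theorem lossb_col1 (e : K × K) (he : e ∈ E) (f : J) : f.1.2 ≠ e.1 := by
  intro h
  have h1 := (G.bip _ (G.sub f.2)).2
  rw [h, (G.bip e he).1] at h1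
  exact Bool.false_ne_true h1.symm

omit [DecidableEq K] in
include G in
theorem lossb_col2 (e : K × K) (he : e ∈ E) (f : J) : f.1.1 ≠ e.2 := by
  intro h
  have h1 := (G.bip _ (G.sub f.2)).1
  rw [h, (G.bip e he).2] at h1
  exact Bool.false_ne_true h1

include G in
/-- the ends of an edge touching `f` are ends of `f` or no ends of `J` -/
theorem lossb_ends (f : J) (e : K × K) (he : e ∈ lossb_tch E f) :
    e.1 ∉ lossb_P J \ {f.1.1, f.1.2} ∧ e.2 ∉ lossb_P J \ {f.1.1, f.1.2} := by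
  unfold lossb_tch at he
  rw [Finset.mem_filter] at he
  obtain ⟨hE, he⟩ := he
  constructor
  · intro h
    rw [Finset.mem_sdiff, lossb_mem, Finset.mem_insert, Finset.mem_singleton] at h
    obtain ⟨⟨g, hg⟩, h2⟩ := h
    push Not at h2
    rcases hg with hg | hg
    · rcases he with he | he
      · exact h2.1 he
      · apply h2.1
        have : g = f := by
          apply G.ind g f
          rw [hg, ← he]
          exact hE
        rw [← hg, this]
    · exact lossb_col1 G e hE g hg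
  · intro h
    rw [Finset.mem_sdiff, lossb_mem, Finset.mem_insert, Finset.mem_singleton] at h
    obtain ⟨⟨g, hg⟩, h2⟩ := h
    push Not at h2
    rcases hg with hg | hg
    · exact lossb_col2 G e hE g hg
    · rcases he with he | he
      · apply h2.2
        have : f = g := by
          apply G.ind f g
          rw [hg, ← he]
          exact hE
        rw [← hg, this]
      · exact h2.2 he

include G in
theorem lossb_net (M : D → D → ℝ≥0) (z : K → D) (w : J → D × D) :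
    net E M (lossb_comb J z w) = lossb_C E M J z * ∏ f : J, lossb_phi E M z f (w f) := by
  unfold net lossb_C lossb_phi
  have hsub : univ.biUnion (fun f : J => lossb_tch E f) ⊆ E := by
    rw [Finset.biUnion_subset]
    intro f _
    exact Finset.filter_subset _ _
  rw [← Finset.prod_sdiff hsub, Finset.prod_biUnion (fun f _ g _ h => lossb_disj G f g h)]
  congr 1
  · refine Finset.prod_congr rfl fun e he => ?_
    rw [Finset.mem_sdiff, Finset.mem_biUnion] at he
    have h1 : ∀ f : J, e.1 ≠ f.1.1 ∧ e.2 ≠ f.1.2 := by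
      intro f
      constructor
      · intro h
        exact he.2 ⟨f, Finset.mem_univ _, Finset.mem_filter.2 ⟨he.1, Or.inl h⟩⟩
      · intro h
        exact he.2 ⟨f, Finset.mem_univ _, Finset.mem_filter.2 ⟨he.1, Or.inr h⟩⟩
    rw [lossb_comb0 z w e.1, lossb_comb0 z w e.2]
    · rw [lossb_mem]
      rintro ⟨f, hf | hf⟩
      · exact lossb_col2 G e he.1 f hf
      · exact (h1 f).2 hf.symm
    · rw [lossb_mem]
      rintro ⟨f, hf | hf⟩
      · exact (h1 f).1 hf.symm
      · exact lossb_col1 G e he.1 f hf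
  · refine Finset.prod_congr rfl fun f _ => Finset.prod_congr rfl fun e he => ?_
    have h1 := lossb_ends G f e he
    rw [lossb_comb_upd G.mat z w f e.1 h1.1, lossb_comb_upd G.mat z w f e.2 h1.2]

include G in
/-- the product formula for the minor -/
theorem lossb_minor (M : D → D → ℝ≥0) (z : K → D) (f : J) (a a' b b' : D) :
    lossb_phi E M z f (a, b) * lossb_phi E M z f (a', b') * (M a b' * M a' b) =
      lossb_phi E M z f (a, b') * lossb_phi E M z f (a', b) * (M a b * M a' b') := by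
  have hf : f.1 ∈ lossb_tch E f := Finset.mem_filter.2 ⟨G.sub f.2, Or.inl rfl⟩
  have h1 : ∀ o : D × D, lossb_phi E M z f o = M o.1 o.2 *
      ∏ e ∈ (lossb_tch E f).erase f.1, M (lossb_upd z f o e.1) (lossb_upd z f o e.2) := by
    intro o
    unfold lossb_phi
    rw [← Finset.mul_prod_erase _ _ hf, lossb_upd1 G.mat, lossb_upd2]
  have h2 : (∏ e ∈ (lossb_tch E f).erase f.1, M (lossb_upd z f (a, b) e.1)
        (lossb_upd z f (a, b) e.2)) *
      (∏ e ∈ (lossb_tch E f).erase f.1, M (lossb_upd z f (a', b') e.1)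
        (lossb_upd z f (a', b') e.2)) =
      (∏ e ∈ (lossb_tch E f).erase f.1, M (lossb_upd z f (a, b') e.1)
        (lossb_upd z f (a, b') e.2)) *
      (∏ e ∈ (lossb_tch E f).erase f.1, M (lossb_upd z f (a', b) e.1)
        (lossb_upd z f (a', b) e.2)) := by
    rw [← Finset.prod_mul_distrib, ← Finset.prod_mul_distrib]
    refine Finset.prod_congr rfl fun e he => ?_
    rw [Finset.mem_erase] at he
    unfold lossb_tch at he
    rw [Finset.mem_filter] at he
    obtain ⟨hne, hE, he⟩ := he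
    rcases he with he | he
    · have k : e.2 ≠ f.1.2 := fun h => hne (Prod.ext he h)
      have k1 : e.2 ≠ f.1.1 := fun h => lossb_col2 G e hE f h.symm
      rw [he, lossb_upd1 G.mat, lossb_upd1 G.mat, lossb_upd1 G.mat, lossb_upd1 G.mat,
        lossb_upd0 z f _ e.2 k1 k, lossb_upd0 z f _ e.2 k1 k, lossb_upd0 z f _ e.2 k1 k,
        lossb_upd0 z f _ e.2 k1 k]
    · have k : e.1 ≠ f.1.1 := fun h => hne (Prod.ext h he)
      have k1 : e.1 ≠ f.1.2 := fun h => lossb_col1 G e hE f h.symm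
      rw [he, lossb_upd2, lossb_upd2, lossb_upd2, lossb_upd2,
        lossb_upd0 z f _ e.1 k k1, lossb_upd0 z f _ e.1 k k1, lossb_upd0 z f _ e.1 k k1,
        lossb_upd0 z f _ e.1 k k1, mul_comm]
  rw [h1, h1, h1, h1]
  simp only
  calc _ = ((∏ e ∈ (lossb_tch E f).erase f.1, M (lossb_upd z f (a, b) e.1)
        (lossb_upd z f (a, b) e.2)) *
      (∏ e ∈ (lossb_tch E f).erase f.1, M (lossb_upd z f (a', b') e.1)
        (lossb_upd z f (a', b') e.2))) * (M a b * M a' b' * (M a b' * M a' b)) := by ring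
    _ = _ := by rw [h2]; ring

theorem lossb_card [Fintype K] {Δ : ℕ} (hE : Bip E col Δ) (f : J) :
    (lossb_tch E f).card ≤ 2 * Δ := by
  have h : lossb_tch E f ⊆ (E.filter fun e => e.1 = f.1.1 ∨ e.2 = f.1.1) ∪
      (E.filter fun e => e.1 = f.1.2 ∨ e.2 = f.1.2) := by
    intro e he
    unfold lossb_tch at he
    rw [Finset.mem_filter] at he
    rw [Finset.mem_union, Finset.mem_filter, Finset.mem_filter]
    rcases he.2 with h | h
    · exact Or.inl ⟨he.1, Or.inl h⟩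
    · exact Or.inr ⟨he.1, Or.inr h⟩
  refine (Finset.card_le_card h).trans ((Finset.card_union_le _ _).trans ?_)
  have h1 := hE.deg f.1.1
  have h2 := hE.deg f.1.2
  omega

/-- upper bound for the factors -/
theorem lossb_phi_le (M : D → D → ℝ≥0) (z : K → D) (f : J) (o : D × D) (X : ℝ≥0)
    (hX : ∀ c d, M c d ≤ X) : lossb_phi E M z f o ≤ X ^ (lossb_tch E f).card := by
  unfold lossb_phi
  exact Finset.prod_le_pow_card _ _ _ fun e _ => hX _ _

/-- lower bound for the factors -/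
theorem lossb_le_phi (M : D → D → ℝ≥0) (z : K → D) (f : J) (o : D × D) (m : ℝ≥0)
    (hm : ∀ c d, M c d ≠ 0 → m ≤ M c d)
    (h : ∀ e ∈ lossb_tch E f, M (lossb_upd z f o e.1) (lossb_upd z f o e.2) ≠ 0) :
    m ^ (lossb_tch E f).card ≤ lossb_phi E M z f o := by
  unfold lossb_phi
  rw [← Finset.prod_const]
  exact Finset.prod_le_prod' fun e he => hm _ _ (h e he)

/-- the box -/
theorem lossb_box [Fintype K] {Δ : ℕ} (hE : Bip E col Δ) (M : D → D → ℝ≥0) (a b : D)
    (hr : ∀ c c' d d', M c d ≠ 0 → M c d' ≠ 0 → M c' d ≠ 0 → M c' d' ≠ 0) (hab : M a b ≠ 0)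
    (x : K → D) (hx : net E M x ≠ 0) (v₀ : K) (hv : col v₀ = true) (hxa : x v₀ = a) (v : K) :
    (col v = true → M (x v) b ≠ 0) ∧ (col v = false → M a (x v) ≠ 0) := by
  classical
  set S : Finset K := univ.filter fun v => (col v = true → M (x v) b ≠ 0) ∧
    (col v = false → M a (x v) ≠ 0) with hS
  have h0 : v₀ ∈ S := by
    rw [hS, Finset.mem_filter]
    refine ⟨Finset.mem_univ _, fun _ => by rwa [hxa], fun h => ?_⟩
    rw [hv] at h
    exact absurd h.symm Bool.false_ne_true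
  have hnz : ∀ e ∈ E, M (x e.1) (x e.2) ≠ 0 := by
    intro e he h
    exact hx (Finset.prod_eq_zero he h)
  have h1 : S = univ := by
    by_contra hne
    obtain ⟨e, he, h⟩ := hE.conn S ⟨v₀, h0⟩ hne
    have hc := hE.bip e he
    rcases h with ⟨ha, hb⟩ | ⟨ha, hb⟩
    · apply hb
      rw [hS, Finset.mem_filter] at ha ⊢
      refine ⟨Finset.mem_univ _, fun h => ?_, fun _ => ?_⟩
      · rw [hc.2] at h
        exact absurd h Bool.false_ne_true
      · exact hr (x e.1) a b (x e.2) (ha.2.1 hc.1) (hnz e he) hab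
    · apply ha
      rw [hS, Finset.mem_filter] at hb ⊢
      refine ⟨Finset.mem_univ _, fun _ => ?_, fun h => ?_⟩
      · exact hr a (x e.1) (x e.2) b (hb.2.2 hc.2) hab (hnz e he)
      · rw [hc.1] at h
        exact absurd h.symm Bool.false_ne_true
  have h2 : v ∈ S := by rw [h1]; exact Finset.mem_univ _
  rw [hS, Finset.mem_filter] at h2
  exact h2.2

include G in
/-- the factors with values in the two pairs do not vanish -/
theorem lossb_nz [Fintype K] {Δ : ℕ} (hE : Bip E col Δ) (M : D → D → ℝ≥0) (a b : D)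
    (hr : ∀ c c' d d', M c d ≠ 0 → M c d' ≠ 0 → M c' d ≠ 0 → M c' d' ≠ 0) (hab : M a b ≠ 0)
    (z : K → D) (w : J → D × D) (hx : net E M (lossb_comb J z w) ≠ 0) (v₀ : K)
    (hv : col v₀ = true) (hv1 : v₀ ∉ lossb_P J) (hxa : z v₀ = a) (f : J) (o : D × D)
    (h1 : M o.1 b ≠ 0) (h2 : M a o.2 ≠ 0) :
    ∀ e ∈ lossb_tch E f, M (lossb_upd z f o e.1) (lossb_upd z f o e.2) ≠ 0 := by
  intro e he
  have hbox := lossb_box hE M a b hr hab (lossb_comb J z w) hx v₀ hv
    (by rw [lossb_comb0 z w v₀ hv1, hxa])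
  have hends := lossb_ends G f e he
  unfold lossb_tch at he
  rw [Finset.mem_filter] at he
  have hc := hE.bip e he.1
  have k1 : M (lossb_upd z f o e.1) b ≠ 0 := by
    by_cases h : e.1 = f.1.1
    · rw [h, lossb_upd1 G.mat]
      exact h1
    · have h' : e.1 ≠ f.1.2 := fun h' => lossb_col1 G e he.1 f h'.symm
      have h3 : e.1 ∉ lossb_P J := by
        intro h3
        apply hends.1
        rw [Finset.mem_sdiff, Finset.mem_insert, Finset.mem_singleton]
        exact ⟨h3, fun h4 => h4.elim h h'⟩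
      rw [lossb_upd0 z f o e.1 h h', ← lossb_comb0 z w e.1 h3]
      exact (hbox e.1).1 hc.1
  have k2 : M a (lossb_upd z f o e.2) ≠ 0 := by
    by_cases h : e.2 = f.1.2
    · rw [h, lossb_upd2]
      exact h2
    · have h' : e.2 ≠ f.1.1 := fun h' => lossb_col2 G e he.1 f h'.symm
      have h3 : e.2 ∉ lossb_P J := by
        intro h3
        apply hends.2
        rw [Finset.mem_sdiff, Finset.mem_insert, Finset.mem_singleton]
        exact ⟨h3, fun h4 => h4.elim h' h⟩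
      rw [lossb_upd0 z f o e.2 h' h, ← lossb_comb0 z w e.2 h3]
      exact (hbox e.2).2 hc.2
  exact hr a (lossb_upd z f o e.1) b (lossb_upd z f o e.2) hab k2 k1

include G in
/-- the pair condition for the marginal -/
theorem lossb_pair [Fintype D] [DecidableEq D] [Fintype K] (T : (K → D) → ℝ≥0) (z : K → D)
    (f : J) (hT : PairB T f.1.1 f.1.2) (a a' b b' : D) :
    Four (∑ w ∈ univ.filter (fun w : J → D × D => w f = (a, b)), T (lossb_comb J z w))
      (∑ w ∈ univ.filter (fun w : J → D × D => w f = (a, b')), T (lossb_comb J z w))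
      (∑ w ∈ univ.filter (fun w : J → D × D => w f = (a', b)), T (lossb_comb J z w))
      (∑ w ∈ univ.filter (fun w : J → D × D => w f = (a', b')), T (lossb_comb J z w)) := by
  have h := hT (lossb_P J \ {f.1.1, f.1.2}) (lossb_upd z f (a, b)) (lossb_upd z f (a', b'))
    (fun w h1 h2 => by rw [lossb_upd0 z f _ w h1 h2, lossb_upd0 z f _ w h1 h2])
  have e1 : ∀ c c' d d' : D, ({f.1.1} : Finset K).piecewise (lossb_upd z f (c, d))
      (lossb_upd z f (c', d')) = lossb_upd z f (c, d') := by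
    intro c c' d d'
    funext k
    by_cases hk : k = f.1.1
    · rw [Finset.piecewise_eq_of_mem _ _ _ (Finset.mem_singleton.2 hk), hk, lossb_upd1 G.mat,
        lossb_upd1 G.mat]
    · rw [Finset.piecewise_eq_of_notMem _ _ _ (fun h => hk (Finset.mem_singleton.1 h))]
      by_cases hk2 : k = f.1.2
      · rw [hk2, lossb_upd2, lossb_upd2]
      · rw [lossb_upd0 z f _ k hk hk2, lossb_upd0 z f _ k hk hk2]
  unfold Cross at h
  rw [e1, e1, lossb_margf G.mat, lossb_margf G.mat, lossb_margf G.mat, lossb_margf G.mat] at h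
  exact h

/-- the sum over all assignments with the value `a` at `v₀` -/
theorem lossb_total [Fintype D] [DecidableEq D] [Fintype K] (J : Finset (K × K)) (v₀ : K) (a : D)
    (hv : v₀ ∉ lossb_P J) (g : (K → D) → ℝ≥0) :
    ∑ x ∈ univ.filter (fun x : K → D => x v₀ = a), g x =
      ∑ z ∈ univ.filter (fun z : K → D => z v₀ = a ∧ ∀ k ∈ lossb_P J, z k = a),
        marg (lossb_P J) g z := by
  rw [← Finset.sum_fiberwise_of_maps_to (s := univ.filter (fun x : K → D => x v₀ = a))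
    (t := univ.filter (fun z : K → D => z v₀ = a ∧ ∀ k ∈ lossb_P J, z k = a))
    (g := fun x => fun k => if k ∈ lossb_P J then a else x k)]
  · refine Finset.sum_congr rfl fun z hz => ?_
    rw [Finset.mem_filter] at hz
    unfold marg
    refine Finset.sum_congr ?_ fun _ _ => rfl
    ext y
    rw [Finset.mem_filter, Finset.mem_filter, Finset.mem_filter]
    constructor
    · rintro ⟨⟨_, h1⟩, h2⟩
      refine ⟨Finset.mem_univ _, fun k hk => ?_⟩
      rw [← h2]
      simp only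
      rw [if_neg hk]
    · rintro ⟨_, h⟩
      refine ⟨⟨Finset.mem_univ _, ?_⟩, ?_⟩
      · rw [h v₀ hv]
        exact hz.2.1
      · funext k
        by_cases hk : k ∈ lossb_P J
        · rw [if_pos hk]
          exact (hz.2.2 k hk).symm
        · rw [if_neg hk]
          exact h k hk
  · intro x hx
    rw [Finset.mem_filter] at hx ⊢
    refine ⟨Finset.mem_univ _, ?_, fun k hk => ?_⟩
    · simp only
      rw [if_neg hv]
      exact hx.2
    · simp only
      rw [if_pos hk]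

end prods

/-! ### the loss for fixed values off the ends of `J` -/

theorem lossb_fixed (hcore : lossb_Core) {D K : Type} [Fintype D] [DecidableEq D] [Fintype K]
    [DecidableEq K] (M : D → D → ℝ≥0) (a a' b b' : D)
    (hr : ∀ c c' d d', M c d ≠ 0 → M c d' ≠ 0 → M c' d ≠ 0 → M c' d' ≠ 0)
    (hab : M a b ≠ 0) (hab' : M a b' ≠ 0) (ha'b : M a' b ≠ 0)
    (m X : ℝ≥0) (hm0 : 0 < m) (hm : ∀ c d, M c d ≠ 0 → m ≤ M c d) (hX : ∀ c d, M c d ≤ X)
    (hmX : m ≤ X) (Δ : ℕ) (θ κ ε : ℝ)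
    (hθ : θ = ((m : ℝ) / X) ^ (2 * Δ) / (Fintype.card (D × D) : ℝ))
    (hκ : κ = θ ^ 2 * |(M a b : ℝ) * M a' b' / (M a b' * M a' b) - 1|)
    (hε : 0 < ε) (h1 : ε ≤ κ / 5) (h2 : ε ≤ θ / 2) (h3 : ε ≤ 1)
    {E J : Finset (K × K)} {col : K → Bool} (hE : Bip E col Δ) (G : lossb_Geo E col J)
    (v₀ : K) (hv : col v₀ = true) (hv1 : v₀ ∉ lossb_P J) (T : (K → D) → ℝ≥0)
    (hT : ∀ x, T x ≤ net E M x) (hP : ∀ e ∈ J, PairB T e.1 e.2) (z : K → D) (hz : z v₀ = a) :
    ((marg (lossb_P J) T z : ℝ≥0) : ℝ) ≤ Real.exp (-ε ^ 2 / 4) ^ J.card *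
      ((marg (lossb_P J) (net E M) z : ℝ≥0) : ℝ) := by
  rw [lossb_marg G.mat, lossb_marg G.mat]
  rcases eq_or_ne (∑ w : J → D × D, T (lossb_comb J z w)) 0 with h0 | h0
  · rw [h0, NNReal.coe_zero]
    positivity
  -- some term is not zero
  obtain ⟨w₀, hw₀⟩ : ∃ w₀, T (lossb_comb J z w₀) ≠ 0 := by
    by_contra h
    push Not at h
    exact h0 (Finset.sum_eq_zero fun w _ => h w)
  have hnet : net E M (lossb_comb J z w₀) ≠ 0 := by
    intro h
    have := hT (lossb_comb J z w₀)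
    rw [h] at this
    exact hw₀ (le_antisymm this zero_le)
  have hX0 : 0 < X := lt_of_lt_of_le hm0 hmX
  -- lower bounds
  have hlow : ∀ (f : J) (c d : D), (c = a ∨ c = a') → (d = b ∨ d = b') →
      m ^ (lossb_tch E f).card ≤ lossb_phi E M z f (c, d) := by
    intro f c d hc hd
    apply lossb_le_phi M z f (c, d) m hm
    apply lossb_nz G hE M a b hr hab z w₀ hnet v₀ hv hv1 hz f (c, d)
    · rcases hc with rfl | rfl
      · exact hab
      · exact ha'b
    · rcases hd with rfl | rfl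
      · exact hab
      · exact hab'
  have hpos : ∀ f : J, 0 < ∑ o, lossb_phi E M z f o := by
    intro f
    have k1 := hlow f a b (Or.inl rfl) (Or.inl rfl)
    have k2 : lossb_phi E M z f (a, b) ≤ ∑ o, lossb_phi E M z f o :=
      Finset.single_le_sum (fun _ _ => zero_le) (Finset.mem_univ (a, b))
    exact lt_of_lt_of_le (pow_pos hm0 _) (k1.trans k2)
  have hsum : ∀ f : J, ((∑ o, lossb_phi E M z f o : ℝ≥0) : ℝ) ≤
      (Fintype.card (D × D) : ℝ) * (X : ℝ) ^ (lossb_tch E f).card := by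
    intro f
    have : ∑ o, lossb_phi E M z f o ≤ ∑ _o : D × D, X ^ (lossb_tch E f).card :=
      Finset.sum_le_sum fun o _ => lossb_phi_le M z f o X hX
    rw [Finset.sum_const, Finset.card_univ, nsmul_eq_mul] at this
    exact_mod_cast this
  have hcardD : (0 : ℝ) < (Fintype.card (D × D) : ℝ) := by
    have : 0 < Fintype.card (D × D) := Fintype.card_pos_iff.2 ⟨(a, b)⟩
    exact_mod_cast this
  have hmR : (0 : ℝ) < m := by exact_mod_cast hm0
  have hXR : (0 : ℝ) < X := by exact_mod_cast hX0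
  have hmXR : (m : ℝ) ≤ X := by exact_mod_cast hmX
  have hθb : ∀ (f : J) (c d : D), (c = a ∨ c = a') → (d = b ∨ d = b') →
      θ * ((∑ o, lossb_phi E M z f o : ℝ≥0) : ℝ) ≤ (lossb_phi E M z f (c, d) : ℝ) := by
    intro f c d hc hd
    have k1 : (m : ℝ) ^ (lossb_tch E f).card ≤ (lossb_phi E M z f (c, d) : ℝ) := by
      exact_mod_cast hlow f c d hc hd
    have k2 : ((m : ℝ) / X) ^ (2 * Δ) ≤ ((m : ℝ) / X) ^ (lossb_tch E f).card :=
      pow_le_pow_of_le_one (by positivity) ((div_le_one hXR).2 hmXR) (lossb_card hE f)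
    calc θ * ((∑ o, lossb_phi E M z f o : ℝ≥0) : ℝ)
        ≤ (((m : ℝ) / X) ^ (lossb_tch E f).card / (Fintype.card (D × D) : ℝ)) *
          ((Fintype.card (D × D) : ℝ) * (X : ℝ) ^ (lossb_tch E f).card) := by
          apply mul_le_mul _ (hsum f) NNReal.zero_le_coe (by positivity)
          rw [hθ]
          exact div_le_div_of_nonneg_right k2 hcardD.le
      _ = (m : ℝ) ^ (lossb_tch E f).card := by
          rw [div_pow]
          field_simp
      _ ≤ _ := k1
  -- the minor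
  have hM1 : (M a b' : ℝ) ≠ 0 := by exact_mod_cast hab'
  have hM2 : (M a' b : ℝ) ≠ 0 := by exact_mod_cast ha'b
  have hθ0 : 0 ≤ θ := by
    rw [hθ]
    positivity
  have hκb : ∀ f : J, κ * ((∑ o, lossb_phi E M z f o : ℝ≥0) : ℝ) ^ 2 ≤
      |(lossb_phi E M z f (a, b) : ℝ) * lossb_phi E M z f (a', b') -
        lossb_phi E M z f (a, b') * lossb_phi E M z f (a', b)| := by
    intro f
    have k1 : (lossb_phi E M z f (a, b) : ℝ) * lossb_phi E M z f (a', b') *
        (M a b' * M a' b) = lossb_phi E M z f (a, b') * lossb_phi E M z f (a', b) *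
        (M a b * M a' b') := by exact_mod_cast lossb_minor G M z f a a' b b'
    have k2 : (lossb_phi E M z f (a, b) : ℝ) * lossb_phi E M z f (a', b') -
        lossb_phi E M z f (a, b') * lossb_phi E M z f (a', b) =
        (lossb_phi E M z f (a, b') * lossb_phi E M z f (a', b)) *
        ((M a b : ℝ) * M a' b' / (M a b' * M a' b) - 1) := by
      have : (lossb_phi E M z f (a, b) : ℝ) * lossb_phi E M z f (a', b') =
          lossb_phi E M z f (a, b') * lossb_phi E M z f (a', b) *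
          (M a b * M a' b') / (M a b' * M a' b) := by
        rw [eq_div_iff (mul_ne_zero hM1 hM2)]
        exact k1
      rw [this]
      ring
    rw [k2, abs_mul, abs_of_nonneg (by positivity), hκ]
    have k3 := hθb f a b' (Or.inl rfl) (Or.inr rfl)
    have k4 := hθb f a' b (Or.inr rfl) (Or.inl rfl)
    have k5 : θ * ((∑ o, lossb_phi E M z f o : ℝ≥0) : ℝ) *
        (θ * ((∑ o, lossb_phi E M z f o : ℝ≥0) : ℝ)) ≤
        (lossb_phi E M z f (a, b') : ℝ) * lossb_phi E M z f (a', b) :=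
      mul_le_mul k3 k4 (by positivity) (by positivity)
    calc θ ^ 2 * |(M a b : ℝ) * M a' b' / (M a b' * M a' b) - 1| *
        ((∑ o, lossb_phi E M z f o : ℝ≥0) : ℝ) ^ 2
        = (θ * ((∑ o, lossb_phi E M z f o : ℝ≥0) : ℝ) *
          (θ * ((∑ o, lossb_phi E M z f o : ℝ≥0) : ℝ))) *
          |(M a b : ℝ) * M a' b' / (M a b' * M a' b) - 1| := by ring
      _ ≤ _ := mul_le_mul_of_nonneg_right k5 (abs_nonneg _)
  -- the sets
  have hfib : ∀ (f : J) (A : Finset (D × D)),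
      ∑ o ∈ A, ∑ w ∈ univ.filter (fun w : J → D × D => w f = o), T (lossb_comb J z w) =
        ∑ w ∈ univ.filter (fun w : J → D × D => w f ∈ A), T (lossb_comb J z w) := by
    intro f A
    exact Finset.sum_fiberwise_eq_sum_filter _ _ _ _
  have hfib2 : ∀ f : J,
      ∑ o, ∑ w ∈ univ.filter (fun w : J → D × D => w f = o), T (lossb_comb J z w) =
        ∑ w, T (lossb_comb J z w) := by
    intro f
    rw [hfib f univ]
    refine Finset.sum_congr ?_ fun _ _ => rfl
    ext w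
    simp
  have hA : ∀ f : J, ∃ A : Finset (D × D),
      (((∑ o ∈ A, lossb_phi E M z f o : ℝ≥0) : ℝ) /
        ((∑ o, lossb_phi E M z f o : ℝ≥0) : ℝ) + ε) *
        ((∑ w, T (lossb_comb J z w) : ℝ≥0) : ℝ) ≤
      ((∑ w ∈ univ.filter (fun w : J → D × D => w f ∈ A), T (lossb_comb J z w) : ℝ≥0) : ℝ) := by
    intro f
    obtain ⟨A, hA⟩ := lossb_set (lossb_phi E M z f)
      (fun o => ∑ w ∈ univ.filter (fun w : J → D × D => w f = o), T (lossb_comb J z w))
      a a' b b' hε h1 h2 (hpos f) (by rw [hfib2 f]; exact pos_iff_ne_zero.2 h0)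
      (lossb_pair G T z f (hP _ f.2) a a' b b') (hθb f) (hκb f)
    rw [hfib2 f, hfib f A] at hA
    exact ⟨A, hA⟩
  choose A hA using hA
  have hfin := hcore J (D × D) (fun f => lossb_phi E M z f) hpos
    (fun w => T (lossb_comb J z w)) (lossb_C E M J z)
    (fun w => (hT _).trans (lossb_net G M z w).le) ε hε h3 A hA
  rw [Fintype.card_coe] at hfin
  have hprod : ∑ w : J → D × D, net E M (lossb_comb J z w) =
      lossb_C E M J z * ∏ f : J, ∑ o, lossb_phi E M z f o := by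
    rw [Finset.sum_congr rfl fun w _ => lossb_net G M z w, ← Finset.mul_sum,
      Finset.prod_univ_sum, Fintype.piFinset_univ]
  rw [hprod]
  exact hfin

theorem lossb_main (hcore : lossb_Core) : St_LossB := by
  intro D _ _ M a a' b b' hr hab hab' ha'b ha'b' hne Δ
  classical
  -- extreme values
  obtain ⟨p, hp, hpm⟩ := Finset.exists_min_image
    (univ.filter fun p : D × D => M p.1 p.2 ≠ 0) (fun p => M p.1 p.2)
    ⟨(a, b), Finset.mem_filter.2 ⟨Finset.mem_univ _, hab⟩⟩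
  obtain ⟨q, _, hqm⟩ := Finset.exists_max_image (univ : Finset (D × D)) (fun p => M p.1 p.2)
    ⟨(a, b), Finset.mem_univ _⟩
  rw [Finset.mem_filter] at hp
  have hm0 : 0 < M p.1 p.2 := pos_iff_ne_zero.2 hp.2
  have hm : ∀ c d, M c d ≠ 0 → M p.1 p.2 ≤ M c d := fun c d h =>
    hpm (c, d) (Finset.mem_filter.2 ⟨Finset.mem_univ _, h⟩)
  have hX : ∀ c d, M c d ≤ M q.1 q.2 := fun c d => hqm (c, d) (Finset.mem_univ _)
  have hmX : M p.1 p.2 ≤ M q.1 q.2 := hX _ _
  have hmR : (0 : ℝ) < (M p.1 p.2 : ℝ) := by exact_mod_cast hm0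
  have hXR : (0 : ℝ) < (M q.1 q.2 : ℝ) := by exact_mod_cast lt_of_lt_of_le hm0 hmX
  have hmXR : (M p.1 p.2 : ℝ) ≤ (M q.1 q.2 : ℝ) := by exact_mod_cast hmX
  have hcard1 : 1 ≤ (Fintype.card (D × D) : ℝ) := by
    have : 0 < Fintype.card (D × D) := Fintype.card_pos_iff.2 ⟨(a, b)⟩
    exact_mod_cast this
  obtain ⟨θ, hθ⟩ : ∃ θ : ℝ, θ = ((M p.1 p.2 : ℝ) / (M q.1 q.2)) ^ (2 * Δ) /
    (Fintype.card (D × D) : ℝ) := ⟨_, rfl⟩
  have hθ0 : 0 < θ := by
    rw [hθ]
    positivity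
  have hθ1 : θ ≤ 1 := by
    rw [hθ]
    rw [div_le_one (by linarith)]
    refine le_trans ?_ hcard1
    exact pow_le_one₀ (by positivity) ((div_le_one hXR).2 hmXR)
  have hM1 : (M a b' : ℝ) ≠ 0 := by exact_mod_cast hab'
  have hM2 : (M a' b : ℝ) ≠ 0 := by exact_mod_cast ha'b
  obtain ⟨κ, hκ⟩ : ∃ κ : ℝ, κ = θ ^ 2 * |(M a b : ℝ) * M a' b' / (M a b' * M a' b) - 1| :=
    ⟨_, rfl⟩
  have hκ0 : 0 < κ := by
    rw [hκ]
    apply mul_pos (pow_pos hθ0 2)
    rw [abs_pos, sub_ne_zero]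
    intro h
    rw [div_eq_one_iff_eq (mul_ne_zero hM1 hM2)] at h
    exact hne (by exact_mod_cast h)
  obtain ⟨ε, hε⟩ : ∃ ε : ℝ, ε = min (κ / 5) (θ / 2) := ⟨_, rfl⟩
  have hε0 : 0 < ε := by
    rw [hε]
    exact lt_min (by linarith) (by linarith)
  have h1 : ε ≤ κ / 5 := by rw [hε]; exact min_le_left _ _
  have h2 : ε ≤ θ / 2 := by rw [hε]; exact min_le_right _ _
  have h3 : ε ≤ 1 := by linarith
  refine ⟨1 - Real.exp (-ε ^ 2 / 4), ?_, ?_, ?_⟩
  · rw [sub_pos, Real.exp_lt_one_iff]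
    have : 0 < ε ^ 2 := pow_pos hε0 2
    linarith
  · have := Real.exp_pos (-ε ^ 2 / 4)
    linarith
  intro K _ _ E col hE v₀ hv J hJ hJv T hT hP
  have G := lossb_geo hE hJ
  have hv1 : v₀ ∉ lossb_P J := by
    rw [lossb_mem]
    rintro ⟨f, hf | hf⟩
    · exact (hJv _ f.2).1 hf
    · exact (hJv _ f.2).2 hf
  rw [sub_sub_cancel, lossb_total J v₀ a hv1 T, lossb_total J v₀ a hv1 (net E M), NNReal.coe_sum,
    NNReal.coe_sum, Finset.mul_sum]
  refine Finset.sum_le_sum fun z hz => ?_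
  rw [Finset.mem_filter] at hz
  exact lossb_fixed hcore M a a' b b' hr hab hab' ha'b (M p.1 p.2) (M q.1 q.2) hm0 hm hX hmX Δ
    θ κ ε hθ hκ hε0 h1 h2 h3 hE G v₀ hv hv1 T hT hP z hz.2.1

theorem thm_LossB : St_LossB := by
  apply lossb_main
  intro J Om _ _ _ _ φ hφ T C hT ε h0 h1 A hA
  rw [NNReal.coe_mul, ← mul_assoc]
  exact lossb_core φ hφ T C hT ε h0 h1 A hA

end Pool.Agent.WD
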