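import Pool.Agent.WD.St

/-!
# A loss lemma for functions below a product
-/

namespace Pool.Agent.WD

open Finset
open scoped NNReal

/-- `exp` on the unit interval -/
theorem lossb1_exp {μ ε : ℝ} (hμ0 : 0 ≤ μ) (hμ1 : μ ≤ 1) (hε : 0 < ε) (hε1 : ε ≤ 1) :
    1 + μ * (Real.exp (ε / 2) - 1) ≤ Real.exp (-ε ^ 2 / 4) * Real.exp (ε / 2 * (μ + ε)) := by
  have h1 : Real.exp (ε / 2) - 1 ≤ ε / 2 + (ε / 2) ^ 2 := by
    have h := Real.abs_exp_sub_one_sub_id_le (x := ε / 2) (by rw [abs_of_pos (by linarith)]; linarith)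
    have := (abs_le.1 h).2
    linarith
  have h2 : 1 + μ * (Real.exp (ε / 2) - 1) ≤ Real.exp (μ * (Real.exp (ε / 2) - 1)) := by
    have := Real.add_one_le_exp (μ * (Real.exp (ε / 2) - 1))
    linarith
  refine h2.trans ?_
  rw [← Real.exp_add]
  apply Real.exp_le_exp.2
  have h3 : μ * (Real.exp (ε / 2) - 1) ≤ μ * (ε / 2 + (ε / 2) ^ 2) :=
    mul_le_mul_of_nonneg_left h1 hμ0
  have h4 : μ * (ε / 2) ^ 2 ≤ (ε / 2) ^ 2 := by
    have : 0 ≤ (ε / 2) ^ 2 := sq_nonneg _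
    nlinarith
  nlinarith

/-- the core lemma for real functions -/
theorem lossb1_real {J Ω : Type*} [Fintype J] [DecidableEq J] [Fintype Ω] [DecidableEq Ω]
    (φ : J → Ω → ℝ) (h0 : ∀ j x, 0 ≤ φ j x) (hφ : ∀ j, 0 < ∑ x, φ j x)
    (T : (J → Ω) → ℝ) (hT0 : ∀ w, 0 ≤ T w) (C : ℝ) (hT : ∀ w, T w ≤ C * ∏ j, φ j (w j))
    (ε : ℝ) (hε : 0 < ε) (hε1 : ε ≤ 1) (A : J → Finset Ω)
    (hA : ∀ j, ((∑ x ∈ A j, φ j x) / (∑ x, φ j x) + ε) * ∑ w, T w ≤
      ∑ w ∈ univ.filter (fun w => w j ∈ A j), T w) :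
    ∑ w, T w ≤ Real.exp (-ε ^ 2 / 4) ^ Fintype.card J * C * ∏ j, ∑ x, φ j x := by
  -- abbreviations
  let μ : J → ℝ := fun j => (∑ x ∈ A j, φ j x) / (∑ x, φ j x)
  let N : (J → Ω) → ℝ := fun w => ∑ j, if w j ∈ A j then (1 : ℝ) else 0
  have hμ0 : ∀ j, 0 ≤ μ j := fun j =>
    div_nonneg (Finset.sum_nonneg fun x _ => h0 j x) (hφ j).le
  have hμ1 : ∀ j, μ j ≤ 1 := fun j => by
    refine (div_le_one (hφ j)).2 ?_
    exact Finset.sum_le_sum_of_subset_of_nonneg (Finset.subset_univ _) fun x _ _ => h0 j x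
  have hS0 : 0 ≤ ∑ w, T w := Finset.sum_nonneg fun w _ => hT0 w
  -- the mean of `N`
  have hN : (∑ j, (μ j + ε)) * ∑ w, T w ≤ ∑ w, T w * N w := by
    have e1 : ∑ w, T w * N w = ∑ j, ∑ w ∈ univ.filter (fun w => w j ∈ A j), T w := by
      have : ∀ w, T w * N w = ∑ j, if w j ∈ A j then T w else 0 := by
        intro w
        show T w * (∑ j, if w j ∈ A j then (1 : ℝ) else 0) = _
        rw [Finset.mul_sum]
        refine Finset.sum_congr rfl fun j _ => ?_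
        split_ifs <;> simp
      rw [Finset.sum_congr rfl fun w _ => this w, Finset.sum_comm]
      refine Finset.sum_congr rfl fun j _ => ?_
      rw [Finset.sum_filter]
    rw [e1, Finset.sum_mul]
    exact Finset.sum_le_sum fun j _ => hA j
  -- the exponential mean
  have hE : (∑ w, T w) * Real.exp (ε / 2 * ∑ j, (μ j + ε)) ≤
      ∑ w, T w * Real.exp (ε / 2 * N w) := by
    have e1 : ∀ w, T w * (1 + (ε / 2 * N w - ε / 2 * ∑ j, (μ j + ε))) ≤
        T w * Real.exp (ε / 2 * N w - ε / 2 * ∑ j, (μ j + ε)) := by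
      intro w
      refine mul_le_mul_of_nonneg_left ?_ (hT0 w)
      have := Real.add_one_le_exp (ε / 2 * N w - ε / 2 * ∑ j, (μ j + ε))
      linarith
    have e2 : ∑ w, T w ≤ ∑ w, T w * (1 + (ε / 2 * N w - ε / 2 * ∑ j, (μ j + ε))) := by
      have : ∑ w, T w * (1 + (ε / 2 * N w - ε / 2 * ∑ j, (μ j + ε))) =
          ∑ w, T w + ε / 2 * (∑ w, T w * N w - (∑ j, (μ j + ε)) * ∑ w, T w) := by
        have e3 : ∀ w, T w * (1 + (ε / 2 * N w - ε / 2 * ∑ j, (μ j + ε))) =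
            T w + ε / 2 * (T w * N w) - (ε / 2 * ∑ j, (μ j + ε)) * T w := fun w => by ring
        rw [Finset.sum_congr rfl fun w _ => e3 w, Finset.sum_sub_distrib, Finset.sum_add_distrib,
          ← Finset.mul_sum, ← Finset.mul_sum]
        ring
      rw [this]
      have : 0 ≤ ε / 2 * (∑ w, T w * N w - (∑ j, (μ j + ε)) * ∑ w, T w) :=
        mul_nonneg (by linarith) (by linarith)
      linarith
    have e3 : ∑ w, T w ≤ ∑ w, T w * Real.exp (ε / 2 * N w - ε / 2 * ∑ j, (μ j + ε)) :=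
      e2.trans (Finset.sum_le_sum fun w _ => e1 w)
    have e4 : (∑ w, T w * Real.exp (ε / 2 * N w - ε / 2 * ∑ j, (μ j + ε))) *
        Real.exp (ε / 2 * ∑ j, (μ j + ε)) = ∑ w, T w * Real.exp (ε / 2 * N w) := by
      rw [Finset.sum_mul]
      refine Finset.sum_congr rfl fun w _ => ?_
      rw [mul_assoc, ← Real.exp_add, sub_add_cancel]
    rw [← e4]
    exact mul_le_mul_of_nonneg_right e3 (Real.exp_pos _).le
  -- factorisation
  have hprod : ∀ w, Real.exp (ε / 2 * N w) =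
      ∏ j, (if w j ∈ A j then Real.exp (ε / 2) else 1) := by
    intro w
    show Real.exp (ε / 2 * ∑ j, if w j ∈ A j then (1 : ℝ) else 0) = _
    rw [Finset.mul_sum, Real.exp_sum]
    refine Finset.prod_congr rfl fun j _ => ?_
    split_ifs <;> simp
  have hF : ∑ w, T w * Real.exp (ε / 2 * N w) ≤
      C * ∏ j, ∑ x, φ j x * (if x ∈ A j then Real.exp (ε / 2) else 1) := by
    have e1 : ∏ j, ∑ x, φ j x * (if x ∈ A j then Real.exp (ε / 2) else 1) =
        ∑ w : J → Ω, ∏ j, φ j (w j) * (if w j ∈ A j then Real.exp (ε / 2) else 1) := by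
      rw [Finset.prod_univ_sum, Fintype.piFinset_univ]
    rw [e1, Finset.mul_sum]
    refine Finset.sum_le_sum fun w _ => ?_
    rw [Finset.prod_mul_distrib, ← hprod w, ← mul_assoc]
    exact mul_le_mul_of_nonneg_right (hT w) (Real.exp_pos _).le
  have hC : 0 ≤ C ∨ ∏ j, ∑ x, φ j x = 0 := by
    left
    -- some value of the product is positive
    have hpos : 0 < ∏ j, ∑ x, φ j x := Finset.prod_pos fun j _ => hφ j
    by_contra hneg
    have hneg := lt_of_not_ge hneg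
    have e1 : ∏ j, ∑ x, φ j x = ∑ w : J → Ω, ∏ j, φ j (w j) := by
      rw [Finset.prod_univ_sum, Fintype.piFinset_univ]
    have e2 : ∑ w, T w ≤ C * ∏ j, ∑ x, φ j x := by
      rw [e1, Finset.mul_sum]
      exact Finset.sum_le_sum fun w _ => hT w
    have e3 : C * ∏ j, ∑ x, φ j x < 0 := mul_neg_of_neg_of_pos hneg hpos
    linarith
  have hC0 : 0 ≤ C := by
    rcases hC with h | h
    · exact h
    · exact absurd h (Finset.prod_pos fun j _ => hφ j).ne'
  have hfac : ∀ j, ∑ x, φ j x * (if x ∈ A j then Real.exp (ε / 2) else 1) ≤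
      (∑ x, φ j x) * (Real.exp (-ε ^ 2 / 4) * Real.exp (ε / 2 * (μ j + ε))) := by
    intro j
    have e1 : ∑ x, φ j x * (if x ∈ A j then Real.exp (ε / 2) else 1) =
        ∑ x, φ j x + (∑ x ∈ A j, φ j x) * (Real.exp (ε / 2) - 1) := by
      have e2 : ∑ x ∈ A j, φ j x = ∑ x, if x ∈ A j then φ j x else 0 := by
        rw [← Finset.sum_filter]
        refine Finset.sum_congr ?_ fun _ _ => rfl
        ext x
        simp
      rw [e2, Finset.sum_mul, ← Finset.sum_add_distrib]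
      refine Finset.sum_congr rfl fun x _ => ?_
      split_ifs <;> ring
    have e3 : ∑ x ∈ A j, φ j x = (∑ x, φ j x) * μ j := by
      show _ = (∑ x, φ j x) * ((∑ x ∈ A j, φ j x) / (∑ x, φ j x))
      rw [mul_div_cancel₀ _ (hφ j).ne']
    rw [e1, e3]
    have e4 := lossb1_exp (hμ0 j) (hμ1 j) hε hε1
    calc ∑ x, φ j x + (∑ x, φ j x) * μ j * (Real.exp (ε / 2) - 1)
        = (∑ x, φ j x) * (1 + μ j * (Real.exp (ε / 2) - 1)) := by ring
      _ ≤ _ := mul_le_mul_of_nonneg_left e4 (hφ j).le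
  have hall : ∏ j, ∑ x, φ j x * (if x ∈ A j then Real.exp (ε / 2) else 1) ≤
      ∏ j, ((∑ x, φ j x) * (Real.exp (-ε ^ 2 / 4) * Real.exp (ε / 2 * (μ j + ε)))) := by
    refine Finset.prod_le_prod (fun j _ => ?_) fun j _ => hfac j
    refine Finset.sum_nonneg fun x _ => mul_nonneg (h0 j x) ?_
    split_ifs
    · exact (Real.exp_pos _).le
    · exact zero_le_one
  have hsplit : ∏ j, ((∑ x, φ j x) * (Real.exp (-ε ^ 2 / 4) * Real.exp (ε / 2 * (μ j + ε)))) =
      (∏ j, ∑ x, φ j x) * (Real.exp (-ε ^ 2 / 4) ^ Fintype.card J *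
        Real.exp (ε / 2 * ∑ j, (μ j + ε))) := by
    rw [Finset.prod_mul_distrib, Finset.prod_mul_distrib, Finset.prod_const, Finset.card_univ,
      Finset.mul_sum, Real.exp_sum]
  have hfinal : (∑ w, T w) * Real.exp (ε / 2 * ∑ j, (μ j + ε)) ≤
      (Real.exp (-ε ^ 2 / 4) ^ Fintype.card J * C * ∏ j, ∑ x, φ j x) *
        Real.exp (ε / 2 * ∑ j, (μ j + ε)) := by
    refine (hE.trans hF).trans ((mul_le_mul_of_nonneg_left (hall.trans hsplit.le) hC0).trans ?_)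
    apply le_of_eq
    ring
  exact le_of_mul_le_mul_right hfinal (Real.exp_pos _)

/-- the core lemma: a function below a product, with a bias in every coordinate, has small sum -/
theorem lossb_core {J Ω : Type*} [Fintype J] [DecidableEq J] [Fintype Ω] [DecidableEq Ω]
    (φ : J → Ω → ℝ≥0) (hφ : ∀ j, 0 < ∑ x, φ j x)
    (T : (J → Ω) → ℝ≥0) (C : ℝ≥0) (hT : ∀ w, T w ≤ C * ∏ j, φ j (w j))
    (ε : ℝ) (hε : 0 < ε) (hε1 : ε ≤ 1) (A : J → Finset Ω)
    (hA : ∀ j, (((∑ x ∈ A j, φ j x : ℝ≥0) : ℝ) / ((∑ x, φ j x : ℝ≥0) : ℝ) + ε) *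
      ((∑ w, T w : ℝ≥0) : ℝ) ≤ ((∑ w ∈ univ.filter (fun w => w j ∈ A j), T w : ℝ≥0) : ℝ)) :
    ((∑ w, T w : ℝ≥0) : ℝ) ≤
      Real.exp (-ε ^ 2 / 4) ^ Fintype.card J * (C : ℝ) * ((∏ j, ∑ x, φ j x : ℝ≥0) : ℝ) := by
  have h := lossb1_real (fun j x => (φ j x : ℝ)) (fun j x => (φ j x).2)
    (fun j => by
      have := hφ j
      have h2 : (0 : ℝ) < ((∑ x, φ j x : ℝ≥0) : ℝ) := by exact_mod_cast this
      simpa using h2)
    (fun w => (T w : ℝ)) (fun w => (T w).2) (C : ℝ)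
    (fun w => by
      have := hT w
      have h2 : ((T w : ℝ≥0) : ℝ) ≤ ((C * ∏ j, φ j (w j) : ℝ≥0) : ℝ) := by exact_mod_cast this
      simpa using h2)
    ε hε hε1 A
    (fun j => by
      have := hA j
      simpa using this)
  simpa using h

end Pool.Agent.WD
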