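import Pool.Agent.WD.St

namespace Pool.Agent.WD

open Finset
open scoped NNReal

theorem net_pos {D K : Type} (E : Finset (K × K)) (M : D → D → ℝ≥0) (x : K → D)
    (h : ∀ e ∈ E, M (x e.1) (x e.2) ≠ 0) : 0 < net E M x := by
  unfold net
  rw [pos_iff_ne_zero, Finset.prod_ne_zero_iff]
  exact h

theorem thm_Net (hA : St_LossA) (hB : St_LossB) : St_Net := by
  intro D _ _ M hM Δ
  by_cases hr : ∀ c c' d d', M c d ≠ 0 → M c d' ≠ 0 → M c' d ≠ 0 → M c' d' ≠ 0
  · -- rectangular support
    obtain ⟨a, a', b, b', h⟩ := hM
    unfold Four at h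
    push Not at h
    obtain ⟨h1, h2, h3⟩ := h
    have hall : M a b ≠ 0 ∧ M a b' ≠ 0 ∧ M a' b ≠ 0 ∧ M a' b' ≠ 0 := by
      by_cases hp : M a b = 0
      · have hs := h2 hp
        have hqr : M a b' * M a' b ≠ 0 := by
          intro h0
          apply h1
          rw [h0, hp, zero_mul]
        have hq := left_ne_zero_of_mul hqr
        have hr' := right_ne_zero_of_mul hqr
        exact absurd hp (hr a' a b' b hs hr' hq)
      · by_cases hs : M a' b' = 0
        · have hqr : M a b' * M a' b ≠ 0 := by
            intro h0
            apply h1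
            rw [h0, hs, mul_zero]
          have hq := left_ne_zero_of_mul hqr
          have hr' := right_ne_zero_of_mul hqr
          exact absurd hs (hr a a' b b' hp hq hr')
        · by_cases hq : M a b' = 0
          · have hr' := h3 hq
            exact absurd hq (hr a' a b b' hr' hs hp)
          · refine ⟨hp, hq, ?_, hs⟩
            intro hr'
            exact hr a a' b' b hq hp hs hr'
    obtain ⟨hp, hq, hr', hs⟩ := hall
    obtain ⟨η, hη0, hη1, H⟩ := hB D M a a' b b' hr hp hq hr' hs h1 Δ
    refine ⟨η, hη0, hη1, ?_⟩
    intro K _ _ E col hE v₀ hv₀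
    refine ⟨univ.filter (fun x : K → D => x v₀ = a), ?_, ?_⟩
    · have h0 : 0 < net E M (fun v => if col v = true then a else b) := by
        apply net_pos
        intro e he
        obtain ⟨h1, h2⟩ := hE.bip e he
        simp [h1, h2, hp]
      refine lt_of_lt_of_le h0 ?_
      refine Finset.single_le_sum (f := fun x => net E M x) (fun _ _ => zero_le) ?_
      simp [hv₀]
    · intro J hJ hJv T hT hP
      exact H K E col hE v₀ hv₀ J hJ hJv T hT hP
  · -- non-rectangular support
    push Not at hr
    obtain ⟨a, a', b, b', hp, hq, hr', hs⟩ := hr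
    obtain ⟨η, hη0, hη1, H⟩ := hA D M a a' b b' hp hq hr' hs Δ
    refine ⟨η, hη0, hη1, ?_⟩
    intro K _ _ E col hE v₀ hv₀
    refine ⟨univ.filter (fun x : K → D => ∀ v,
          (col v = true → x v = a ∨ x v = a') ∧ (col v = false → x v = b ∨ x v = b')), ?_, ?_⟩
    · have h0 : 0 < net E M (fun v => if col v = true then a else b) := by
        apply net_pos
        intro e he
        obtain ⟨h1, h2⟩ := hE.bip e he
        simp [h1, h2, hp]
      refine lt_of_lt_of_le h0 ?_
      refine Finset.single_le_sum (f := fun x => net E M x) (fun _ _ => zero_le) ?_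
      simp only [mem_filter, mem_univ, true_and]
      intro v
      constructor
      · intro h; left; simp [h]
      · intro h; left; simp [h]
    · intro J hJ _ T hT hP
      exact H K E col hE J hJ T hT hP

end Pool.Agent.WD
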