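import Pool.Agent.WD.St

set_option autoImplicit false

/-!
# WD, module Rct: with a Mal'tsev polymorphism all supports are rectangular
-/

namespace Pool.Agent.WD

open Finset
open scoped NNReal

theorem rct_marg {D V : Type} [Fintype D] [DecidableEq D] [Fintype V] [DecidableEq V]
    (R : Finset V) (g : (V → D) → ℝ≥0) (x : V → D) :
    marg R g x ≠ 0 ↔ ∃ y : V → D, (∀ v, v ∉ R → y v = x v) ∧ g y ≠ 0 := by
  unfold marg
  rw [Ne, Finset.sum_eq_zero_iff]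
  push Not
  constructor
  · rintro ⟨y, hy, hg⟩
    exact ⟨y, (mem_filter.1 hy).2, hg⟩
  · rintro ⟨y, hy, hg⟩
    exact ⟨y, mem_filter.2 ⟨mem_univ _, hy⟩, hg⟩

theorem rct_wt {D V : Type} (I : List (Con D V)) (x : V → D) :
    wt I x ≠ 0 ↔ ∀ c ∈ I, c.f.2 (fun i => x (c.sc i)) ≠ 0 := by
  unfold wt
  rw [Ne, List.prod_eq_zero_iff, List.mem_map]
  push Not
  exact Iff.rfl

theorem thm_Rct : St_Rct := by
  intro D _ _ F p hp hm V _ _ I hI R A x y h1 h2 h3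
  rw [rct_marg] at h1 h2 h3 ⊢
  obtain ⟨X1, e1, w1⟩ := h1
  obtain ⟨X2, e2, w2⟩ := h2
  obtain ⟨X3, e3, w3⟩ := h3
  rw [rct_wt] at w1 w2 w3
  refine ⟨fun v => p (X2 v) (X1 v) (X3 v), fun v hv => ?_, ?_⟩
  · show p (X2 v) (X1 v) (X3 v) = y v
    rw [e1 v hv, e2 v hv, e3 v hv]
    by_cases hA : v ∈ A
    · rw [Finset.piecewise_eq_of_mem _ _ _ hA, Finset.piecewise_eq_of_mem _ _ _ hA]
      exact (hm (x v) (y v)).2
    · rw [Finset.piecewise_eq_of_notMem _ _ _ hA, Finset.piecewise_eq_of_notMem _ _ _ hA]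
      exact (hm (y v) (x v)).1
  · rw [rct_wt]
    intro c hc
    exact hp.2 c.f (hI c hc) _ _ _ (w2 c hc) (w1 c hc) (w3 c hc)

end Pool.Agent.WD
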