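import Pool.Agent.WD.Loc
import Pool.Agent.WD.Glob
import Pool.Agent.WD.Rct
import Pool.Agent.WD.Alg
import Pool.Agent.WD.Bro
import Pool.Agent.WD.Dec
import Pool.Agent.WD.IndM
import Pool.Agent.WD.LossA
import Pool.Agent.WD.LossB
import Pool.Agent.WD.Net
import Pool.Agent.WD.Gra
import Pool.Agent.WD.Lift
import Pool.Agent.WD.Ins
import Pool.Agent.WD.Hard

/-!
# Assembly
-/

namespace Pool.Agent.WD

open Finset
open scoped NNReal

/-- tame for all instances implies balanced for all instances -/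
theorem balanced_of_allTame {D : Type} [Fintype D] [DecidableEq D] {F : Set (WFun D)}
    (hF : AllTame F) (n : ℕ) (I : List (Con D (Fin n))) (hI : Over F I) : Balanced (wt I) := by
  obtain ⟨p, hp, hm⟩ := thm_Glob D F (thm_Loc D F hF)
  exact thm_Alg D (Fin n) (wt I) (hF n I hI) (thm_Rct D F p hp hm (Fin n) I hI)

theorem hard_side : St_Hard2 :=
  thm_Hard2 (thm_Dec thm_Bro) (thm_Net thm_LossA thm_LossB) thm_Gra thm_IndM thm_Lift thm_Ins

end Pool.Agent.WD
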