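import Pool.Agent.WD.Defs

/-!
# Signatures of the modules of the weighted dichotomy
-/

namespace Pool.Agent.WD

open Finset
open scoped NNReal

/-- idempotent ternary polymorphisms of the supports of the functions in `F` -/
def Pol {D : Type} (F : Set (WFun D)) (p : D → D → D → D) : Prop :=
  (∀ x, p x x x = x) ∧ ∀ f ∈ F, ∀ t1 t2 t3 : Fin f.1 → D, f.2 t1 ≠ 0 → f.2 t2 ≠ 0 → f.2 t3 ≠ 0 →
    f.2 (fun i => p (t1 i) (t2 i) (t3 i)) ≠ 0

/-- all instances over `F` are tame -/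
def AllTame {D : Type} [Fintype D] [DecidableEq D] (F : Set (WFun D)) : Prop :=
  ∀ (n : ℕ) (I : List (Con D (Fin n))), Over F I → Tame (wt I)

/-- [Loc] local Mal'tsev polymorphisms. Indicator instance on the variables `D × D × D` (transport
to `Fin n`); for infinite `F` use one violated constraint for each of the finitely many maps `p`
which are idempotent and satisfy the two equations but are no polymorphism. The cases `a = b` and
`c = d` are trivial (projections). -/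
def St_Loc : Prop :=
  ∀ (D : Type) [Fintype D] [DecidableEq D] (F : Set (WFun D)), AllTame F →
    ∀ a b c d : D, ∃ p, Pol F p ∧ p a b b = a ∧ p c c d = d

/-- [Glob] from local to global: compose `s (t x y z) (t y y z) z` and `s x (t x y y) (t x y z)` -/
def St_Glob : Prop :=
  ∀ (D : Type) [Fintype D] [DecidableEq D] (F : Set (WFun D)),
    (∀ a b c d : D, ∃ p, Pol F p ∧ p a b b = a ∧ p c c d = d) →
      ∃ p, Pol F p ∧ ∀ a b, p a b b = a ∧ p a a b = b

/-- all supports of marginals are rectangular -/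
def Rect {D V : Type} [Fintype D] [DecidableEq D] [Fintype V] [DecidableEq V]
    (g : (V → D) → ℝ≥0) : Prop :=
  ∀ (R A : Finset V) (x y : V → D), marg R g x ≠ 0 → marg R g (A.piecewise x y) ≠ 0 →
    marg R g (A.piecewise y x) ≠ 0 → marg R g y ≠ 0

/-- [Rct] with a Mal'tsev polymorphism all supports are rectangular -/
def St_Rct : Prop :=
  ∀ (D : Type) [Fintype D] [DecidableEq D] (F : Set (WFun D)) (p : D → D → D → D), Pol F p →
    (∀ a b, p a b b = a ∧ p a a b = b) →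
    ∀ (V : Type) [Fintype V] [DecidableEq V] (I : List (Con D V)), Over F I → Rect (wt I)

/-- [Alg] tame and rectangular implies balanced -/
def St_Alg : Prop :=
  ∀ (D V : Type) [Fintype D] [DecidableEq D] [Fintype V] [DecidableEq V] (g : (V → D) → ℝ≥0),
    Tame g → Rect g → Balanced g

section

variable {D V : Type} [Fintype D] [DecidableEq D] [Fintype V] [DecidableEq V]

/-- the pair condition for two variables -/
def PairB (T : (V → D) → ℝ≥0) (u v : V) : Prop :=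
  ∀ (R : Finset V) (x y : V → D), (∀ w, w ≠ u → w ≠ v → x w = y w) → Cross (marg R T) {u} x y

/-- `T` satisfies the pair condition for all pairs separated by `S` -/
def Broken (T : (V → D) → ℝ≥0) (S : Finset V) : Prop :=
  ∀ u ∈ S, ∀ v, v ∉ S → PairB T u v

/-- the function `g` depends only on the variables in `U` -/
def DepOn (g : (V → D) → ℝ≥0) (U : Finset V) : Prop :=
  ∀ x y : V → D, (∀ v ∈ U, x v = y v) → g x = g y

end

/-- [Bro] products and islands are broken at the cut -/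
def St_Bro : Prop :=
  ∀ (D V : Type) [Fintype D] [DecidableEq D] [Fintype V] [DecidableEq V]
    (g h : (V → D) → ℝ≥0) (S U : Finset V),
    (DepOn g S → DepOn h Sᶜ → Broken (fun x => g x * h x) S) ∧
    (Tame g → DepOn g U → DepOn h Uᶜ → S ⊆ U → Broken (fun x => g x * h x) S)

/-- [Dec] decomposition of the function computed by a gate (up to a factor, from above) -/
def St_Dec : Prop :=
  ∀ (D V : Type) [Fintype D] [DecidableEq D] [Fintype V] [DecidableEq V] (s : ℕ) (P : Prog D V s)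
    (i₀ : Fin s) (C : Finset V), 2 ≤ C.card →
    ∃ (ι : Type) (_ : Fintype ι) (T : ι → (V → D) → ℝ≥0) (S : ι → Finset V),
      Fintype.card ι ≤ 2 * s ^ 3 ∧ (∀ x, P.val i₀ x ≤ ∑ t, T t x) ∧
      ∀ t, (∀ x, T t x ≤ P.val i₀ x) ∧
        C.card ≤ 3 * (S t ∩ C).card ∧ 3 * (S t ∩ C).card ≤ 2 * C.card ∧ Broken (T t) (S t)

/-- the function of a network of binary constraints -/
def net {D K : Type} (E : Finset (K × K)) (M : D → D → ℝ≥0) (x : K → D) : ℝ≥0 :=
  ∏ e ∈ E, M (x e.1) (x e.2)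

/-- the edges `E` of a connected bipartite graph of degree at most `Δ` -/
structure Bip {K : Type} [Fintype K] [DecidableEq K] (E : Finset (K × K)) (col : K → Bool)
    (Δ : ℕ) : Prop where
  bip : ∀ e ∈ E, col e.1 = true ∧ col e.2 = false
  deg : ∀ v, (E.filter fun e => e.1 = v ∨ e.2 = v).card ≤ Δ
  conn : ∀ S : Finset K, S.Nonempty → S ≠ univ →
    ∃ e ∈ E, (e.1 ∈ S ∧ e.2 ∉ S) ∨ (e.1 ∉ S ∧ e.2 ∈ S)

/-- `J` is an induced matching in `E` -/
def Ind {K : Type} [DecidableEq K] (E J : Finset (K × K)) : Prop :=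
  J ⊆ E ∧ ∀ e ∈ J, ∀ e' ∈ J, e ≠ e' → ∀ u v, (u = e.1 ∨ u = e.2) → (v = e'.1 ∨ v = e'.2) →
    u ≠ v ∧ (u, v) ∉ E ∧ (v, u) ∉ E

/-- [IndM] greedy choice of an induced matching -/
def St_IndM : Prop :=
  ∀ (K : Type) [Fintype K] [DecidableEq K] (E : Finset (K × K)) (col : K → Bool) (Δ : ℕ),
    Bip E col Δ → ∀ X ⊆ E, ∃ J ⊆ X, Ind E J ∧ X.card ≤ (2 * Δ + 2) * Δ * J.card

/-- [LossA] the case of a non-rectangular support: the mass in the box `Q` of the values `a, a'` on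
the left and `b, b'` on the right. Each edge of `J` has a forbidden value among three
(`marg` over all other variables); change the patch of the edge to this value with permissive
neighbours (`a` on the left, `b` on the right). -/
def St_LossA : Prop :=
  ∀ (D : Type) [Fintype D] [DecidableEq D] (M : D → D → ℝ≥0) (a a' b b' : D),
    M a b ≠ 0 → M a b' ≠ 0 → M a' b ≠ 0 → M a' b' = 0 → ∀ Δ : ℕ,
    ∃ η : ℝ, 0 < η ∧ η < 1 ∧ ∀ (K : Type) [Fintype K] [DecidableEq K] (E : Finset (K × K))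
      (col : K → Bool), Bip E col Δ → ∀ J, Ind E J → ∀ T : (K → D) → ℝ≥0,
      (∀ x, T x ≤ net E M x) → (∀ e ∈ J, PairB T e.1 e.2) →
      ((∑ x ∈ univ.filter (fun x : K → D => ∀ v,
          (col v = true → x v = a ∨ x v = a') ∧ (col v = false → x v = b ∨ x v = b')), T x : ℝ≥0) :
            ℝ) ≤ (1 - η) ^ J.card *
        ((∑ x ∈ univ.filter (fun x : K → D => ∀ v,
          (col v = true → x v = a ∨ x v = a') ∧ (col v = false → x v = b ∨ x v = b')),
            net E M x : ℝ≥0) : ℝ)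

/-- [LossB] the case of a rectangular support: the mass of the assignments with `x v₀ = a` -/
def St_LossB : Prop :=
  ∀ (D : Type) [Fintype D] [DecidableEq D] (M : D → D → ℝ≥0) (a a' b b' : D),
    (∀ c c' d d', M c d ≠ 0 → M c d' ≠ 0 → M c' d ≠ 0 → M c' d' ≠ 0) →
    M a b ≠ 0 → M a b' ≠ 0 → M a' b ≠ 0 → M a' b' ≠ 0 → M a b * M a' b' ≠ M a b' * M a' b →
    ∀ Δ : ℕ, ∃ η : ℝ, 0 < η ∧ η < 1 ∧ ∀ (K : Type) [Fintype K] [DecidableEq K]
      (E : Finset (K × K)) (col : K → Bool), Bip E col Δ → ∀ v₀ : K, col v₀ = true →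
      ∀ J, Ind E J → (∀ e ∈ J, e.1 ≠ v₀ ∧ e.2 ≠ v₀) → ∀ T : (K → D) → ℝ≥0,
      (∀ x, T x ≤ net E M x) → (∀ e ∈ J, PairB T e.1 e.2) →
      ((∑ x ∈ univ.filter (fun x : K → D => x v₀ = a), T x : ℝ≥0) : ℝ) ≤ (1 - η) ^ J.card *
        ((∑ x ∈ univ.filter (fun x : K → D => x v₀ = a), net E M x : ℝ≥0) : ℝ)

/-- [Net] both cases -/
def St_Net : Prop :=
  ∀ (D : Type) [Fintype D] [DecidableEq D] (M : D → D → ℝ≥0),
    (∃ a a' b b', ¬ Four (M a b) (M a b') (M a' b) (M a' b')) → ∀ Δ : ℕ,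
    ∃ η : ℝ, 0 < η ∧ η < 1 ∧ ∀ (K : Type) [Fintype K] [DecidableEq K] (E : Finset (K × K))
      (col : K → Bool), Bip E col Δ → ∀ v₀ : K, col v₀ = true →
      ∃ Q : Finset (K → D), 0 < ∑ x ∈ Q, net E M x ∧
        ∀ J, Ind E J → (∀ e ∈ J, e.1 ≠ v₀ ∧ e.2 ≠ v₀) → ∀ T : (K → D) → ℝ≥0,
        (∀ x, T x ≤ net E M x) → (∀ e ∈ J, PairB T e.1 e.2) →
        ((∑ x ∈ Q, T x : ℝ≥0) : ℝ) ≤ (1 - η) ^ J.card * ((∑ x ∈ Q, net E M x : ℝ≥0) : ℝ)

/-- [Gra] expanders (from `Pool.Agent.Dichotomy.exists_expander`) -/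
def St_Gra : Prop :=
  ∃ Δ m₀ : ℕ, ∀ m ≥ m₀, ∃ (K : Type) (_ : Fintype K) (_ : DecidableEq K) (E : Finset (K × K))
    (col : K → Bool), Bip E col Δ ∧ (∃ v, col v = true) ∧ Fintype.card K ≤ 2 * m ∧
    m ≤ Fintype.card K ∧ E.card ≤ Δ * m ∧
    ∀ S : Finset K, Fintype.card K ≤ 3 * S.card → 3 * S.card ≤ 2 * Fintype.card K →
      m ≤ 15 * (E.filter fun e => (e.1 ∈ S ∧ e.2 ∉ S) ∨ (e.1 ∉ S ∧ e.2 ∈ S)).card

/-- [Lift] marginals of the restriction of `T` to the core `K` -/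
def St_Lift : Prop :=
  ∀ (D V K : Type) [Fintype D] [DecidableEq D] [Fintype V] [DecidableEq V] [Fintype K]
    [DecidableEq K] (κ : K ↪ V) (base : V → D) (R : Finset V), (∀ k, κ k ∉ R) →
    ∀ (T : (V → D) → ℝ≥0) (R' : Finset K) (x : K → D),
      marg R' (fun z => marg R T (Function.extend κ z base)) x =
        marg (R'.map κ ∪ R) T (Function.extend κ x base)

/-- [Ins] the instance: a copy of `I₀` for each edge. Suggested: `V = Fin n` contains
`K ⊕ (E × Fin n₀)`; the copy `(e, w)` of the variable `w ≠ u₀, v₀` of `I₀`. -/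
def St_Ins : Prop :=
  ∀ (D : Type) [Fintype D] [DecidableEq D] (F : Set (WFun D)) (n₀ : ℕ)
    (I₀ : List (Con D (Fin n₀))), Over F I₀ → ∀ (R₀ : Finset (Fin n₀)) (u₀ v₀ : Fin n₀)
    (π : Fin n₀ → D), u₀ ≠ v₀ → u₀ ∉ R₀ → v₀ ∉ R₀ →
    ∀ (K : Type) [Fintype K] [DecidableEq K] (E : Finset (K × K)) (Δ : ℕ),
    (∀ v, (E.filter fun e => e.1 = v ∨ e.2 = v).card ≤ Δ) → (∀ e ∈ E, e.1 ≠ e.2) →
    ∀ n : ℕ, Fintype.card K + E.card * n₀ ≤ n →
    ∃ I : List (Con D (Fin n)), Over F I ∧ I.length = E.card * I₀.length ∧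
      (∀ v, (I.filter fun c => decide (∃ i, c.sc i = v)).length ≤ (Δ + 1) * I₀.length) ∧
      ∃ (κ : K ↪ Fin n) (base : Fin n → D) (R : Finset (Fin n)), (∀ k, κ k ∉ R) ∧
        ∀ x : K → D, marg R (wt I) (Function.extend κ x base) =
          net E (fun c d => marg R₀ (wt I₀) (Function.update (Function.update π u₀ c) v₀ d)) x

/-- [Hard] the hard side -/
def St_Hard : Prop :=
  ∀ (D : Type) [Fintype D] [DecidableEq D] (F : Set (WFun D)), ¬ AllTame F →
    ∃ c : ℝ, 0 < c ∧ ∃ C : ℕ, ∀ n : ℕ, ∃ I : List (Con D (Fin n)), Over F I ∧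
      I.length ≤ C * n ∧ (∀ v, (I.filter fun c => decide (∃ i, c.sc i = v)).length ≤ C) ∧
      ∀ (s : ℕ) (P : Prog D (Fin n) s), (∃ i, P.val i = wt I) → (2 : ℝ) ^ (c * n) ≤ 2 * s

end Pool.Agent.WD
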